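import Mathlib

/-!
Definitions for MP_cfc8f6_pr: diffusion-limited aggregation in a discrete wedge.
-/

open Filter Topology MeasureTheory

namespace Pool.Agent.Lib.MP_cfc8f6_pr

/-- The angle `arctan (y / x)` of a lattice point `z = (x, y)` with `x ≥ 0`, with the conventions
`arctan (y / 0) = ± π / 2` for `± y > 0`; the origin gets the angle `0`. -/
noncomputable def angle (z : ℤ × ℤ) : ℝ :=
  if z.1 = 0 then
    (if 0 < z.2 then Real.pi / 2 else if z.2 < 0 then -(Real.pi / 2) else 0)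
  else Real.arctan ((z.2 : ℝ) / (z.1 : ℝ))

/-- The discrete wedge between the angles `θ₁` and `θ₂`. -/
def wedge (θ₁ θ₂ : ℝ) : Set (ℤ × ℤ) :=
  {z | 0 ≤ z.1 ∧ θ₁ ≤ angle z ∧ angle z ≤ θ₂}

/-- The four lattice neighbours of a point of `ℤ²`. -/
def nbrs (z : ℤ × ℤ) : Finset (ℤ × ℤ) :=
  {(z.1 + 1, z.2), (z.1 - 1, z.2), (z.1, z.2 + 1), (z.1, z.2 - 1)}

open Classical in
/-- The lattice neighbours of `z` that lie in `W`. -/
noncomputable def nb (W : Set (ℤ × ℤ)) (z : ℤ × ℤ) : Finset (ℤ × ℤ) :=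
  (nbrs z).filter (fun w => w ∈ W)

open Classical in
/-- `hitStep W B T n x` is the probability that simple random walk on `W` started at `x` visits
`B` for the first time at time `n`, and that the point visited at that time belongs to `T`.
(Recursion on `n` by conditioning on the first step, which goes to a uniformly chosen neighbour
inside `W`.) -/
noncomputable def hitStep (W B T : Set (ℤ × ℤ)) : ℕ → (ℤ × ℤ) → ℝ
  | 0, x => if x ∈ B ∧ x ∈ T then 1 else 0
  | n + 1, x => if x ∈ B then 0 else (∑ w ∈ nb W x, hitStep W B T n w) / ((nb W x).card : ℝ)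

/-- `hitProb W B T x` is the probability that simple random walk on `W` started at `x` hits `B`
and that the first point of `B` visited belongs to `T`. -/
noncomputable def hitProb (W B T : Set (ℤ × ℤ)) (x : ℤ × ℤ) : ℝ :=
  ∑' n : ℕ, hitStep W B T n x

/-- A lattice point seen as a point of the Euclidean plane `ℂ`. -/
noncomputable def toPlane (z : ℤ × ℤ) : ℂ := ⟨(z.1 : ℝ), (z.2 : ℝ)⟩

/-- The filter of the points `x` of `W` with `‖x‖₂ → ∞`. -/
noncomputable def atInfinity (W : Set (ℤ × ℤ)) : Filter (ℤ × ℤ) :=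
  Filter.comap (fun z : ℤ × ℤ => ‖toPlane z‖) atTop ⊓ 𝓟 W

/-- The harmonic measure of `B` from infinity, in `W`, at the point `y`: the limit of the
probability that the walk started at `x` first hits `B` at `y`, as `‖x‖₂ → ∞`, `x ∈ W`. -/
noncomputable def harmonicMeasure (W B : Set (ℤ × ℤ)) (y : ℤ × ℤ) : ℝ :=
  limUnder (atInfinity W) (fun x => hitProb W B {y} x)

open Classical in
/-- The outer boundary of a finite set `A` in `W`: the points of `W \ A` which are at
`ℓ¹`-distance one from a point of `A`. -/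
noncomputable def outerBdry (W : Set (ℤ × ℤ)) (A : Finset (ℤ × ℤ)) : Finset (ℤ × ℤ) :=
  (A.biUnion nbrs).filter (fun y => y ∈ W ∧ y ∉ A)

/-- Diffusion-limited aggregation in `W`, started from the origin: a sequence of random finite
sets `A 0, A 1, …` on a probability space such that `A 0 = {(0, 0)}` almost surely and, given
`A 0, …, A n`, one has `A (n + 1) = A n ∪ {y}` with probability equal to the harmonic measure from
infinity of the point `y` of the outer boundary of `A n`. -/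
structure IsDLA (W : Set (ℤ × ℤ)) {Ω : Type*} [MeasurableSpace Ω] (P : Measure Ω)
    (A : ℕ → Ω → Finset (ℤ × ℤ)) : Prop where
  meas : ∀ (n : ℕ) (s : Finset (ℤ × ℤ)), MeasurableSet {ω | A n ω = s}
  zero : P {ω | A 0 ω = {((0 : ℤ), (0 : ℤ))}} = 1
  step : ∀ (n : ℕ) (s : ℕ → Finset (ℤ × ℤ)) (y : ℤ × ℤ), y ∈ outerBdry W (s n) →
    P {ω | (∀ i ≤ n, A i ω = s i) ∧ A (n + 1) ω = insert y (s n)} =
      P {ω | ∀ i ≤ n, A i ω = s i} *
        ENNReal.ofReal (harmonicMeasure W (outerBdry W (s n)) y)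

/-- The Euclidean diameter of a finite set of lattice points. -/
noncomputable def diam (A : Finset (ℤ × ℤ)) : ℝ :=
  Metric.diam (toPlane '' (A : Set (ℤ × ℤ)))

/-- The growth rate of a sequence of finite sets: the supremum of all `β ≥ 1/2` such that
`limsup diam (A n) / n ^ β > 0`. -/
noncomputable def growthRate (A : ℕ → Finset (ℤ × ℤ)) : ℝ :=
  sSup {β : ℝ | 1 / 2 ≤ β ∧
    0 < Filter.limsup (fun n : ℕ => ENNReal.ofReal (diam (A n) / (n : ℝ) ^ β)) atTop}

/-- The pairs of angles considered in the question. -/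
def Admissible (θ₁ θ₂ : ℝ) : Prop :=
  -(Real.pi / 2) ≤ θ₁ ∧ θ₁ ≤ 0 ∧ 0 ≤ θ₂ ∧ θ₂ ≤ Real.pi / 2 ∧ θ₁ < θ₂

/-- Question Q1: for all admissible angles there is a constant `g θ₁ θ₂` which is almost surely
the growth rate of DLA in the wedge, and `g θ₁ θ₂ → 1` as `θ₂ - θ₁ → 0`. -/
def Q1 : Prop :=
  ∃ g : ℝ → ℝ → ℝ,
    (∀ θ₁ θ₂ : ℝ, Admissible θ₁ θ₂ →
      ∀ (Ω : Type) [MeasurableSpace Ω] (P : Measure Ω) [IsProbabilityMeasure P]
        (A : ℕ → Ω → Finset (ℤ × ℤ)), IsDLA (wedge θ₁ θ₂) P A →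
          ∀ᵐ ω ∂P, growthRate (fun n => A n ω) = g θ₁ θ₂) ∧
    ∀ ε : ℝ, 0 < ε → ∃ δ : ℝ, 0 < δ ∧ ∀ θ₁ θ₂ : ℝ, Admissible θ₁ θ₂ → θ₂ - θ₁ < δ →
      |g θ₁ θ₂ - 1| < ε

end Pool.Agent.Lib.MP_cfc8f6_pr
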