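import Mathlib
import Pool.Agent.Lib.MP_cfc8f6_pr.Defs

/-!
Basic properties of hitting probabilities: boundary values, harmonicity, minimality.
-/

open Filter Topology

namespace Pool.Agent.Lib.MP_cfc8f6_pr

variable {W B T : Set (ℤ × ℤ)}

lemma mem_nb {z w : ℤ × ℤ} : w ∈ nb W z ↔ w ∈ nbrs z ∧ w ∈ W := by
  unfold nb; simp

lemma mem_nbrs {z w : ℤ × ℤ} : w ∈ nbrs z ↔
    (w = (z.1 + 1, z.2) ∨ w = (z.1 - 1, z.2) ∨ w = (z.1, z.2 + 1) ∨ w = (z.1, z.2 - 1)) := by
  unfold nbrs; simp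

lemma nbrs_symm {z w : ℤ × ℤ} : w ∈ nbrs z ↔ z ∈ nbrs w := by
  obtain ⟨a, b⟩ := z
  obtain ⟨c, d⟩ := w
  simp only [mem_nbrs, Prod.mk.injEq]
  omega

lemma mem_nb_symm {z w : ℤ × ℤ} (hz : z ∈ W) (h : w ∈ nb W z) : z ∈ nb W w := by
  rw [mem_nb] at h ⊢
  exact ⟨nbrs_symm.1 h.1, hz⟩

lemma card_nbrs_le (z : ℤ × ℤ) : (nbrs z).card ≤ 4 := by
  unfold nbrs
  exact (Finset.card_insert_le _ _).trans
    (by
      have := Finset.card_insert_le (z.1 - 1, z.2) ({(z.1, z.2 + 1), (z.1, z.2 - 1)} : Finset (ℤ × ℤ))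
      have h2 := Finset.card_insert_le (z.1, z.2 + 1) ({(z.1, z.2 - 1)} : Finset (ℤ × ℤ))
      simp only [Finset.card_singleton] at h2
      omega)

lemma card_nb_le (W : Set (ℤ × ℤ)) (z : ℤ × ℤ) : (nb W z).card ≤ 4 := by
  classical
  unfold nb
  exact (Finset.card_filter_le _ _).trans (card_nbrs_le z)

lemma hitStep_zero (x : ℤ × ℤ) [Decidable (x ∈ B ∧ x ∈ T)] :
    hitStep W B T 0 x = if x ∈ B ∧ x ∈ T then 1 else 0 := by
  by_cases h : x ∈ B ∧ x ∈ T
  · rw [hitStep, if_pos h, if_pos h]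
  · rw [hitStep, if_neg h, if_neg h]

lemma hitStep_succ (n : ℕ) (x : ℤ × ℤ) [Decidable (x ∈ B)] :
    hitStep W B T (n + 1) x =
      if x ∈ B then 0 else (∑ w ∈ nb W x, hitStep W B T n w) / ((nb W x).card : ℝ) := by
  by_cases h : x ∈ B
  · rw [hitStep, if_pos h, if_pos h]
  · rw [hitStep, if_neg h, if_neg h]

lemma hitStep_nonneg (n : ℕ) (x : ℤ × ℤ) : 0 ≤ hitStep W B T n x := by
  classical
  induction n generalizing x with
  | zero =>
    rw [hitStep_zero]
    split_ifs <;> norm_num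
  | succ n ih =>
    rw [hitStep_succ]
    split_ifs
    · exact le_refl _
    · exact div_nonneg (Finset.sum_nonneg fun w _ => ih w) (Nat.cast_nonneg _)

lemma partial_succ (n : ℕ) (x : ℤ × ℤ) [Decidable (x ∈ B)] :
    ∑ i ∈ Finset.range (n + 1), hitStep W B T i x =
      hitStep W B T 0 x +
        if x ∈ B then 0 else
          (∑ w ∈ nb W x, ∑ i ∈ Finset.range n, hitStep W B T i w) / ((nb W x).card : ℝ) := by
  rw [Finset.sum_range_succ']
  rw [add_comm]
  congr 1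
  simp only [hitStep_succ]
  split_ifs with h
  · simp
  · rw [← Finset.sum_div, Finset.sum_comm]

/-- Minimality for the partial sums. -/
lemma partial_le {f : ℤ × ℤ → ℝ} (hf0 : ∀ z ∈ W, 0 ≤ f z) (hfT : ∀ z ∈ W, z ∈ B → z ∈ T → 1 ≤ f z)
    (hsup : ∀ z ∈ W, z ∉ B → (∑ w ∈ nb W z, f w) / ((nb W z).card : ℝ) ≤ f z) (n : ℕ) :
    ∀ x ∈ W, ∑ i ∈ Finset.range n, hitStep W B T i x ≤ f x := by
  classical
  induction n with
  | zero => intro x hx; simpa using hf0 x hx
  | succ n ih =>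
    intro x hx
    rw [partial_succ, hitStep_zero]
    by_cases hB : x ∈ B
    · rw [if_pos hB]
      by_cases hT : x ∈ T
      · rw [if_pos ⟨hB, hT⟩]
        simpa using hfT x hx hB hT
      · rw [if_neg (fun h => hT h.2)]
        simpa using hf0 x hx
    · rw [if_neg (fun h => hB h.1), if_neg hB, zero_add]
      refine le_trans ?_ (hsup x hx hB)
      apply div_le_div_of_nonneg_right _ (Nat.cast_nonneg _)
      exact Finset.sum_le_sum fun w hw => ih w (mem_nb.1 hw).2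

lemma partial_le_one (n : ℕ) : ∀ x ∈ W, ∑ i ∈ Finset.range n, hitStep W B T i x ≤ 1 := by
  refine partial_le (f := fun _ => 1) (fun _ _ => zero_le_one) (fun _ _ _ _ => le_refl _) ?_ n
  intro z _ _
  simp only [Finset.sum_const, nsmul_eq_mul, mul_one]
  exact div_self_le_one _

lemma summable_hitStep {x : ℤ × ℤ} (hx : x ∈ W) : Summable fun n => hitStep W B T n x := by
  exact summable_of_sum_range_le (fun n => hitStep_nonneg n x) (fun n => partial_le_one n x hx)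

lemma hitProb_nonneg (x : ℤ × ℤ) : 0 ≤ hitProb W B T x :=
  tsum_nonneg fun n => hitStep_nonneg n x

/-- Minimality of the hitting probability among nonnegative superharmonic functions. -/
lemma hitProb_le {f : ℤ × ℤ → ℝ} (hf0 : ∀ z ∈ W, 0 ≤ f z)
    (hfT : ∀ z ∈ W, z ∈ B → z ∈ T → 1 ≤ f z)
    (hsup : ∀ z ∈ W, z ∉ B → (∑ w ∈ nb W z, f w) / ((nb W z).card : ℝ) ≤ f z) :
    ∀ x ∈ W, hitProb W B T x ≤ f x := by
  intro x hx
  exact (summable_hitStep hx).tsum_le_of_sum_range_le (fun n => partial_le hf0 hfT hsup n x hx)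

lemma hitProb_le_one {x : ℤ × ℤ} (hx : x ∈ W) : hitProb W B T x ≤ 1 :=
  (summable_hitStep hx).tsum_le_of_sum_range_le (fun n => partial_le_one n x hx)

lemma hitProb_eq {x : ℤ × ℤ} (hx : x ∈ W) [Decidable (x ∈ B)] :
    hitProb W B T x = hitStep W B T 0 x +
      if x ∈ B then 0 else (∑ w ∈ nb W x, hitProb W B T w) / ((nb W x).card : ℝ) := by
  unfold hitProb
  rw [(summable_hitStep hx).tsum_eq_zero_add]
  congr 1
  simp only [hitStep_succ]
  split_ifs with h
  · simp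
  · rw [tsum_div_const, Summable.tsum_finsetSum]
    intro w hw
    exact summable_hitStep (mem_nb.1 hw).2

lemma hitProb_of_mem {x : ℤ × ℤ} (hx : x ∈ W) (hB : x ∈ B) (hT : x ∈ T) :
    hitProb W B T x = 1 := by
  classical
  rw [hitProb_eq hx, hitStep_zero, if_pos ⟨hB, hT⟩, if_pos hB, add_zero]

lemma hitProb_of_notMem {x : ℤ × ℤ} (hx : x ∈ W) (hB : x ∈ B) (hT : x ∉ T) :
    hitProb W B T x = 0 := by
  classical
  rw [hitProb_eq hx, hitStep_zero, if_neg (fun h => hT h.2), if_pos hB, add_zero]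

lemma hitProb_avg {x : ℤ × ℤ} (hx : x ∈ W) (hB : x ∉ B) :
    hitProb W B T x = (∑ w ∈ nb W x, hitProb W B T w) / ((nb W x).card : ℝ) := by
  classical
  rw [hitProb_eq hx, hitStep_zero, if_neg (fun h => hB h.1), if_neg hB, zero_add]

/-- Harmonicity in the form of a vanishing Laplacian. -/
lemma hitProb_lap {x : ℤ × ℤ} (hx : x ∈ W) (hB : x ∉ B) :
    ∑ w ∈ nb W x, (hitProb W B T x - hitProb W B T w) = 0 := by
  rw [Finset.sum_sub_distrib, Finset.sum_const, nsmul_eq_mul]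
  by_cases h : (nb W x).card = 0
  · rw [Finset.card_eq_zero] at h
    simp [h]
  · have h' : ((nb W x).card : ℝ) ≠ 0 := by exact_mod_cast h
    have := hitProb_avg (T := T) hx hB
    rw [eq_div_iff h'] at this
    linarith

/-- Superharmonicity in Laplacian form implies the averaged form. -/
lemma avg_le_of_lap {f : ℤ × ℤ → ℝ} {z : ℤ × ℤ} (hf0 : 0 ≤ f z)
    (h : 0 ≤ ∑ w ∈ nb W z, (f z - f w)) :
    (∑ w ∈ nb W z, f w) / ((nb W z).card : ℝ) ≤ f z := by
  rw [Finset.sum_sub_distrib, Finset.sum_const, nsmul_eq_mul] at h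
  by_cases hc : (nb W z).card = 0
  · simp [hc, hf0]
  · have h' : (0 : ℝ) < ((nb W z).card : ℝ) := by
      exact_mod_cast Nat.pos_of_ne_zero hc
    rw [div_le_iff₀ h']
    linarith

/-- Minimality in Laplacian form. -/
lemma hitProb_le' {f : ℤ × ℤ → ℝ} (hf0 : ∀ z ∈ W, 0 ≤ f z)
    (hfT : ∀ z ∈ W, z ∈ B → z ∈ T → 1 ≤ f z)
    (hsup : ∀ z ∈ W, z ∉ B → 0 ≤ ∑ w ∈ nb W z, (f z - f w)) :
    ∀ x ∈ W, hitProb W B T x ≤ f x :=
  hitProb_le hf0 hfT (fun z hz hB => avg_le_of_lap (hf0 z hz) (hsup z hz hB))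

lemma hitStep_congr {W B T T' : Set (ℤ × ℤ)} (h : ∀ z ∈ B, (z ∈ T ↔ z ∈ T')) (n : ℕ) (x : ℤ × ℤ) :
    hitStep W B T n x = hitStep W B T' n x := by
  classical
  induction n generalizing x with
  | zero =>
    rw [hitStep_zero, hitStep_zero]
    have : (x ∈ B ∧ x ∈ T) ↔ (x ∈ B ∧ x ∈ T') :=
      ⟨fun hh => ⟨hh.1, (h x hh.1).1 hh.2⟩, fun hh => ⟨hh.1, (h x hh.1).2 hh.2⟩⟩
    simp only [this]
  | succ n ih =>
    rw [hitStep_succ, hitStep_succ]
    simp only [ih]

lemma hitStep_union {T₁ T₂ : Set (ℤ × ℤ)} (h : Disjoint T₁ T₂) (n : ℕ) (x : ℤ × ℤ) :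
    hitStep W B (T₁ ∪ T₂) n x = hitStep W B T₁ n x + hitStep W B T₂ n x := by
  classical
  induction n generalizing x with
  | zero =>
    simp only [hitStep_zero]
    have hd : ¬ (x ∈ T₁ ∧ x ∈ T₂) := fun hh => Set.disjoint_left.1 h hh.1 hh.2
    by_cases hB : x ∈ B <;> by_cases h1 : x ∈ T₁ <;> by_cases h2 : x ∈ T₂ <;>
      simp_all
  | succ n ih =>
    simp only [hitStep_succ, ih]
    split_ifs
    · simp
    · rw [Finset.sum_add_distrib, add_div]

lemma hitProb_union {T₁ T₂ : Set (ℤ × ℤ)} (h : Disjoint T₁ T₂) {x : ℤ × ℤ} (hx : x ∈ W) :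
    hitProb W B (T₁ ∪ T₂) x = hitProb W B T₁ x + hitProb W B T₂ x := by
  unfold hitProb
  rw [← (summable_hitStep hx).tsum_add (summable_hitStep hx)]
  exact tsum_congr fun n => hitStep_union h n x

/-- Additivity over the points of a finite target. -/
lemma hitProb_finset (S : Finset (ℤ × ℤ)) {x : ℤ × ℤ} (hx : x ∈ W) :
    hitProb W B (S : Set (ℤ × ℤ)) x = ∑ y ∈ S, hitProb W B {y} x := by
  classical
  induction S using Finset.induction_on with
  | empty =>
    simp only [Finset.coe_empty, Finset.sum_empty]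
    have h0 : ∀ n z, hitStep W B ∅ n z = 0 := by
      intro n
      induction n with
      | zero => intro z; rw [hitStep_zero]; simp
      | succ n ih => intro z; rw [hitStep_succ]; simp [ih]
    unfold hitProb
    simp [h0]
  | insert a s ha ih =>
    rw [Finset.sum_insert ha, ← ih, Finset.coe_insert, Set.insert_eq, hitProb_union _ hx]
    rw [Set.disjoint_singleton_left]
    exact_mod_cast ha

lemma hitProb_congr {W B T T' : Set (ℤ × ℤ)} (h : ∀ z ∈ B, (z ∈ T ↔ z ∈ T')) (x : ℤ × ℤ) :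
    hitProb W B T x = hitProb W B T' x := by
  unfold hitProb
  exact tsum_congr fun n => hitStep_congr h n x

end Pool.Agent.Lib.MP_cfc8f6_pr
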