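import Mathlib
import Pool.Agent.Lib.MP_cfc8f6_pr.Hit

/-!
Energy forms on finite sets of vertices, Green's identity, and the hole-filling inequality.
-/

open Filter Topology Finset

namespace Pool.Agent.Lib.MP_cfc8f6_pr

variable {W : Set (ℤ × ℤ)} {u v : ℤ × ℤ → ℝ}

open Classical in
/-- Square of the difference along the edge `z w` of `W` (zero if this is not an edge). -/
noncomputable def ksq (W : Set (ℤ × ℤ)) (u : ℤ × ℤ → ℝ) (z w : ℤ × ℤ) : ℝ :=
  if z ∈ W ∧ w ∈ nb W z then (u z - u w) ^ 2 else 0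

/-- The energy form. -/
noncomputable def BB (W : Set (ℤ × ℤ)) (u : ℤ × ℤ → ℝ) (S T : Finset (ℤ × ℤ)) : ℝ :=
  ∑ z ∈ S, ∑ w ∈ T, ksq W u z w

lemma ksq_nonneg (z w : ℤ × ℤ) : 0 ≤ ksq W u z w := by
  unfold ksq
  split_ifs
  · positivity
  · exact le_refl _

lemma ksq_symm (z w : ℤ × ℤ) : ksq W u z w = ksq W u w z := by
  unfold ksq
  by_cases h : z ∈ W ∧ w ∈ nb W z
  · have h' : w ∈ W ∧ z ∈ nb W w := ⟨(mem_nb.1 h.2).2, mem_nb_symm h.1 h.2⟩
    rw [if_pos h, if_pos h']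
    ring
  · have h' : ¬ (w ∈ W ∧ z ∈ nb W w) := by
      intro h'
      exact h ⟨(mem_nb.1 h'.2).2, mem_nb_symm h'.1 h'.2⟩
    rw [if_neg h, if_neg h']

lemma BB_nonneg (S T : Finset (ℤ × ℤ)) : 0 ≤ BB W u S T :=
  Finset.sum_nonneg fun _ _ => Finset.sum_nonneg fun _ _ => ksq_nonneg _ _

lemma BB_symm (S T : Finset (ℤ × ℤ)) : BB W u S T = BB W u T S := by
  unfold BB
  rw [Finset.sum_comm]
  exact Finset.sum_congr rfl fun z _ => Finset.sum_congr rfl fun w _ => ksq_symm _ _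

lemma BB_mono {S S' T T' : Finset (ℤ × ℤ)} (hS : S ⊆ S') (hT : T ⊆ T') :
    BB W u S T ≤ BB W u S' T' := by
  unfold BB
  refine (Finset.sum_le_sum fun z _ =>
    Finset.sum_le_sum_of_subset_of_nonneg hT fun _ _ _ => ksq_nonneg _ _).trans ?_
  exact Finset.sum_le_sum_of_subset_of_nonneg hS fun _ _ _ =>
    Finset.sum_nonneg fun _ _ => ksq_nonneg _ _

lemma BB_union_left {S S' T : Finset (ℤ × ℤ)} (h : Disjoint S S') :
    BB W u (S ∪ S') T = BB W u S T + BB W u S' T := by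
  unfold BB
  rw [Finset.sum_union h]

lemma BB_union_right {S T T' : Finset (ℤ × ℤ)} (h : Disjoint T T') :
    BB W u S (T ∪ T') = BB W u S T + BB W u S T' := by
  rw [BB_symm, BB_union_left h, BB_symm T, BB_symm T']

/-- If `S₀ ⊇ S₂ ⊔ C ⊔ D` then the energies add up. -/
lemma BB_three {S₀ S₂ C D : Finset (ℤ × ℤ)} (h2 : S₂ ⊆ S₀) (hC : C ⊆ S₀) (hD : D ⊆ S₀)
    (h2C : Disjoint S₂ C) (hCD : Disjoint C D) (h2D : Disjoint S₂ D) :
    BB W u S₂ S₂ + BB W u C C + 2 * BB W u C D ≤ BB W u S₀ S₀ := by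
  have hsub : (S₂ ∪ C) ∪ D ⊆ S₀ := Finset.union_subset (Finset.union_subset h2 hC) hD
  have hd : Disjoint (S₂ ∪ C) D := Finset.disjoint_union_left.2 ⟨h2D, hCD⟩
  have h1 := BB_mono (W := W) (u := u) hsub hsub
  rw [BB_union_left hd, BB_union_right hd, BB_union_right hd, BB_union_left h2C,
    BB_union_right h2C, BB_union_right h2C] at h1
  have e1 := BB_nonneg (W := W) (u := u) S₂ C
  have e2 := BB_nonneg (W := W) (u := u) C S₂
  have e3 : BB W u (S₂ ∪ C) D = BB W u S₂ D + BB W u C D := BB_union_left h2C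
  have e4 : BB W u D (S₂ ∪ C) = BB W u D S₂ + BB W u D C := BB_union_right h2C
  have e5 := BB_nonneg (W := W) (u := u) S₂ D
  have e6 := BB_nonneg (W := W) (u := u) D S₂
  have e7 := BB_nonneg (W := W) (u := u) D D
  have e8 : BB W u D C = BB W u C D := BB_symm _ _
  rw [e3, e4, e8] at h1
  linarith

open Classical in
/-- Green's identity. -/
lemma green {S Z : Finset (ℤ × ℤ)} (hSZ : S ⊆ Z) (hSW : ∀ z ∈ S, z ∈ W)
    (hnb : ∀ z ∈ S, nb W z ⊆ Z)
    (hu : ∀ z ∈ S, u z * ∑ w ∈ nb W z, (u z - u w) = 0) :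
    BB W u S S = 2 * ∑ z ∈ S, ∑ w ∈ Z \ S, (if w ∈ nb W z then u z * (u w - u z) else 0) := by
  have h1 : ∀ z ∈ S, ∑ w ∈ Z, (if w ∈ nb W z then u z * (u z - u w) else 0) = 0 := by
    intro z hz
    rw [← Finset.sum_filter, ← hu z hz, Finset.mul_sum]
    apply Finset.sum_congr _ (fun _ _ => rfl)
    ext w
    simp only [Finset.mem_filter]
    exact ⟨fun h => h.2, fun h => ⟨hnb z hz h, h⟩⟩
  have h2 : ∑ z ∈ S, ∑ w ∈ Z, (if w ∈ nb W z then u z * (u z - u w) else 0) = 0 :=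
    Finset.sum_eq_zero h1
  have h3 : ∑ z ∈ S, ∑ w ∈ Z, (if w ∈ nb W z then u z * (u z - u w) else 0) =
      ∑ z ∈ S, ∑ w ∈ S, (if w ∈ nb W z then u z * (u z - u w) else 0) +
      ∑ z ∈ S, ∑ w ∈ Z \ S, (if w ∈ nb W z then u z * (u z - u w) else 0) := by
    rw [← Finset.sum_add_distrib]
    apply Finset.sum_congr rfl
    intro z _
    rw [add_comm, Finset.sum_sdiff hSZ]
  have h4 : BB W u S S =
      2 * ∑ z ∈ S, ∑ w ∈ S, (if w ∈ nb W z then u z * (u z - u w) else 0) := by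
    have h5 : ∑ z ∈ S, ∑ w ∈ S, (if w ∈ nb W z then u z * (u z - u w) else 0) =
        ∑ z ∈ S, ∑ w ∈ S, (if w ∈ nb W z then u w * (u w - u z) else 0) := by
      rw [Finset.sum_comm]
      apply Finset.sum_congr rfl
      intro z hz
      apply Finset.sum_congr rfl
      intro w hw
      have : (z ∈ nb W w) ↔ (w ∈ nb W z) :=
        ⟨fun h => mem_nb_symm (hSW w hw) h, fun h => mem_nb_symm (hSW z hz) h⟩
      simp only [this]
    rw [two_mul]
    nth_rw 2 [h5]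
    rw [← Finset.sum_add_distrib]
    unfold BB
    apply Finset.sum_congr rfl
    intro z hz
    rw [← Finset.sum_add_distrib]
    apply Finset.sum_congr rfl
    intro w hw
    unfold ksq
    by_cases hwz : w ∈ nb W z
    · rw [if_pos ⟨hSW z hz, hwz⟩, if_pos hwz, if_pos hwz]
      ring
    · rw [if_neg (fun h => hwz h.2), if_neg hwz, if_neg hwz]
      ring
  have h6 : ∑ z ∈ S, ∑ w ∈ Z \ S, (if w ∈ nb W z then u z * (u w - u z) else 0) =
      - ∑ z ∈ S, ∑ w ∈ Z \ S, (if w ∈ nb W z then u z * (u z - u w) else 0) := by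
    rw [← Finset.sum_neg_distrib]
    apply Finset.sum_congr rfl
    intro z _
    rw [← Finset.sum_neg_distrib]
    apply Finset.sum_congr rfl
    intro w _
    split_ifs
    · ring
    · simp
  rw [h4, h6]
  linarith

/-- The hole-filling inequality. Here `S₂ ⊆ S₁ ⊆ S₀ ⊆ Z`, `C = S₁ \ S₂`, `D = S₀ \ S₁`. -/
lemma hole_filling {Z S₀ S₁ S₂ C D : Finset (ℤ × ℤ)} {κ Λ L : ℝ}
    (hZ : S₀ ⊆ Z) (h10 : S₁ ⊆ S₀)
    (hC : ∀ z, z ∈ C ↔ z ∈ S₁ ∧ z ∉ S₂) (hD : ∀ z, z ∈ D ↔ z ∈ S₀ ∧ z ∉ S₁)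
    (h21 : S₂ ⊆ S₁) (hSW : ∀ z ∈ S₁, z ∈ W)
    (hnb : ∀ z ∈ S₁, nb W z ⊆ Z)
    (hu : ∀ z ∈ S₁, u z * ∑ w ∈ nb W z, (u z - u w) = 0)
    (hout : ∀ z ∈ S₁, ∀ w ∈ nb W z, w ∉ S₁ → (z ∈ C ∧ w ∈ D) ∨ u z * (u w - u z) ≤ 0)
    (hκ : (C.card : ℝ) ≤ κ) (hΛ : 0 ≤ Λ) (hL : 0 < L)
    (hpoin : ∀ z ∈ C, u z ^ 2 ≤ Λ * BB W u C C)
    (hLκ : 2 * κ * Λ ≤ L ^ 2) :
    (L + 1) * BB W u S₂ S₂ ≤ L * BB W u S₀ S₀ := by
  classical
  have h1Z : S₁ ⊆ Z := h10.trans hZ
  have hg := green h1Z hSW hnb hu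
  have hdiff : ∑ z ∈ S₁, ∑ w ∈ Z \ S₁, (if w ∈ nb W z then u z * (u w - u z) else 0) ≤
      ∑ z ∈ C, ∑ w ∈ D, (if w ∈ nb W z then u z * (u w - u z) else 0) := by
    have hCS : C ⊆ S₁ := fun z hz => ((hC z).1 hz).1
    have hDZ : D ⊆ Z \ S₁ := by
      intro w hw
      rw [Finset.mem_sdiff]
      exact ⟨hZ ((hD w).1 hw).1, ((hD w).1 hw).2⟩
    have hstep : ∑ z ∈ S₁, ∑ w ∈ Z \ S₁, (if w ∈ nb W z then u z * (u w - u z) else 0) ≤
        ∑ z ∈ S₁, ∑ w ∈ Z \ S₁,
          (if z ∈ C ∧ w ∈ D then (if w ∈ nb W z then u z * (u w - u z) else 0) else 0) := by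
      apply Finset.sum_le_sum
      intro z hz
      apply Finset.sum_le_sum
      intro w hw
      by_cases hCD : z ∈ C ∧ w ∈ D
      · rw [if_pos hCD]
      · rw [if_neg hCD]
        split_ifs with hwz
        · rcases hout z hz w hwz (Finset.mem_sdiff.1 hw).2 with h | h
          · exact absurd h hCD
          · exact h
        · exact le_refl _
    refine hstep.trans (le_of_eq ?_)
    rw [← Finset.sum_subset hCS]
    · apply Finset.sum_congr rfl
      intro z hz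
      symm
      calc ∑ w ∈ D, (if w ∈ nb W z then u z * (u w - u z) else 0)
          = ∑ w ∈ D, (if z ∈ C ∧ w ∈ D then
              (if w ∈ nb W z then u z * (u w - u z) else 0) else 0) := by
            apply Finset.sum_congr rfl
            intro w hw
            have hzw : z ∈ C ∧ w ∈ D := ⟨hz, hw⟩
            simp only [hzw, and_self, if_true]
        _ = ∑ w ∈ Z \ S₁, (if z ∈ C ∧ w ∈ D then
              (if w ∈ nb W z then u z * (u w - u z) else 0) else 0) := by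
            apply Finset.sum_subset hDZ
            intro w hw hwD
            rw [if_neg (fun h => hwD h.2)]
    · intro z hz hzC
      apply Finset.sum_eq_zero
      intro w hw
      rw [if_neg (fun h => hzC h.1)]
  have hbound : ∑ z ∈ C, ∑ w ∈ D, (if w ∈ nb W z then u z * (u w - u z) else 0) ≤
      ∑ z ∈ C, ∑ w ∈ D, (if w ∈ nb W z then (1 / (4 * L)) * u z ^ 2 else 0) +
        L * BB W u C D := by
    unfold BB
    rw [Finset.mul_sum, ← Finset.sum_add_distrib]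
    apply Finset.sum_le_sum
    intro z hz
    rw [Finset.mul_sum, ← Finset.sum_add_distrib]
    apply Finset.sum_le_sum
    intro w _
    unfold ksq
    by_cases hwz : w ∈ nb W z
    · rw [if_pos hwz, if_pos hwz, if_pos ⟨hSW z ((hC z).1 hz).1, hwz⟩]
      have h4L : (1 / (4 * L)) = 1 / (4 * L) := rfl
      have key : 0 ≤ (u z / (2 * L) - (u w - u z)) ^ 2 * L := by positivity
      have e : (u z / (2 * L) - (u w - u z)) ^ 2 * L =
          (1 / (4 * L)) * u z ^ 2 - u z * (u w - u z) + L * (u z - u w) ^ 2 := by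
        field_simp
        ring
      linarith
    · rw [if_neg hwz, if_neg hwz, if_neg (fun h => hwz h.2)]
      simp
  have hcount : ∑ z ∈ C, ∑ w ∈ D, (if w ∈ nb W z then (1 / (4 * L)) * u z ^ 2 else 0) ≤
      (κ * Λ / L) * BB W u C C := by
    have hz1 : ∀ z ∈ C, ∑ w ∈ D, (if w ∈ nb W z then (1 / (4 * L)) * u z ^ 2 else 0) ≤
        (Λ / L) * BB W u C C := by
      intro z hz
      rw [← Finset.sum_filter, Finset.sum_const, nsmul_eq_mul]
      have hcard : ((D.filter (fun w => w ∈ nb W z)).card : ℝ) ≤ 4 := by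
        have h1 : D.filter (fun w => w ∈ nb W z) ⊆ nb W z := by
          intro w hw
          exact (Finset.mem_filter.1 hw).2
        have h2 := (Finset.card_le_card h1).trans (card_nb_le W z)
        exact_mod_cast h2
      have h3 : 0 ≤ (1 / (4 * L)) * u z ^ 2 := by positivity
      calc ((D.filter (fun w => w ∈ nb W z)).card : ℝ) * ((1 / (4 * L)) * u z ^ 2)
          ≤ 4 * ((1 / (4 * L)) * u z ^ 2) := mul_le_mul_of_nonneg_right hcard h3
        _ = (1 / L) * u z ^ 2 := by field_simp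
        _ ≤ (1 / L) * (Λ * BB W u C C) :=
            mul_le_mul_of_nonneg_left (hpoin z hz) (by positivity)
        _ = (Λ / L) * BB W u C C := by ring
    calc ∑ z ∈ C, ∑ w ∈ D, (if w ∈ nb W z then (1 / (4 * L)) * u z ^ 2 else 0)
        ≤ ∑ _z ∈ C, (Λ / L) * BB W u C C := Finset.sum_le_sum hz1
      _ = (C.card : ℝ) * ((Λ / L) * BB W u C C) := by rw [Finset.sum_const, nsmul_eq_mul]
      _ ≤ κ * ((Λ / L) * BB W u C C) := by
          apply mul_le_mul_of_nonneg_right hκ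
          have := BB_nonneg (W := W) (u := u) C C
          positivity
      _ = (κ * Λ / L) * BB W u C C := by ring
  have hCC := BB_nonneg (W := W) (u := u) C C
  have hmain : BB W u S₁ S₁ ≤ L * (BB W u C C + 2 * BB W u C D) := by
    have h7 : 2 * (κ * Λ / L) * BB W u C C ≤ L * BB W u C C := by
      apply mul_le_mul_of_nonneg_right _ hCC
      rw [← mul_div_assoc, div_le_iff₀ hL]
      nlinarith
    linarith
  have h3 := BB_three (W := W) (u := u) (S₀ := S₀) (S₂ := S₂) (C := C) (D := D)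
    (h21.trans h10) (fun z hz => h10 ((hC z).1 hz).1) (fun z hz => ((hD z).1 hz).1)
    (Finset.disjoint_left.2 fun z h2 hc => ((hC z).1 hc).2 h2)
    (Finset.disjoint_left.2 fun z hc hd => ((hD z).1 hd).2 ((hC z).1 hc).1)
    (Finset.disjoint_left.2 fun z h2 hd => ((hD z).1 hd).2 (h21 h2))
  have h21' := BB_mono (W := W) (u := u) h21 h21
  nlinarith

end Pool.Agent.Lib.MP_cfc8f6_pr
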