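import Mathlib
import Pool.Agent.Lib.MP_cfc8f6_pr.Green

/-!
The wedges `0 ≤ y ≤ x / m`: basic geometry, Poincare inequalities on columns and on rings.
-/

open Filter Topology Finset

namespace Pool.Agent.Lib.MP_cfc8f6_pr

variable {u : ℤ × ℤ → ℝ}

/-- The wedge `{(x, y) : 0 ≤ y, m y ≤ x}`. -/
def Wm (m : ℕ) : Set (ℤ × ℤ) := {z | 0 ≤ z.2 ∧ (m : ℤ) * z.2 ≤ z.1}

lemma mem_Wm {m : ℕ} {z : ℤ × ℤ} : z ∈ Wm m ↔ 0 ≤ z.2 ∧ (m : ℤ) * z.2 ≤ z.1 := Iff.rfl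

/-- The points of the wedge with first coordinate at most `N`. -/
noncomputable def VN (m : ℕ) (N : ℤ) : Finset (ℤ × ℤ) :=
  ((Finset.Icc (0 : ℤ) N) ×ˢ (Finset.Icc (0 : ℤ) N)).filter (fun z => (m : ℤ) * z.2 ≤ z.1)

lemma mem_VN {m : ℕ} (hm : 1 ≤ m) {N : ℤ} {z : ℤ × ℤ} :
    z ∈ VN m N ↔ z ∈ Wm m ∧ z.1 ≤ N := by
  unfold VN
  rw [Finset.mem_filter, Finset.mem_product, Finset.mem_Icc, Finset.mem_Icc, mem_Wm]
  have hm' : (1 : ℤ) ≤ m := by exact_mod_cast hm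
  constructor
  · rintro ⟨⟨⟨h1, h2⟩, h3, h4⟩, h5⟩
    exact ⟨⟨h3, h5⟩, h2⟩
  · rintro ⟨⟨h3, h5⟩, h2⟩
    have h6 : z.2 ≤ (m : ℤ) * z.2 := by nlinarith
    exact ⟨⟨⟨by linarith, h2⟩, h3, by linarith⟩, h5⟩

lemma Wm_fst_nonneg {m : ℕ} {z : ℤ × ℤ} (h : z ∈ Wm m) : 0 ≤ z.1 := by
  have h1 := (mem_Wm.1 h).1
  have h2 := (mem_Wm.1 h).2
  have : 0 ≤ (m : ℤ) * z.2 := by positivity
  linarith

lemma Wm_snd_le_fst {m : ℕ} (hm : 1 ≤ m) {z : ℤ × ℤ} (h : z ∈ Wm m) : z.2 ≤ z.1 := by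
  have hm' : (1 : ℤ) ≤ m := by exact_mod_cast hm
  have h1 := (mem_Wm.1 h).1
  have h2 := (mem_Wm.1 h).2
  nlinarith

lemma memWm_of_le {m : ℕ} {x t x₀ t₀ : ℤ} (h0 : 0 ≤ t) (ht : t ≤ t₀) (h : (m : ℤ) * t₀ ≤ x₀)
    (hx : x₀ ≤ x) : (x, t) ∈ Wm m := by
  rw [mem_Wm]
  refine ⟨h0, ?_⟩
  have : (m : ℤ) * t ≤ (m : ℤ) * t₀ := mul_le_mul_of_nonneg_left ht (by positivity)
  simp only
  linarith

lemma nbrs_fst_le {z w : ℤ × ℤ} (h : w ∈ nbrs z) : w.1 ≤ z.1 + 1 ∧ z.1 - 1 ≤ w.1 ∧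
    w.2 ≤ z.2 + 1 ∧ z.2 - 1 ≤ w.2 := by
  rw [mem_nbrs] at h
  rcases h with h | h | h | h <;> subst h <;> simp <;> omega

/-- Cauchy-Schwarz along a path. -/
lemma path_le {W : Set (ℤ × ℤ)} {C : Finset (ℤ × ℤ)} (p : ℕ → ℤ × ℤ) (n : ℕ)
    (hinj : Set.InjOn p (Finset.range n : Set ℕ)) (hC : ∀ i ≤ n, p i ∈ C) (hW : ∀ i ≤ n, p i ∈ W)
    (hadj : ∀ i < n, p (i + 1) ∈ nbrs (p i)) :
    (u (p 0) - u (p n)) ^ 2 ≤ n * BB W u C C := by
  classical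
  have h1 : u (p 0) - u (p n) = ∑ i ∈ Finset.range n, (u (p i) - u (p (i + 1))) := by
    rw [Finset.sum_range_sub']
  have h2 : (∑ i ∈ Finset.range n, (u (p i) - u (p (i + 1)))) ^ 2 ≤
      n * ∑ i ∈ Finset.range n, (u (p i) - u (p (i + 1))) ^ 2 := by
    have := sq_sum_le_card_mul_sum_sq (s := Finset.range n)
      (f := fun i => u (p i) - u (p (i + 1)))
    simpa using this
  have h3 : ∑ i ∈ Finset.range n, (u (p i) - u (p (i + 1))) ^ 2 ≤ BB W u C C := by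
    calc ∑ i ∈ Finset.range n, (u (p i) - u (p (i + 1))) ^ 2
        = ∑ i ∈ Finset.range n, ksq W u (p i) (p (i + 1)) := by
          apply Finset.sum_congr rfl
          intro i hi
          rw [Finset.mem_range] at hi
          unfold ksq
          rw [if_pos]
          exact ⟨hW i hi.le, mem_nb.2 ⟨hadj i hi, hW (i + 1) hi⟩⟩
      _ ≤ ∑ i ∈ Finset.range n, ∑ w ∈ C, ksq W u (p i) w := by
          apply Finset.sum_le_sum
          intro i hi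
          rw [Finset.mem_range] at hi
          exact Finset.single_le_sum (f := fun w => ksq W u (p i) w)
            (fun w _ => ksq_nonneg _ _) (hC (i + 1) hi)
      _ = ∑ z ∈ (Finset.range n).image p, ∑ w ∈ C, ksq W u z w := by
          rw [Finset.sum_image]
          intro a ha b hb hab
          exact hinj ha hb hab
      _ ≤ BB W u C C := by
          unfold BB
          apply Finset.sum_le_sum_of_subset_of_nonneg
          · intro z hz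
            rw [Finset.mem_image] at hz
            obtain ⟨i, hi, rfl⟩ := hz
            rw [Finset.mem_range] at hi
            exact hC i hi.le
          · intro z _ _
            exact Finset.sum_nonneg fun _ _ => ksq_nonneg _ _
  rw [h1]
  exact h2.trans (mul_le_mul_of_nonneg_left h3 (Nat.cast_nonneg n))

/-- Horizontal segments. -/
lemma seg_h {W : Set (ℤ × ℤ)} {C : Finset (ℤ × ℤ)} {x₁ x₂ t : ℤ} (h12 : x₁ ≤ x₂)
    (hCW : ∀ z ∈ C, z ∈ W) (hC : ∀ x, x₁ ≤ x → x ≤ x₂ → (x, t) ∈ C) :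
    (u (x₁, t) - u (x₂, t)) ^ 2 ≤ ((x₂ - x₁ : ℤ) : ℝ) * BB W u C C := by
  obtain ⟨n, hn⟩ := Int.eq_ofNat_of_zero_le (sub_nonneg.2 h12)
  have hx2 : x₂ = x₁ + n := by omega
  have := path_le (W := W) (C := C) (u := u) (fun i => (x₁ + (i : ℤ), t)) n
    (by
      intro i _ j _ hij
      simp only [Prod.mk.injEq, add_right_inj, Nat.cast_inj, and_true] at hij
      exact hij)
    (by
      intro i hi
      have : (i : ℤ) ≤ n := by exact_mod_cast hi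
      exact hC _ (by omega) (by omega))
    (by
      intro i hi
      have : (i : ℤ) ≤ n := by exact_mod_cast hi
      exact hCW _ (hC _ (by omega) (by omega)))
    (by
      intro i _
      rw [mem_nbrs]
      left
      simp only [Prod.mk.injEq, and_true]
      push_cast
      ring)
  simp only [Nat.cast_zero, add_zero] at this
  rw [hx2]
  have e : ((x₁ + (n : ℤ) - x₁ : ℤ) : ℝ) = (n : ℝ) := by push_cast; ring
  rw [e]
  exact this

/-- Vertical segments. -/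
lemma seg_v {W : Set (ℤ × ℤ)} {C : Finset (ℤ × ℤ)} {x t₁ t₂ : ℤ} (h12 : t₁ ≤ t₂)
    (hCW : ∀ z ∈ C, z ∈ W) (hC : ∀ t, t₁ ≤ t → t ≤ t₂ → (x, t) ∈ C) :
    (u (x, t₁) - u (x, t₂)) ^ 2 ≤ ((t₂ - t₁ : ℤ) : ℝ) * BB W u C C := by
  obtain ⟨n, hn⟩ := Int.eq_ofNat_of_zero_le (sub_nonneg.2 h12)
  have hx2 : t₂ = t₁ + n := by omega
  have := path_le (W := W) (C := C) (u := u) (fun i => (x, t₁ + (i : ℤ))) n
    (by
      intro i _ j _ hij
      simp only [Prod.mk.injEq, add_right_inj, Nat.cast_inj, true_and] at hij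
      exact hij)
    (by
      intro i hi
      have : (i : ℤ) ≤ n := by exact_mod_cast hi
      exact hC _ (by omega) (by omega))
    (by
      intro i hi
      have : (i : ℤ) ≤ n := by exact_mod_cast hi
      exact hCW _ (hC _ (by omega) (by omega)))
    (by
      intro i _
      rw [mem_nbrs]
      right; right; left
      simp only [Prod.mk.injEq, true_and]
      push_cast
      ring)
  simp only [Nat.cast_zero, add_zero] at this
  rw [hx2]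
  have e : ((t₁ + (n : ℤ) - t₁ : ℤ) : ℝ) = (n : ℝ) := by push_cast; ring
  rw [e]
  exact this

/-- The predicate `dist_∞ (z, y) ≥ ρ`. -/
def Far (y : ℤ × ℤ) (ρ : ℤ) (z : ℤ × ℤ) : Prop :=
  z.1 ≤ y.1 - ρ ∨ y.1 + ρ ≤ z.1 ∨ z.2 ≤ y.2 - ρ ∨ y.2 + ρ ≤ z.2

instance (y : ℤ × ℤ) (ρ : ℤ) : DecidablePred (Far y ρ) := fun z => by
  unfold Far; infer_instance

/-- Points of the wedge, in `x ≤ N`, at distance at least `ρ` from `y`. -/
noncomputable def Sr (m : ℕ) (N : ℤ) (y : ℤ × ℤ) (ρ : ℤ) : Finset (ℤ × ℤ) := (VN m N).filter (Far y ρ)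

/-- Points of the wedge, in `x ≤ N`, at distance exactly `ρ` from `y`. -/
noncomputable def Cr (m : ℕ) (N : ℤ) (y : ℤ × ℤ) (ρ : ℤ) : Finset (ℤ × ℤ) :=
  (VN m N).filter (fun z => Far y ρ z ∧ ¬ Far y (ρ + 1) z)

lemma mem_Sr {m : ℕ} (hm : 1 ≤ m) {N : ℤ} {y : ℤ × ℤ} {ρ : ℤ} {z : ℤ × ℤ} :
    z ∈ Sr m N y ρ ↔ (z ∈ Wm m ∧ z.1 ≤ N) ∧ Far y ρ z := by
  unfold Sr
  rw [Finset.mem_filter, mem_VN hm]

lemma mem_Cr {m : ℕ} (hm : 1 ≤ m) {N : ℤ} {y : ℤ × ℤ} {ρ : ℤ} {z : ℤ × ℤ} :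
    z ∈ Cr m N y ρ ↔ (z ∈ Wm m ∧ z.1 ≤ N) ∧ Far y ρ z ∧ ¬ Far y (ρ + 1) z := by
  unfold Cr
  rw [Finset.mem_filter, mem_VN hm]

lemma mem_Cr' {m : ℕ} (hm : 1 ≤ m) {N a b ρ x t : ℤ} :
    ((x, t) : ℤ × ℤ) ∈ Cr m N (a, b) ρ ↔ ((x, t) ∈ Wm m ∧ x ≤ N) ∧
      (a - ρ ≤ x ∧ x ≤ a + ρ ∧ b - ρ ≤ t ∧ t ≤ b + ρ) ∧
      (x = a - ρ ∨ x = a + ρ ∨ t = b - ρ ∨ t = b + ρ) := by
  rw [mem_Cr hm]
  unfold Far
  simp only
  constructor
  · rintro ⟨h1, h2, h3⟩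
    refine ⟨h1, ?_, ?_⟩ <;> omega
  · rintro ⟨h1, h2, h3⟩
    refine ⟨h1, ?_, ?_⟩ <;> omega

/-- Three-step chain. -/
lemma three_step {a b c d q : ℝ} (h1 : (a - b) ^ 2 ≤ q) (h2 : (b - c) ^ 2 ≤ q)
    (h3 : (c - d) ^ 2 ≤ q) : (a - d) ^ 2 ≤ 9 * q := by
  nlinarith [sq_nonneg ((a - b) - (b - c)), sq_nonneg ((b - c) - (c - d)),
    sq_nonneg ((a - b) - (c - d))]

/-- Every point of a ring is joined to a hub inside the ring. -/
lemma ring_hub {m : ℕ} (hm : 1 ≤ m) {N a b ρ : ℤ} (hρ : 1 ≤ ρ) (hy : ((a, b) : ℤ × ℤ) ∈ Wm m)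
    (ha : (2 * (m : ℤ) + 1) * ρ ≤ a) (hN : a + ρ ≤ N) :
    ∃ h : ℤ × ℤ, ∀ z ∈ Cr m N (a, b) ρ,
      (u z - u h) ^ 2 ≤ 9 * ((2 * ρ : ℤ) * BB (Wm m) u (Cr m N (a, b) ρ) (Cr m N (a, b) ρ)) := by
  have hm' : (1 : ℤ) ≤ m := by exact_mod_cast hm
  have hb0 : 0 ≤ b := (mem_Wm.1 hy).1
  have hb1 : (m : ℤ) * b ≤ a := (mem_Wm.1 hy).2
  set C := Cr m N (a, b) ρ with hCdef
  set q := BB (Wm m) u C C with hq
  have hq0 : 0 ≤ q := BB_nonneg _ _
  have hCW : ∀ z ∈ C, z ∈ Wm m := fun z hz => ((mem_Cr hm).1 hz).1.1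
  have h0 : ∀ r : ℝ, (r - r) ^ 2 ≤ ((2 * ρ : ℤ) : ℝ) * q := by
    intro r
    have : (0 : ℝ) ≤ ((2 * ρ : ℤ) : ℝ) := by exact_mod_cast (by omega : (0 : ℤ) ≤ 2 * ρ)
    have h2 : (r - r) ^ 2 = 0 := by ring
    rw [h2]
    exact mul_nonneg this hq0
  have hseg_h : ∀ x₁ x₂ t : ℤ, x₁ ≤ x₂ → x₂ - x₁ ≤ 2 * ρ →
      (∀ x, x₁ ≤ x → x ≤ x₂ → (x, t) ∈ C) →
      (u (x₁, t) - u (x₂, t)) ^ 2 ≤ ((2 * ρ : ℤ) : ℝ) * q := by
    intro x₁ x₂ t h1 h2 h3
    refine (seg_h h1 hCW h3).trans ?_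
    apply mul_le_mul_of_nonneg_right _ hq0
    exact_mod_cast h2
  have hseg_v : ∀ x t₁ t₂ : ℤ, t₁ ≤ t₂ → t₂ - t₁ ≤ 2 * ρ →
      (∀ t, t₁ ≤ t → t ≤ t₂ → (x, t) ∈ C) →
      (u (x, t₁) - u (x, t₂)) ^ 2 ≤ ((2 * ρ : ℤ) : ℝ) * q := by
    intro x t₁ t₂ h1 h2 h3
    refine (seg_v h1 hCW h3).trans ?_
    apply mul_le_mul_of_nonneg_right _ hq0
    exact_mod_cast h2
  by_cases hcase : ρ ≤ b
  · -- hub is the south-west corner
    have hSW : (m : ℤ) * (b - ρ) ≤ a - ρ := by nlinarith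
    have hbot : ∀ x, a - ρ ≤ x → x ≤ a + ρ → (x, b - ρ) ∈ C := by
      intro x h1 h2
      rw [hCdef, mem_Cr' hm]
      exact ⟨⟨memWm_of_le (by omega) (le_refl _) hSW h1, by omega⟩, by omega, by omega⟩
    refine ⟨(a - ρ, b - ρ), ?_⟩
    rintro ⟨x, t⟩ hz
    have hz' := (mem_Cr' hm).1 hz
    obtain ⟨⟨hzW, hzN⟩, ⟨h1, h2, h3, h4⟩, h5⟩ := hz'
    have hzW1 : 0 ≤ t := (mem_Wm.1 hzW).1
    have hzW2 : (m : ℤ) * t ≤ x := (mem_Wm.1 hzW).2
    rcases h5 with h5 | h5 | h5 | h5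
    · -- left side
      subst h5
      refine three_step (b := u (a - ρ, b - ρ)) (c := u (a - ρ, b - ρ)) ?_ (h0 _) (h0 _)
      have := hseg_v (a - ρ) (b - ρ) t h3 (by omega) (by
        intro t' h6 h7
        rw [hCdef, mem_Cr' hm]
        exact ⟨⟨memWm_of_le (by omega) h7 hzW2 (le_refl _), by omega⟩, by omega, by omega⟩)
      rw [← neg_sub, neg_sq]
      exact this
    · -- right side
      subst h5
      refine three_step (b := u (a + ρ, b - ρ)) (c := u (a - ρ, b - ρ)) ?_ ?_ (h0 _)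
      · have := hseg_v (a + ρ) (b - ρ) t h3 (by omega) (by
          intro t' h6 h7
          rw [hCdef, mem_Cr' hm]
          exact ⟨⟨memWm_of_le (by omega) h7 hzW2 (le_refl _), by omega⟩, by omega, by omega⟩)
        rw [← neg_sub, neg_sq]
        exact this
      · have := hseg_h (a - ρ) (a + ρ) (b - ρ) (by omega) (by omega) hbot
        rw [← neg_sub, neg_sq]
        exact this
    · -- bottom side
      subst h5
      refine three_step (b := u (a - ρ, b - ρ)) (c := u (a - ρ, b - ρ)) ?_ (h0 _) (h0 _)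
      have := hseg_h (a - ρ) x (b - ρ) h1 (by omega) (fun x' h6 h7 => hbot x' h6 (by omega))
      rw [← neg_sub, neg_sq]
      exact this
    · -- top side
      subst h5
      refine three_step (b := u (a + ρ, b + ρ)) (c := u (a + ρ, b - ρ)) ?_ ?_ ?_
      · exact hseg_h x (a + ρ) (b + ρ) h2 (by omega) (by
          intro x' h6 h7
          rw [hCdef, mem_Cr' hm]
          exact ⟨⟨memWm_of_le (by omega) (le_refl _) hzW2 h6, by omega⟩, by omega, by omega⟩)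
      · have := hseg_v (a + ρ) (b - ρ) (b + ρ) (by omega) (by omega) (by
          intro t' h6 h7
          rw [hCdef, mem_Cr' hm]
          exact ⟨⟨memWm_of_le (by omega) h7 hzW2 h2, by omega⟩, by omega, by omega⟩)
        rw [← neg_sub, neg_sq]
        exact this
      · have := hseg_h (a - ρ) (a + ρ) (b - ρ) (by omega) (by omega) hbot
        rw [← neg_sub, neg_sq]
        exact this
  · -- hub is the north-west corner
    push Not at hcase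
    have hNW : (m : ℤ) * (b + ρ) ≤ a - ρ := by nlinarith
    have htop : ∀ x, a - ρ ≤ x → x ≤ a + ρ → (x, b + ρ) ∈ C := by
      intro x h1 h2
      rw [hCdef, mem_Cr' hm]
      exact ⟨⟨memWm_of_le (by omega) (le_refl _) hNW h1, by omega⟩, by omega, by omega⟩
    refine ⟨(a - ρ, b + ρ), ?_⟩
    rintro ⟨x, t⟩ hz
    have hz' := (mem_Cr' hm).1 hz
    obtain ⟨⟨hzW, hzN⟩, ⟨h1, h2, h3, h4⟩, h5⟩ := hz'
    have hzW1 : 0 ≤ t := (mem_Wm.1 hzW).1
    have hzW2 : (m : ℤ) * t ≤ x := (mem_Wm.1 hzW).2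
    rcases h5 with h5 | h5 | h5 | h5
    · -- left side
      subst h5
      refine three_step (b := u (a - ρ, b + ρ)) (c := u (a - ρ, b + ρ)) ?_ (h0 _) (h0 _)
      exact hseg_v (a - ρ) t (b + ρ) h4 (by omega) (by
        intro t' h6 h7
        rw [hCdef, mem_Cr' hm]
        exact ⟨⟨memWm_of_le (by omega) h7 hNW (le_refl _), by omega⟩, by omega, by omega⟩)
    · -- right side
      subst h5
      refine three_step (b := u (a + ρ, b + ρ)) (c := u (a - ρ, b + ρ)) ?_ ?_ (h0 _)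
      · exact hseg_v (a + ρ) t (b + ρ) h4 (by omega) (by
          intro t' h6 h7
          rw [hCdef, mem_Cr' hm]
          exact ⟨⟨memWm_of_le (by omega) h7 hNW (by omega), by omega⟩, by omega, by omega⟩)
      · have := hseg_h (a - ρ) (a + ρ) (b + ρ) (by omega) (by omega) htop
        rw [← neg_sub, neg_sq]
        exact this
    · -- bottom side
      subst h5
      refine three_step (b := u (a + ρ, b - ρ)) (c := u (a + ρ, b + ρ)) ?_ ?_ ?_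
      · exact hseg_h x (a + ρ) (b - ρ) h2 (by omega) (by
          intro x' h6 h7
          rw [hCdef, mem_Cr' hm]
          exact ⟨⟨memWm_of_le (by omega) (le_refl _) hzW2 h6, by omega⟩, by omega, by omega⟩)
      · exact hseg_v (a + ρ) (b - ρ) (b + ρ) (by omega) (by omega) (by
          intro t' h6 h7
          rw [hCdef, mem_Cr' hm]
          exact ⟨⟨memWm_of_le (by omega) h7 hNW (by omega), by omega⟩, by omega, by omega⟩)
      · have := hseg_h (a - ρ) (a + ρ) (b + ρ) (by omega) (by omega) htop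
        rw [← neg_sub, neg_sq]
        exact this
    · -- top side
      subst h5
      refine three_step (b := u (a - ρ, b + ρ)) (c := u (a - ρ, b + ρ)) ?_ (h0 _) (h0 _)
      have := hseg_h (a - ρ) x (b + ρ) h1 (by omega) (fun x' h6 h7 => htop x' h6 (by omega))
      rw [← neg_sub, neg_sq]
      exact this

/-- Poincare inequality on a ring. -/
lemma ring_poincare {m : ℕ} (hm : 1 ≤ m) {N a b ρ : ℤ} (hρ : 1 ≤ ρ)
    (hy : ((a, b) : ℤ × ℤ) ∈ Wm m)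
    (ha : (2 * (m : ℤ) + 1) * ρ ≤ a) (hN : a + ρ ≤ N)
    {z₀ : ℤ × ℤ} (hz₀ : z₀ ∈ Cr m N (a, b) ρ) (hu₀ : u z₀ = 0) :
    ∀ z ∈ Cr m N (a, b) ρ,
      u z ^ 2 ≤ (72 * (ρ : ℝ)) * BB (Wm m) u (Cr m N (a, b) ρ) (Cr m N (a, b) ρ) := by
  obtain ⟨h, hh⟩ := ring_hub (u := u) hm hρ hy ha hN
  intro z hz
  have h1 := hh z hz
  have h2 := hh z₀ hz₀
  rw [hu₀] at h2
  push_cast at h1 h2
  nlinarith [sq_nonneg (u z - u h - (0 - u h)), sq_nonneg (u z - 2 * u h)]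

/-- The number of points of a ring. -/
lemma card_Cr_le {m : ℕ} (hm : 1 ≤ m) {N a b ρ : ℤ} (hρ : 1 ≤ ρ) :
    ((Cr m N (a, b) ρ).card : ℝ) ≤ 12 * (ρ : ℝ) := by
  classical
  have hsub : Cr m N (a, b) ρ ⊆
      ((Finset.Icc (a - ρ) (a + ρ)) ×ˢ ({b - ρ, b + ρ} : Finset ℤ)) ∪
      (({a - ρ, a + ρ} : Finset ℤ) ×ˢ (Finset.Icc (b - ρ) (b + ρ))) := by
    rintro ⟨x, t⟩ hz
    obtain ⟨_, ⟨h1, h2, h3, h4⟩, h5⟩ := (mem_Cr' hm).1 hz
    rw [Finset.mem_union, Finset.mem_product, Finset.mem_product]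
    simp only [Finset.mem_Icc, Finset.mem_insert, Finset.mem_singleton]
    omega
  have h1 := (Finset.card_le_card hsub).trans (Finset.card_union_le _ _)
  rw [Finset.card_product, Finset.card_product, Int.card_Icc, Int.card_Icc] at h1
  have h2 : ({b - ρ, b + ρ} : Finset ℤ).card ≤ 2 := Finset.card_le_two
  have h3 : ({a - ρ, a + ρ} : Finset ℤ).card ≤ 2 := Finset.card_le_two
  have e1 : (a + ρ + 1 - (a - ρ)).toNat = (2 * ρ + 1).toNat := by congr 1; ring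
  have e2 : (b + ρ + 1 - (b - ρ)).toNat = (2 * ρ + 1).toNat := by congr 1; ring
  rw [e1, e2] at h1
  have h4 : (Cr m N (a, b) ρ).card ≤ 4 * (2 * ρ + 1).toNat := by nlinarith
  have h5 : (((2 * ρ + 1).toNat : ℤ)) = 2 * ρ + 1 := Int.toNat_of_nonneg (by omega)
  have h6 : ((Cr m N (a, b) ρ).card : ℤ) ≤ 12 * ρ := by
    have : ((Cr m N (a, b) ρ).card : ℤ) ≤ 4 * (((2 * ρ + 1).toNat : ℤ)) := by exact_mod_cast h4
    rw [h5] at this
    omega
  exact_mod_cast h6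

end Pool.Agent.Lib.MP_cfc8f6_pr
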