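import Mathlib
import Pool.Agent.Lib.MP_cfc8f6_pr.Geom

/-!
Decay of the energy of a potential away from its pole: rings and columns.
-/

open Filter Topology Finset

namespace Pool.Agent.Lib.MP_cfc8f6_pr

variable {u : ℤ × ℤ → ℝ}

/-- A potential: the equilibrium function with value `1` at `y ∈ K` and `0` on the rest of `K` and
on `x ≥ N`. -/
structure Pot (m : ℕ) (K : Set (ℤ × ℤ)) (N : ℤ) (y : ℤ × ℤ) (u : ℤ × ℤ → ℝ) : Prop where
  memW : y ∈ Wm m
  one : u y = 1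
  nonneg : ∀ z ∈ Wm m, 0 ≤ u z
  le_one : ∀ z ∈ Wm m, u z ≤ 1
  zero : ∀ z ∈ Wm m, z ∈ K → z ≠ y → u z = 0
  zeroN : ∀ z ∈ Wm m, N ≤ z.1 → u z = 0
  lap : ∀ z ∈ Wm m, z ∉ K → z.1 < N → ∑ w ∈ nb (Wm m) z, (u z - u w) = 0
  minim : ∀ f : ℤ × ℤ → ℝ, (∀ z ∈ Wm m, 0 ≤ f z) → 1 ≤ f y →
    (∀ z ∈ Wm m, z ∉ K → z.1 < N → 0 ≤ ∑ w ∈ nb (Wm m) z, (f z - f w)) → ∀ z ∈ Wm m, u z ≤ f z

variable {m : ℕ} {K : Set (ℤ × ℤ)} {N : ℤ} {y : ℤ × ℤ}

lemma Pot.mul_lap (hP : Pot m K N y u)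
    {z : ℤ × ℤ} (hz : z ∈ Wm m) (hzy : z ≠ y) :
    u z * ∑ w ∈ nb (Wm m) z, (u z - u w) = 0 := by
  by_cases hK : z ∈ K
  · rw [hP.zero z hz hK hzy, zero_mul]
  · by_cases hN : z.1 < N
    · rw [hP.lap z hz hK hN, mul_zero]
    · rw [hP.zeroN z hz (not_lt.1 hN), zero_mul]

/-- Maximum principle: `Q` is a region, `M` bounds `u` on the points of `Q` having a neighbour
outside `Q`. -/
lemma Pot.max_principle (hP : Pot m K N y u)
    {Q : Set (ℤ × ℤ)} {M : ℝ} (hM : 0 ≤ M) (hy : y ∉ Q)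
    (hQ : ∀ z ∈ Wm m, z ∈ Q → (∃ w ∈ nb (Wm m) z, w ∉ Q) → u z ≤ M) :
    ∀ z ∈ Wm m, z ∈ Q → u z ≤ M := by
  classical
  set f : ℤ × ℤ → ℝ := fun z => if z ∈ Q then min (u z) M else u z with hf
  have hfu : ∀ z, f z ≤ u z := by
    intro z
    rw [hf]
    simp only
    split_ifs
    · exact min_le_left _ _
    · exact le_refl _
  have key := hP.minim f (by
    intro z hz
    rw [hf]
    simp only
    split_ifs
    · exact le_min (hP.nonneg z hz) hM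
    · exact hP.nonneg z hz) (by
    rw [hf]
    simp only
    rw [if_neg hy, hP.one]) (by
    intro z hz hzK hzN
    by_cases hfz : f z = u z
    · rw [hfz, ← hP.lap z hz hzK hzN]
      exact Finset.sum_le_sum fun w _ => by linarith [hfu w]
    · have hzQ : z ∈ Q := by
        by_contra h
        apply hfz
        rw [hf]
        simp only
        rw [if_neg h]
      have hzM : M < u z := by
        by_contra h
        apply hfz
        rw [hf]
        simp only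
        rw [if_pos hzQ, min_eq_left (not_lt.1 h)]
      have hfz' : f z = M := by
        rw [hf]
        simp only
        rw [if_pos hzQ, min_eq_right hzM.le]
      apply Finset.sum_nonneg
      intro w hw
      have hwQ : w ∈ Q := by
        by_contra h
        exact absurd (hQ z hz hzQ ⟨w, hw, h⟩) (not_le.2 hzM)
      have : f w ≤ M := by
        rw [hf]
        simp only
        rw [if_pos hwQ]
        exact min_le_right _ _
      linarith)
  intro z hz hzQ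
  have := key z hz
  rw [hf] at this
  simp only at this
  rw [if_pos hzQ] at this
  exact this.trans (min_le_right _ _)

lemma VN_mono {N N' : ℤ} (hm : 1 ≤ m) (h : N ≤ N') : VN m N ⊆ VN m N' := by
  intro z hz
  rw [mem_VN hm] at hz ⊢
  exact ⟨hz.1, hz.2.trans h⟩

lemma Sr_sub (hm : 1 ≤ m) {ρ : ℤ} : Sr m N y ρ ⊆ VN m (N + 1) := by
  intro z hz
  rw [mem_Sr hm] at hz
  rw [mem_VN hm]
  exact ⟨hz.1.1, by linarith [hz.1.2]⟩

lemma nb_sub_VN (hm : 1 ≤ m) {z : ℤ × ℤ} (h : z.1 ≤ N) : nb (Wm m) z ⊆ VN m (N + 1) := by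
  intro w hw
  rw [mem_nb] at hw
  rw [mem_VN hm]
  have := nbrs_fst_le hw.1
  exact ⟨hw.2, by omega⟩

lemma Far_mono {ρ ρ' : ℤ} (h : ρ ≤ ρ') {z : ℤ × ℤ} (hz : Far y ρ' z) : Far y ρ z := by
  unfold Far at hz ⊢
  omega

lemma Far_step {ρ : ℤ} {z w : ℤ × ℤ} (hz : Far y (ρ + 1) z) (hw : w ∈ nbrs z) : Far y ρ w := by
  have := nbrs_fst_le hw
  unfold Far at hz ⊢
  omega

lemma ne_of_Far {ρ : ℤ} (hρ : 1 ≤ ρ) {z : ℤ × ℤ} (hz : Far y ρ z) : z ≠ y := by
  rintro rfl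
  unfold Far at hz
  omega

/-- One step of the energy decay along rings. -/
lemma ring_step (hm : 1 ≤ m) {a b : ℤ} (hP : Pot m K N (a, b) u) {ρ : ℤ} (hρ : 1 ≤ ρ)
    (ha : (2 * (m : ℤ) + 1) * ρ ≤ a) (hN : a + ρ ≤ N)
    {z₀ : ℤ × ℤ} (hz₀ : z₀ ∈ Cr m N (a, b) ρ) (hz₀K : z₀ ∈ K) :
    (42 * (ρ : ℝ) + 1) * BB (Wm m) u (Sr m N (a, b) (ρ + 1)) (Sr m N (a, b) (ρ + 1)) ≤
      42 * (ρ : ℝ) * BB (Wm m) u (Sr m N (a, b) (ρ - 1)) (Sr m N (a, b) (ρ - 1)) := by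
  have hρ' : (1 : ℝ) ≤ (ρ : ℝ) := by exact_mod_cast hρ
  have hz₀' := (mem_Cr hm).1 hz₀
  have hu₀ : u z₀ = 0 := hP.zero z₀ hz₀'.1.1 hz₀K (ne_of_Far hρ hz₀'.2.1)
  refine hole_filling (Z := VN m (N + 1)) (S₀ := Sr m N (a, b) (ρ - 1)) (S₁ := Sr m N (a, b) ρ)
    (S₂ := Sr m N (a, b) (ρ + 1)) (C := Cr m N (a, b) ρ) (D := Cr m N (a, b) (ρ - 1))
    (κ := 12 * (ρ : ℝ)) (Λ := 72 * (ρ : ℝ)) (L := 42 * (ρ : ℝ))
    (Sr_sub hm) ?_ ?_ ?_ ?_ ?_ ?_ ?_ ?_ (card_Cr_le hm hρ) (by positivity) (by positivity)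
    (ring_poincare hm hρ hP.memW ha hN hz₀ hu₀) (by nlinarith)
  · intro z hz
    rw [mem_Sr hm] at hz ⊢
    exact ⟨hz.1, Far_mono (by omega) hz.2⟩
  · intro z
    rw [mem_Cr hm, mem_Sr hm, mem_Sr hm]
    tauto
  · intro z
    rw [mem_Cr hm, mem_Sr hm, mem_Sr hm, sub_add_cancel]
    tauto
  · intro z hz
    rw [mem_Sr hm] at hz ⊢
    exact ⟨hz.1, Far_mono (by omega) hz.2⟩
  · intro z hz
    exact ((mem_Sr hm).1 hz).1.1
  · intro z hz
    exact nb_sub_VN hm ((mem_Sr hm).1 hz).1.2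
  · intro z hz
    have hz' := (mem_Sr hm).1 hz
    exact hP.mul_lap hz'.1.1 (ne_of_Far hρ hz'.2)
  · intro z hz w hw hwS
    have hz' := (mem_Sr hm).1 hz
    have hw' := mem_nb.1 hw
    by_cases hzN : N ≤ z.1
    · right
      rw [hP.zeroN z hz'.1.1 hzN, zero_mul]
    · left
      have hb := nbrs_fst_le hw'.1
      have hwN : w.1 ≤ N := by omega
      have hwF : ¬ Far (a, b) ρ w := fun h => hwS ((mem_Sr hm).2 ⟨⟨hw'.2, hwN⟩, h⟩)
      rw [mem_Cr hm, mem_Cr hm, sub_add_cancel]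
      refine ⟨⟨hz'.1, hz'.2, ?_⟩, ⟨hw'.2, hwN⟩, ?_, hwF⟩
      · intro h
        exact hwF (Far_step h hw'.1)
      · have : Far (a, b) (ρ - 1 + 1) z := by rw [sub_add_cancel]; exact hz'.2
        exact Far_step this hw'.1

/-- The energy outside the pole is at most `8`. -/
lemma energy_one (hm : 1 ≤ m) (hP : Pot m K N y u) (_hyN : y.1 ≤ N) :
    BB (Wm m) u (Sr m N y 1) (Sr m N y 1) ≤ 8 := by
  classical
  have hg := green (W := Wm m) (u := u) (S := Sr m N y 1) (Z := VN m (N + 1)) (Sr_sub hm)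
    (fun z hz => ((mem_Sr hm).1 hz).1.1) (fun z hz => nb_sub_VN hm ((mem_Sr hm).1 hz).1.2)
    (fun z hz => hP.mul_lap ((mem_Sr hm).1 hz).1.1 (ne_of_Far (le_refl _) ((mem_Sr hm).1 hz).2))
  rw [hg]
  have hterm : ∀ z ∈ Sr m N y 1, ∑ w ∈ VN m (N + 1) \ Sr m N y 1,
      (if w ∈ nb (Wm m) z then u z * (u w - u z) else 0) ≤ if z ∈ nb (Wm m) y then 1 else 0 := by
    intro z hz
    have hz' := (mem_Sr hm).1 hz
    have hpt : ∀ w ∈ VN m (N + 1) \ Sr m N y 1,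
        (if w ∈ nb (Wm m) z then u z * (u w - u z) else 0) ≤
          if w = y then (if z ∈ nb (Wm m) y then 1 else 0) else 0 := by
      intro w hw
      rw [Finset.mem_sdiff, mem_VN hm] at hw
      by_cases hwz : w ∈ nb (Wm m) z
      · rw [if_pos hwz]
        by_cases hwy : w = y
        · rw [if_pos hwy, if_pos (by rw [← hwy]; exact mem_nb_symm hz'.1.1 hwz)]
          have h1 := hP.nonneg z hz'.1.1
          have h2 := hP.le_one z hz'.1.1
          have h3 := hP.le_one w hw.1.1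
          nlinarith
        · rw [if_neg hwy]
          -- then w is beyond N
          have hwN : N < w.1 := by
            by_contra h
            push Not at h
            apply hw.2
            rw [mem_Sr hm]
            refine ⟨⟨hw.1.1, h⟩, ?_⟩
            unfold Far
            by_contra hF
            apply hwy
            ext <;> omega
          rw [hP.zeroN w hw.1.1 hwN.le]
          have h1 := hP.nonneg z hz'.1.1
          nlinarith
      · rw [if_neg hwz]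
        split_ifs <;> norm_num
    refine (Finset.sum_le_sum hpt).trans ?_
    rw [Finset.sum_ite_eq']
    split_ifs <;> norm_num
  have h2 := Finset.sum_le_sum hterm
  rw [← Finset.sum_filter, Finset.sum_const, nsmul_eq_mul, mul_one] at h2
  have h3 : (((Sr m N y 1).filter (fun z => z ∈ nb (Wm m) y)).card : ℝ) ≤ 4 := by
    have h4 : (Sr m N y 1).filter (fun z => z ∈ nb (Wm m) y) ⊆ nb (Wm m) y := by
      intro z hz
      exact (Finset.mem_filter.1 hz).2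
    exact_mod_cast (Finset.card_le_card h4).trans (card_nb_le _ _)
  linarith

/-- The exponent of the energy decay. -/
noncomputable def pe : ℝ := 1 / 84

/-- Elementary inequality for the ring recursion. -/
lemma rec_ineq {k : ℕ} (hk : 1 ≤ k) :
    (84 * (k : ℝ)) * ((k : ℝ) + 1) ^ pe ≤ (84 * (k : ℝ) + 1) * (k : ℝ) ^ pe := by
  have hk' : (0 : ℝ) < k := by exact_mod_cast hk
  have h1 : ((k : ℝ) + 1) ^ pe = (k : ℝ) ^ pe * (1 + 1 / (k : ℝ)) ^ pe := by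
    rw [← Real.mul_rpow hk'.le (by positivity)]
    congr 1
    field_simp
  have h2 : (1 + 1 / (k : ℝ)) ^ pe ≤ 1 + pe * (1 / (k : ℝ)) := by
    apply rpow_one_add_le_one_add_mul_self
    · have : (0 : ℝ) ≤ 1 / (k : ℝ) := by positivity
      linarith
    · unfold pe; norm_num
    · unfold pe; norm_num
  have h3 : 0 < (k : ℝ) ^ pe := Real.rpow_pos_of_pos hk' _
  rw [h1]
  have h4 : (84 * (k : ℝ)) * (1 + pe * (1 / (k : ℝ))) = 84 * (k : ℝ) + 1 := by
    unfold pe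
    field_simp
  calc (84 * (k : ℝ)) * ((k : ℝ) ^ pe * (1 + 1 / (k : ℝ)) ^ pe)
      = (k : ℝ) ^ pe * ((84 * (k : ℝ)) * (1 + 1 / (k : ℝ)) ^ pe) := by ring
    _ ≤ (k : ℝ) ^ pe * ((84 * (k : ℝ)) * (1 + pe * (1 / (k : ℝ)))) := by
        apply mul_le_mul_of_nonneg_left _ h3.le
        exact mul_le_mul_of_nonneg_left h2 (by positivity)
    _ = (84 * (k : ℝ) + 1) * (k : ℝ) ^ pe := by rw [h4]; ring

/-- Energy decay along rings. -/
lemma ring_decay (hm : 1 ≤ m) {a b : ℤ} (hP : Pot m K N (a, b) u) (hyN : a ≤ N) (k : ℕ)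
    (ha : (2 * (m : ℤ) + 1) * (2 * k) ≤ a) (hN : a + 2 * k ≤ N)
    (hK : ∀ ρ : ℤ, 1 ≤ ρ → ρ ≤ 2 * k → ∃ z₀ ∈ Cr m N (a, b) ρ, z₀ ∈ K) :
    BB (Wm m) u (Sr m N (a, b) (2 * k + 1)) (Sr m N (a, b) (2 * k + 1)) *
      ((k : ℝ) + 1) ^ pe ≤ 8 := by
  induction k with
  | zero =>
    have := energy_one hm hP hyN
    simpa using this
  | succ k ih =>
    have ih' := ih (by push_cast at ha ⊢; nlinarith) (by push_cast at hN ⊢; linarith)
      (fun ρ h1 h2 => hK ρ h1 (by push_cast; linarith))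
    obtain ⟨z₀, hz₀, hz₀K⟩ := hK (2 * ((k + 1 : ℕ) : ℤ)) (by push_cast; omega) (le_refl _)
    have hs := ring_step hm hP (ρ := 2 * ((k + 1 : ℕ) : ℤ)) (by push_cast; omega) ha hN hz₀ hz₀K
    have e1 : (2 * ((k + 1 : ℕ) : ℤ) - 1) = 2 * (k : ℤ) + 1 := by push_cast; ring
    rw [e1] at hs
    set F1 := BB (Wm m) u (Sr m N (a, b) (2 * ((k + 1 : ℕ) : ℤ) + 1))
      (Sr m N (a, b) (2 * ((k + 1 : ℕ) : ℤ) + 1)) with hF1
    set F0 := BB (Wm m) u (Sr m N (a, b) (2 * (k : ℤ) + 1)) (Sr m N (a, b) (2 * (k : ℤ) + 1))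
      with hF0
    have hF0n : 0 ≤ F0 := BB_nonneg _ _
    have hF1n : 0 ≤ F1 := BB_nonneg _ _
    have hr := rec_ineq (k := k + 1) (by omega)
    push_cast at hs hr ⊢
    have hk0 : (0 : ℝ) < (k : ℝ) + 1 := by positivity
    have hp1 : 0 < ((k : ℝ) + 1) ^ pe := Real.rpow_pos_of_pos hk0 _
    have hp2 : 0 < ((k : ℝ) + 1 + 1) ^ pe := Real.rpow_pos_of_pos (by positivity) _
    have hA : (84 * ((k : ℝ) + 1) + 1) * F1 ≤ 84 * ((k : ℝ) + 1) * F0 := by linarith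
    have hkey : (84 * ((k : ℝ) + 1) + 1) * (F1 * ((k : ℝ) + 1 + 1) ^ pe) ≤
        (84 * ((k : ℝ) + 1) + 1) * (F0 * ((k : ℝ) + 1) ^ pe) := by
      calc (84 * ((k : ℝ) + 1) + 1) * (F1 * ((k : ℝ) + 1 + 1) ^ pe)
          = ((84 * ((k : ℝ) + 1) + 1) * F1) * ((k : ℝ) + 1 + 1) ^ pe := by ring
        _ ≤ (84 * ((k : ℝ) + 1) * F0) * ((k : ℝ) + 1 + 1) ^ pe :=
            mul_le_mul_of_nonneg_right hA hp2.le
        _ = F0 * (84 * ((k : ℝ) + 1) * ((k : ℝ) + 1 + 1) ^ pe) := by ring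
        _ ≤ F0 * ((84 * ((k : ℝ) + 1) + 1) * ((k : ℝ) + 1) ^ pe) :=
            mul_le_mul_of_nonneg_left hr hF0n
        _ = (84 * ((k : ℝ) + 1) + 1) * (F0 * ((k : ℝ) + 1) ^ pe) := by ring
    exact (le_of_mul_le_mul_left hkey (by positivity)).trans ih'

/-- Rings are disjoint: the energies on rings add up. -/
lemma ring_sum (hm : 1 ≤ m) {ρ : ℤ} (n : ℕ) :
    ∑ i ∈ Finset.range n, BB (Wm m) u (Cr m N y (ρ + i)) (Cr m N y (ρ + i)) +
      BB (Wm m) u (Sr m N y (ρ + n)) (Sr m N y (ρ + n)) ≤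
    BB (Wm m) u (Sr m N y ρ) (Sr m N y ρ) := by
  induction n with
  | zero => simp
  | succ n ih =>
    rw [Finset.sum_range_succ]
    have h := BB_three (W := Wm m) (u := u) (S₀ := Sr m N y (ρ + n)) (S₂ := Sr m N y (ρ + n + 1))
      (C := Cr m N y (ρ + n)) (D := ∅) (by
        intro z hz
        rw [mem_Sr hm] at hz ⊢
        exact ⟨hz.1, Far_mono (by omega) hz.2⟩) (by
        intro z hz
        rw [mem_Cr hm] at hz
        rw [mem_Sr hm]
        exact ⟨hz.1, hz.2.1⟩) (Finset.empty_subset _) (by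
        rw [Finset.disjoint_left]
        intro z h1 h2
        rw [mem_Sr hm] at h1
        rw [mem_Cr hm] at h2
        exact h2.2.2 h1.2) (Finset.disjoint_empty_right _) (Finset.disjoint_empty_right _)
    have e : BB (Wm m) u (Cr m N y (ρ + n)) ∅ = 0 := by unfold BB; simp
    rw [e] at h
    push_cast
    rw [← add_assoc]
    linarith

/-- Bound of the potential outside a ring. -/
lemma ring_bound (hm : 1 ≤ m) {a b : ℤ} (hP : Pot m K N (a, b) u) (hyN : a ≤ N) (k : ℕ)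
    (hk : 1 ≤ k) (ha : (2 * (m : ℤ) + 1) * (2 * k) ≤ a) (hN : a + 2 * k < N)
    (hK : ∀ ρ : ℤ, 1 ≤ ρ → ρ ≤ 2 * k → ∃ z₀ ∈ Cr m N (a, b) ρ, z₀ ∈ K) :
    ∀ z ∈ Wm m, Far (a, b) (2 * k) z → u z ^ 2 ≤ 2304 / ((k : ℝ)) ^ pe := by
  classical
  have hk' : (0 : ℝ) < k := by exact_mod_cast hk
  -- energy at radius k + 1
  set j := k / 2 with hj
  have hj2 : 2 * j ≤ k := by omega
  have hdec := ring_decay hm hP hyN j (by
      have : (j : ℤ) * 2 ≤ k := by exact_mod_cast (by omega : j * 2 ≤ k)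
      have hm' : (0 : ℤ) ≤ 2 * (m : ℤ) + 1 := by positivity
      nlinarith) (by
      have : (j : ℤ) * 2 ≤ k := by exact_mod_cast (by omega : j * 2 ≤ k)
      omega) (fun ρ h1 h2 => hK ρ h1 (by
      have : (j : ℤ) * 2 ≤ k := by exact_mod_cast (by omega : j * 2 ≤ k)
      omega))
  set F := BB (Wm m) u (Sr m N (a, b) (k + 1)) (Sr m N (a, b) (k + 1)) with hF
  have hFle : F ≤ BB (Wm m) u (Sr m N (a, b) (2 * j + 1)) (Sr m N (a, b) (2 * j + 1)) := by
    have hsub : Sr m N (a, b) (k + 1) ⊆ Sr m N (a, b) (2 * j + 1) := by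
      intro z hz
      rw [mem_Sr hm] at hz ⊢
      refine ⟨hz.1, Far_mono ?_ hz.2⟩
      have : (2 * (j : ℤ)) ≤ k := by exact_mod_cast hj2
      omega
    exact BB_mono hsub hsub
  have hFn : 0 ≤ F := BB_nonneg _ _
  have hFpe : F * (k : ℝ) ^ pe ≤ 16 := by
    have h1 : (k : ℝ) ≤ 2 * ((j : ℝ) + 1) := by
      have : k ≤ 2 * (j + 1) := by omega
      exact_mod_cast this
    have h2 : (k : ℝ) ^ pe ≤ (2 * ((j : ℝ) + 1)) ^ pe :=
      Real.rpow_le_rpow hk'.le h1 (by unfold pe; norm_num)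
    have h3 : (2 * ((j : ℝ) + 1)) ^ pe = 2 ^ pe * ((j : ℝ) + 1) ^ pe :=
      Real.mul_rpow (by norm_num) (by positivity)
    have h4 : (2 : ℝ) ^ pe ≤ 2 := by
      calc (2 : ℝ) ^ pe ≤ 2 ^ (1 : ℝ) :=
            Real.rpow_le_rpow_of_exponent_le (by norm_num) (by unfold pe; norm_num)
        _ = 2 := Real.rpow_one 2
    have h5 : 0 ≤ ((j : ℝ) + 1) ^ pe := by positivity
    calc F * (k : ℝ) ^ pe ≤ F * (2 ^ pe * ((j : ℝ) + 1) ^ pe) := by
          rw [← h3]; exact mul_le_mul_of_nonneg_left h2 hFn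
      _ ≤ F * (2 * ((j : ℝ) + 1) ^ pe) := by
          apply mul_le_mul_of_nonneg_left _ hFn
          exact mul_le_mul_of_nonneg_right h4 h5
      _ = 2 * (F * ((j : ℝ) + 1) ^ pe) := by ring
      _ ≤ 2 * (BB (Wm m) u (Sr m N (a, b) (2 * j + 1)) (Sr m N (a, b) (2 * j + 1)) *
            ((j : ℝ) + 1) ^ pe) := by
          apply mul_le_mul_of_nonneg_left _ (by norm_num)
          exact mul_le_mul_of_nonneg_right hFle h5
      _ ≤ 16 := by linarith
  -- choose a ring with small energy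
  have hsum := ring_sum (u := u) (N := N) (y := (a, b)) hm (ρ := (k : ℤ) + 1) k
  have hS0 : 0 ≤ BB (Wm m) u (Sr m N (a, b) ((k : ℤ) + 1 + k)) (Sr m N (a, b) ((k : ℤ) + 1 + k)) :=
    BB_nonneg _ _
  obtain ⟨i, hi, hile⟩ : ∃ i ∈ Finset.range k,
      BB (Wm m) u (Cr m N (a, b) ((k : ℤ) + 1 + i)) (Cr m N (a, b) ((k : ℤ) + 1 + i)) ≤ F / k := by
    by_contra hcon
    push Not at hcon
    have h1 : ∑ _i ∈ Finset.range k, F / k <
        ∑ i ∈ Finset.range k,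
          BB (Wm m) u (Cr m N (a, b) ((k : ℤ) + 1 + i)) (Cr m N (a, b) ((k : ℤ) + 1 + i)) :=
      Finset.sum_lt_sum_of_nonempty (by rw [Finset.nonempty_range_iff]; omega)
        (fun i hi => hcon i hi)
    rw [Finset.sum_const, Finset.card_range, nsmul_eq_mul, mul_div_cancel₀ _ hk'.ne'] at h1
    linarith
  rw [Finset.mem_range] at hi
  set ρ : ℤ := (k : ℤ) + 1 + i with hρ
  have hiZ : (i : ℤ) + 1 ≤ k := by exact_mod_cast hi
  have hρ1 : 1 ≤ ρ := by omega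
  have hρ2 : ρ ≤ 2 * k := by omega
  have hρr : (ρ : ℝ) ≤ 2 * k := by exact_mod_cast hρ2
  obtain ⟨z₀, hz₀, hz₀K⟩ := hK ρ hρ1 hρ2
  have hz₀' := (mem_Cr hm).1 hz₀
  have hu₀ : u z₀ = 0 := hP.zero z₀ hz₀'.1.1 hz₀K (ne_of_Far hρ1 hz₀'.2.1)
  have haρ : (2 * (m : ℤ) + 1) * ρ ≤ a := by
    have hm' : (0 : ℤ) ≤ 2 * (m : ℤ) + 1 := by positivity
    nlinarith
  have hpo := ring_poincare (u := u) hm hρ1 hP.memW haρ (by omega) hz₀ hu₀
  have hkp : 0 < (k : ℝ) ^ pe := Real.rpow_pos_of_pos hk' _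
  have hFk : F ≤ 16 / (k : ℝ) ^ pe := by rw [le_div_iff₀ hkp]; exact hFpe
  have hring : ∀ z ∈ Cr m N (a, b) ρ, u z ^ 2 ≤ 2304 / (k : ℝ) ^ pe := by
    intro z hz
    refine (hpo z hz).trans ?_
    have h1 : 0 ≤ F / k := by positivity
    calc 72 * (ρ : ℝ) * BB (Wm m) u (Cr m N (a, b) ρ) (Cr m N (a, b) ρ)
        ≤ 72 * (ρ : ℝ) * (F / k) := by
          apply mul_le_mul_of_nonneg_left hile
          have : (0 : ℝ) ≤ ρ := by exact_mod_cast (by omega : 0 ≤ ρ)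
          positivity
      _ ≤ 72 * (2 * (k : ℝ)) * (F / k) := by
          apply mul_le_mul_of_nonneg_right _ h1
          linarith
      _ = 144 * F := by field_simp; ring
      _ ≤ 144 * (16 / (k : ℝ) ^ pe) := by linarith
      _ = 2304 / (k : ℝ) ^ pe := by ring
  have hMn : 0 ≤ 2304 / (k : ℝ) ^ pe := by positivity
  have hmax := hP.max_principle (Q := {z | Far (a, b) ρ z}) (M := Real.sqrt (2304 / (k : ℝ) ^ pe))
    (Real.sqrt_nonneg _) (by
      intro h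
      exact ne_of_Far hρ1 h rfl) (by
      rintro z hz hzF ⟨w, hw, hwF⟩
      by_cases hzN : N ≤ z.1
      · rw [hP.zeroN z hz hzN]
        exact Real.sqrt_nonneg _
      · apply Real.le_sqrt_of_sq_le
        apply hring
        rw [mem_Cr hm]
        refine ⟨⟨hz, by omega⟩, hzF, ?_⟩
        intro h
        exact hwF (Far_step h (mem_nb.1 hw).1))
  intro z hz hzF
  have h1 := hmax z hz (Far_mono hρ2 hzF)
  have h2 := hP.nonneg z hz
  calc u z ^ 2 ≤ (Real.sqrt (2304 / (k : ℝ) ^ pe)) ^ 2 := by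
        apply pow_le_pow_left₀ h2 h1
    _ = 2304 / (k : ℝ) ^ pe := Real.sq_sqrt hMn

end Pool.Agent.Lib.MP_cfc8f6_pr
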