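import Mathlib
import Pool.Agent.Lib.MP_cfc8f6_pr.Decay

/-!
Decay of the energy along columns and the final bound on a potential far from its pole.
-/

open Filter Topology Finset

namespace Pool.Agent.Lib.MP_cfc8f6_pr

variable {u : ℤ × ℤ → ℝ} {m : ℕ} {K : Set (ℤ × ℤ)} {N : ℤ} {y : ℤ × ℤ}

/-- Points of the wedge with `j ≤ x ≤ N`. -/
noncomputable def Sc (m : ℕ) (N j : ℤ) : Finset (ℤ × ℤ) := (VN m N).filter (fun z => j ≤ z.1)

/-- Points of the wedge with `x = j ≤ N`. -/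
noncomputable def Cc (m : ℕ) (N j : ℤ) : Finset (ℤ × ℤ) := (VN m N).filter (fun z => z.1 = j)

lemma mem_Sc (hm : 1 ≤ m) {j : ℤ} {z : ℤ × ℤ} :
    z ∈ Sc m N j ↔ (z ∈ Wm m ∧ z.1 ≤ N) ∧ j ≤ z.1 := by
  unfold Sc
  rw [Finset.mem_filter, mem_VN hm]

lemma mem_Cc (hm : 1 ≤ m) {j : ℤ} {z : ℤ × ℤ} :
    z ∈ Cc m N j ↔ (z ∈ Wm m ∧ z.1 ≤ N) ∧ z.1 = j := by
  unfold Cc
  rw [Finset.mem_filter, mem_VN hm]

lemma card_Cc_le (hm : 1 ≤ m) {j : ℤ} (hj : 0 ≤ j) : ((Cc m N j).card : ℝ) ≤ (j : ℝ) + 1 := by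
  classical
  have hsub : Cc m N j ⊆ ({j} : Finset ℤ) ×ˢ (Finset.Icc 0 j) := by
    intro z hz
    have h := (mem_Cc hm).1 hz
    have h1 := Wm_snd_le_fst hm h.1.1
    have h2 := (mem_Wm.1 h.1.1).1
    rw [Finset.mem_product, Finset.mem_singleton, Finset.mem_Icc]
    exact ⟨h.2, h2, by omega⟩
  have h1 := Finset.card_le_card hsub
  rw [Finset.card_product, Finset.card_singleton, one_mul, Int.card_Icc] at h1
  have h2 : (((j + 1 - 0).toNat : ℤ)) = j + 1 := by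
    rw [Int.toNat_of_nonneg (by omega)]; ring
  have h3 : ((Cc m N j).card : ℤ) ≤ j + 1 := by
    rw [← h2]; exact_mod_cast h1
  exact_mod_cast h3

lemma col_poincare (hm : 1 ≤ m) {j : ℤ} {z₀ : ℤ × ℤ} (hz₀ : z₀ ∈ Cc m N j) (hu₀ : u z₀ = 0) :
    ∀ z ∈ Cc m N j, u z ^ 2 ≤ (j : ℝ) * BB (Wm m) u (Cc m N j) (Cc m N j) := by
  intro z hz
  have hz' := (mem_Cc hm).1 hz
  have hz₀' := (mem_Cc hm).1 hz₀
  have hCW : ∀ w ∈ Cc m N j, w ∈ Wm m := fun w hw => ((mem_Cc hm).1 hw).1.1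
  have h1 := Wm_snd_le_fst hm hz'.1.1
  have h2 := (mem_Wm.1 hz'.1.1)
  have h3 := Wm_snd_le_fst hm hz₀'.1.1
  have h4 := (mem_Wm.1 hz₀'.1.1)
  have hq := BB_nonneg (W := Wm m) (u := u) (Cc m N j) (Cc m N j)
  obtain ⟨x, t⟩ := z
  obtain ⟨x₀, t₀⟩ := z₀
  simp only at hz' hz₀' h1 h2 h3 h4
  obtain ⟨⟨_, hxN⟩, rfl⟩ := hz'
  obtain ⟨⟨_, _⟩, rfl⟩ := hz₀'
  rcases le_total t t₀ with h | h
  · have := seg_v (u := u) (x := x₀) h hCW (by
      intro s hs1 hs2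
      rw [mem_Cc hm]
      exact ⟨⟨memWm_of_le (by omega) hs2 h4.2 (le_refl _), hxN⟩, rfl⟩)
    rw [hu₀, sub_zero] at this
    refine this.trans ?_
    apply mul_le_mul_of_nonneg_right _ hq
    exact_mod_cast (by omega : t₀ - t ≤ x₀)
  · have := seg_v (u := u) (x := x₀) h hCW (by
      intro s hs1 hs2
      rw [mem_Cc hm]
      exact ⟨⟨memWm_of_le (by omega) hs2 h2.2 (le_refl _), hxN⟩, rfl⟩)
    rw [hu₀, zero_sub, neg_sq] at this
    refine this.trans ?_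
    apply mul_le_mul_of_nonneg_right _ hq
    exact_mod_cast (by omega : t - t₀ ≤ x₀)

lemma col_step (hm : 1 ≤ m) (hP : Pot m K N y u) {j : ℤ} (hj : y.1 < j)
    {z₀ : ℤ × ℤ} (hz₀ : z₀ ∈ Cc m N j) (hz₀K : z₀ ∈ K) :
    (3 / 2 * ((j : ℝ) + 1) + 1) * BB (Wm m) u (Sc m N (j + 1)) (Sc m N (j + 1)) ≤
      3 / 2 * ((j : ℝ) + 1) * BB (Wm m) u (Sc m N (j - 1)) (Sc m N (j - 1)) := by
  have hy0 : 0 ≤ y.1 := Wm_fst_nonneg hP.memW
  have hj0 : 0 ≤ j := by omega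
  have hj' : (0 : ℝ) ≤ (j : ℝ) := by exact_mod_cast hj0
  have hz₀' := (mem_Cc hm).1 hz₀
  have hne : ∀ z : ℤ × ℤ, j ≤ z.1 → z ≠ y := by
    rintro z h rfl
    omega
  have hu₀ : u z₀ = 0 := hP.zero z₀ hz₀'.1.1 hz₀K (hne z₀ (by omega))
  refine hole_filling (Z := VN m (N + 1)) (S₀ := Sc m N (j - 1)) (S₁ := Sc m N j)
    (S₂ := Sc m N (j + 1)) (C := Cc m N j) (D := Cc m N (j - 1))
    (κ := (j : ℝ) + 1) (Λ := (j : ℝ)) (L := 3 / 2 * ((j : ℝ) + 1))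
    ?_ ?_ ?_ ?_ ?_ ?_ ?_ ?_ ?_ (card_Cc_le hm hj0) hj' (by positivity)
    (col_poincare hm hz₀ hu₀) (by nlinarith)
  · intro z hz
    rw [mem_Sc hm] at hz
    rw [mem_VN hm]
    exact ⟨hz.1.1, by omega⟩
  · intro z hz
    rw [mem_Sc hm] at hz ⊢
    exact ⟨hz.1, by omega⟩
  · intro z
    rw [mem_Cc hm, mem_Sc hm, mem_Sc hm]
    constructor
    · rintro ⟨h1, h2⟩
      exact ⟨⟨h1, by omega⟩, fun h => by omega⟩
    · rintro ⟨⟨h1, h2⟩, h3⟩
      refine ⟨h1, ?_⟩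
      by_contra h
      exact h3 ⟨h1, by omega⟩
  · intro z
    rw [mem_Cc hm, mem_Sc hm, mem_Sc hm]
    constructor
    · rintro ⟨h1, h2⟩
      exact ⟨⟨h1, by omega⟩, fun h => by omega⟩
    · rintro ⟨⟨h1, h2⟩, h3⟩
      refine ⟨h1, ?_⟩
      by_contra h
      exact h3 ⟨h1, by omega⟩
  · intro z hz
    rw [mem_Sc hm] at hz ⊢
    exact ⟨hz.1, by omega⟩
  · intro z hz
    exact ((mem_Sc hm).1 hz).1.1
  · intro z hz
    exact nb_sub_VN hm ((mem_Sc hm).1 hz).1.2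
  · intro z hz
    have hz' := (mem_Sc hm).1 hz
    exact hP.mul_lap hz'.1.1 (hne z hz'.2)
  · intro z hz w hw hwS
    have hz' := (mem_Sc hm).1 hz
    have hw' := mem_nb.1 hw
    by_cases hzN : N ≤ z.1
    · right
      rw [hP.zeroN z hz'.1.1 hzN, zero_mul]
    · left
      have hb := nbrs_fst_le hw'.1
      have hwj : ¬ j ≤ w.1 := fun h => hwS ((mem_Sc hm).2 ⟨⟨hw'.2, by omega⟩, h⟩)
      rw [mem_Cc hm, mem_Cc hm]
      exact ⟨⟨hz'.1, by omega⟩, ⟨hw'.2, by omega⟩, by omega⟩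

/-- Elementary inequality for the column recursion. -/
lemma col_rec_ineq {j : ℝ} (hj : 1 ≤ j) :
    (3 / 2 * (j + 1)) * (j + 2) ^ pe ≤ (3 / 2 * (j + 1) + 1) * j ^ pe := by
  have hj0 : (0 : ℝ) < j := by linarith
  have h1 : (j + 2) ^ pe = j ^ pe * (1 + 2 / j) ^ pe := by
    rw [← Real.mul_rpow hj0.le (by positivity)]
    congr 1
    field_simp
  have h2 : (1 + 2 / j) ^ pe ≤ 1 + pe * (2 / j) := by
    apply rpow_one_add_le_one_add_mul_self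
    · have : (0 : ℝ) ≤ 2 / j := by positivity
      linarith
    · unfold pe; norm_num
    · unfold pe; norm_num
  have h3 : 0 < j ^ pe := Real.rpow_pos_of_pos hj0 _
  have h4 : (3 / 2 * (j + 1)) * (1 + pe * (2 / j)) ≤ 3 / 2 * (j + 1) + 1 := by
    have h5 : (3 / 2 * (j + 1)) * (pe * (2 / j)) ≤ 1 := by
      have : (3 / 2 * (j + 1)) * (pe * (2 / j)) = (3 * pe * (j + 1)) / j := by
        field_simp
      rw [this, div_le_one hj0]
      unfold pe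
      linarith
    linarith
  rw [h1]
  calc (3 / 2 * (j + 1)) * (j ^ pe * (1 + 2 / j) ^ pe)
      = j ^ pe * ((3 / 2 * (j + 1)) * (1 + 2 / j) ^ pe) := by ring
    _ ≤ j ^ pe * ((3 / 2 * (j + 1)) * (1 + pe * (2 / j))) := by
        apply mul_le_mul_of_nonneg_left _ h3.le
        exact mul_le_mul_of_nonneg_left h2 (by positivity)
    _ ≤ j ^ pe * (3 / 2 * (j + 1) + 1) := mul_le_mul_of_nonneg_left h4 h3.le
    _ = (3 / 2 * (j + 1) + 1) * j ^ pe := by ring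

/-- Energy decay along columns. -/
lemma col_decay (hm : 1 ≤ m) (hP : Pot m K N y u) {j₀ : ℤ} (hj₀ : y.1 ≤ j₀) (n : ℕ)
    (hK : ∀ j : ℤ, j₀ < j → j ≤ j₀ + 2 * n → ∃ z₀ ∈ Cc m N j, z₀ ∈ K) :
    BB (Wm m) u (Sc m N (j₀ + 2 * n)) (Sc m N (j₀ + 2 * n)) *
      ((j₀ : ℝ) + 2 * n + 1) ^ pe ≤
    BB (Wm m) u (Sc m N j₀) (Sc m N j₀) * ((j₀ : ℝ) + 1) ^ pe := by
  have hy0 : 0 ≤ y.1 := Wm_fst_nonneg hP.memW
  have hj₀' : (0 : ℝ) ≤ (j₀ : ℝ) := by exact_mod_cast (by omega : (0 : ℤ) ≤ j₀)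
  induction n with
  | zero => simp
  | succ n ih =>
    have ih' := ih (fun j h1 h2 => hK j h1 (by push_cast; linarith))
    obtain ⟨z₀, hz₀, hz₀K⟩ := hK (j₀ + 2 * n + 1) (by omega) (by push_cast; omega)
    have hs := col_step hm hP (j := j₀ + 2 * n + 1) (by omega) hz₀ hz₀K
    have e1 : j₀ + 2 * (n : ℤ) + 1 + 1 = j₀ + 2 * ((n + 1 : ℕ) : ℤ) := by push_cast; ring
    have e2 : j₀ + 2 * (n : ℤ) + 1 - 1 = j₀ + 2 * (n : ℤ) := by ring
    rw [e1, e2] at hs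
    set F1 := BB (Wm m) u (Sc m N (j₀ + 2 * ((n + 1 : ℕ) : ℤ))) (Sc m N (j₀ + 2 * ((n + 1 : ℕ) : ℤ)))
      with hF1
    set F0 := BB (Wm m) u (Sc m N (j₀ + 2 * (n : ℤ))) (Sc m N (j₀ + 2 * (n : ℤ))) with hF0
    have hF0n : 0 ≤ F0 := BB_nonneg _ _
    have hr := col_rec_ineq (j := (j₀ : ℝ) + 2 * n + 1) (by
      have : (0 : ℝ) ≤ n := Nat.cast_nonneg n
      linarith)
    push_cast at hs ⊢
    have hpos : (0 : ℝ) < (j₀ : ℝ) + 2 * n + 1 := by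
      have : (0 : ℝ) ≤ n := Nat.cast_nonneg n
      linarith
    have e3 : (j₀ : ℝ) + 2 * ((n : ℝ) + 1) + 1 = (j₀ : ℝ) + 2 * n + 1 + 2 := by ring
    rw [e3]
    set J : ℝ := (j₀ : ℝ) + 2 * n + 1 with hJ
    have hp2 : 0 < (J + 2) ^ pe := Real.rpow_pos_of_pos (by positivity) _
    have hkey : (3 / 2 * (J + 1) + 1) * (F1 * (J + 2) ^ pe) ≤
        (3 / 2 * (J + 1) + 1) * (F0 * J ^ pe) := by
      calc (3 / 2 * (J + 1) + 1) * (F1 * (J + 2) ^ pe)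
          = ((3 / 2 * (J + 1) + 1) * F1) * (J + 2) ^ pe := by ring
        _ ≤ (3 / 2 * (J + 1) * F0) * (J + 2) ^ pe := mul_le_mul_of_nonneg_right hs hp2.le
        _ = F0 * (3 / 2 * (J + 1) * (J + 2) ^ pe) := by ring
        _ ≤ F0 * ((3 / 2 * (J + 1) + 1) * J ^ pe) := mul_le_mul_of_nonneg_left hr hF0n
        _ = (3 / 2 * (J + 1) + 1) * (F0 * J ^ pe) := by ring
    exact (le_of_mul_le_mul_left hkey (by positivity)).trans ih'

lemma col_sum (hm : 1 ≤ m) {j : ℤ} (n : ℕ) :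
    ∑ i ∈ Finset.range n, BB (Wm m) u (Cc m N (j + i)) (Cc m N (j + i)) +
      BB (Wm m) u (Sc m N (j + n)) (Sc m N (j + n)) ≤
    BB (Wm m) u (Sc m N j) (Sc m N j) := by
  induction n with
  | zero => simp
  | succ n ih =>
    rw [Finset.sum_range_succ]
    have h := BB_three (W := Wm m) (u := u) (S₀ := Sc m N (j + n)) (S₂ := Sc m N (j + n + 1))
      (C := Cc m N (j + n)) (D := ∅) (by
        intro z hz
        rw [mem_Sc hm] at hz ⊢
        exact ⟨hz.1, by omega⟩) (by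
        intro z hz
        rw [mem_Cc hm] at hz
        rw [mem_Sc hm]
        exact ⟨hz.1, by omega⟩) (Finset.empty_subset _) (by
        rw [Finset.disjoint_left]
        intro z h1 h2
        rw [mem_Sc hm] at h1
        rw [mem_Cc hm] at h2
        omega) (Finset.disjoint_empty_right _) (Finset.disjoint_empty_right _)
    have e : BB (Wm m) u (Cc m N (j + n)) ∅ = 0 := by unfold BB; simp
    rw [e] at h
    push_cast
    rw [← add_assoc]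
    linarith

/-- Bound of the potential beyond column `R` when the pole is far from column `R`. -/
lemma col_bound (hm : 1 ≤ m) {a b : ℤ} (hP : Pot m K N (a, b) u) (R : ℕ) (hR : 6 ≤ R)
    (haR : 4 * a < R) (hN : (R : ℤ) < N)
    (hKr : ∀ ρ : ℤ, 1 ≤ ρ → ρ ≤ a → a + ρ ≤ N → ∃ z₀ ∈ Cr m N (a, b) ρ, z₀ ∈ K)
    (hKc : ∀ j : ℤ, a < j → j ≤ R → ∃ z₀ ∈ Cc m N j, z₀ ∈ K) :
    ∀ z ∈ Wm m, (R : ℤ) ≤ z.1 → u z ^ 2 ≤ 16 * ((8 * ((m : ℝ) + 1)) / R) ^ pe := by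
  classical
  have ha0 : 0 ≤ a := Wm_fst_nonneg hP.memW
  have hR0 : (0 : ℝ) < R := by exact_mod_cast (by omega : 0 < R)
  have hm' : (1 : ℤ) ≤ m := by exact_mod_cast hm
  -- the ring part
  obtain ⟨k, hk⟩ : ∃ k : ℕ, (k : ℤ) = a / (2 * (2 * (m : ℤ) + 1)) :=
    ⟨(a / (2 * (2 * (m : ℤ) + 1))).toNat, Int.toNat_of_nonneg (Int.ediv_nonneg ha0 (by positivity))⟩
  have hMpos : (0 : ℤ) < 2 * (2 * (m : ℤ) + 1) := by positivity
  have hk1 : (2 * (m : ℤ) + 1) * (2 * k) ≤ a := by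
    have := Int.ediv_mul_le a hMpos.ne'
    rw [← hk] at this
    linarith
  have hk2 : a < 2 * (2 * (m : ℤ) + 1) * (k + 1) := by
    have := Int.lt_ediv_add_one_mul_self a hMpos
    rw [← hk] at this
    linarith
  have hk3 : 3 * (2 * (k : ℤ)) ≤ a := by nlinarith
  have hdec := ring_decay hm hP (by omega) k hk1 (by omega)
    (fun ρ h1 h2 => hKr ρ h1 (by omega) (by omega))
  set j₀ : ℤ := a + 2 * k + 1 with hj₀
  have hQ0 : BB (Wm m) u (Sc m N j₀) (Sc m N j₀) ≤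
      BB (Wm m) u (Sr m N (a, b) (2 * k + 1)) (Sr m N (a, b) (2 * k + 1)) := by
    have hsub : Sc m N j₀ ⊆ Sr m N (a, b) (2 * k + 1) := by
      intro z hz
      rw [mem_Sc hm] at hz
      rw [mem_Sr hm]
      refine ⟨hz.1, ?_⟩
      unfold Far
      simp only
      omega
    exact BB_mono hsub hsub
  have hkpos : (0 : ℝ) < (k : ℝ) + 1 := by positivity
  have hkp : 0 < ((k : ℝ) + 1) ^ pe := Real.rpow_pos_of_pos hkpos _
  -- the column part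
  set r : ℕ := R / 2 with hr
  have hr1 : 2 * r ≤ R := by omega
  have hr2 : R ≤ 2 * r + 1 := by omega
  have hj₀r : j₀ ≤ (r : ℤ) + 1 := by omega
  obtain ⟨n, hn⟩ : ∃ n : ℕ, (n : ℤ) = ((r : ℤ) + 1 - j₀) / 2 :=
    ⟨(((r : ℤ) + 1 - j₀) / 2).toNat, Int.toNat_of_nonneg (by omega)⟩
  have hn1 : j₀ + 2 * n ≤ r + 1 := by omega
  have hn2 : (r : ℤ) + 1 ≤ j₀ + 2 * n + 1 := by omega
  have hcd := col_decay hm hP (j₀ := j₀) (by simp only; omega) n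
    (fun j h1 h2 => hKc j (by omega) (by omega))
  have hQr : BB (Wm m) u (Sc m N ((r : ℤ) + 1)) (Sc m N ((r : ℤ) + 1)) ≤
      BB (Wm m) u (Sc m N (j₀ + 2 * n)) (Sc m N (j₀ + 2 * n)) := by
    have hsub : Sc m N ((r : ℤ) + 1) ⊆ Sc m N (j₀ + 2 * n) := by
      intro z hz
      rw [mem_Sc hm] at hz ⊢
      exact ⟨hz.1, by omega⟩
    exact BB_mono hsub hsub
  set Q := BB (Wm m) u (Sc m N ((r : ℤ) + 1)) (Sc m N ((r : ℤ) + 1)) with hQ
  set Q₀ := BB (Wm m) u (Sc m N j₀) (Sc m N j₀) with hQ₀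
  have hQn : 0 ≤ Q := BB_nonneg _ _
  have hQ₀n : 0 ≤ Q₀ := BB_nonneg _ _
  have hrpos : (0 : ℝ) < (r : ℝ) + 1 := by positivity
  have hmpos : (0 : ℝ) < 4 * ((m : ℝ) + 1) := by positivity
  have hQbound : Q * ((r : ℝ) + 1) ^ pe ≤ 8 * (4 * ((m : ℝ) + 1)) ^ pe := by
    have h1 : ((r : ℝ) + 1) ^ pe ≤ ((j₀ : ℝ) + 2 * n + 1) ^ pe := by
      apply Real.rpow_le_rpow hrpos.le _ (by unfold pe; norm_num)
      exact_mod_cast hn2
    have h2 : ((j₀ : ℝ) + 1) ^ pe ≤ (4 * ((m : ℝ) + 1)) ^ pe * ((k : ℝ) + 1) ^ pe := by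
      rw [← Real.mul_rpow hmpos.le hkpos.le]
      apply Real.rpow_le_rpow _ _ (by unfold pe; norm_num)
      · exact_mod_cast (by omega : (0 : ℤ) ≤ j₀ + 1)
      · have : j₀ + 1 ≤ 4 * ((m : ℤ) + 1) * (k + 1) := by nlinarith
        exact_mod_cast this
    have h3 : 0 ≤ ((j₀ : ℝ) + 2 * n + 1) ^ pe := by
      apply Real.rpow_nonneg
      have : (0 : ℤ) ≤ j₀ + 2 * n + 1 := by omega
      exact_mod_cast this
    have h4 : 0 < (4 * ((m : ℝ) + 1)) ^ pe := Real.rpow_pos_of_pos hmpos _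
    calc Q * ((r : ℝ) + 1) ^ pe ≤ Q * ((j₀ : ℝ) + 2 * n + 1) ^ pe :=
          mul_le_mul_of_nonneg_left h1 hQn
      _ ≤ BB (Wm m) u (Sc m N (j₀ + 2 * n)) (Sc m N (j₀ + 2 * n)) *
            ((j₀ : ℝ) + 2 * n + 1) ^ pe := mul_le_mul_of_nonneg_right hQr h3
      _ ≤ Q₀ * ((j₀ : ℝ) + 1) ^ pe := hcd
      _ ≤ Q₀ * ((4 * ((m : ℝ) + 1)) ^ pe * ((k : ℝ) + 1) ^ pe) :=
          mul_le_mul_of_nonneg_left h2 hQ₀n
      _ = (4 * ((m : ℝ) + 1)) ^ pe * (Q₀ * ((k : ℝ) + 1) ^ pe) := by ring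
      _ ≤ (4 * ((m : ℝ) + 1)) ^ pe *
            (BB (Wm m) u (Sr m N (a, b) (2 * k + 1)) (Sr m N (a, b) (2 * k + 1)) *
              ((k : ℝ) + 1) ^ pe) := by
          apply mul_le_mul_of_nonneg_left _ h4.le
          exact mul_le_mul_of_nonneg_right hQ0 hkp.le
      _ ≤ (4 * ((m : ℝ) + 1)) ^ pe * 8 := mul_le_mul_of_nonneg_left hdec h4.le
      _ = 8 * (4 * ((m : ℝ) + 1)) ^ pe := by ring
  have hQfinal : Q ≤ 8 * ((8 * ((m : ℝ) + 1)) / R) ^ pe := by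
    have h1 : 0 < ((r : ℝ) + 1) ^ pe := Real.rpow_pos_of_pos hrpos _
    have h2 : Q ≤ 8 * (4 * ((m : ℝ) + 1)) ^ pe / ((r : ℝ) + 1) ^ pe := by
      rw [le_div_iff₀ h1]; exact hQbound
    refine h2.trans ?_
    rw [mul_div_assoc, ← Real.div_rpow hmpos.le hrpos.le]
    apply mul_le_mul_of_nonneg_left _ (by norm_num)
    apply Real.rpow_le_rpow (by positivity) _ (by unfold pe; norm_num)
    rw [div_le_div_iff₀ hrpos hR0]
    have : (R : ℝ) ≤ 2 * ((r : ℝ) + 1) := by exact_mod_cast (by omega : R ≤ 2 * (r + 1))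
    nlinarith
  -- choose a column
  obtain ⟨l, hl⟩ : ∃ l : ℕ, r + l = R := ⟨R - r, by omega⟩
  have hl1 : 1 ≤ l := by omega
  have hl2 : R ≤ 2 * l := by omega
  have hl0 : (0 : ℝ) < l := by exact_mod_cast hl1
  have hsum := col_sum (u := u) (N := N) hm (j := (r : ℤ) + 1) l
  have hS0 : 0 ≤ BB (Wm m) u (Sc m N ((r : ℤ) + 1 + l)) (Sc m N ((r : ℤ) + 1 + l)) :=
    BB_nonneg _ _
  obtain ⟨i, hi, hile⟩ : ∃ i ∈ Finset.range l,
      BB (Wm m) u (Cc m N ((r : ℤ) + 1 + i)) (Cc m N ((r : ℤ) + 1 + i)) ≤ Q / l := by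
    by_contra hcon
    push Not at hcon
    have h1 : ∑ _i ∈ Finset.range l, Q / l <
        ∑ i ∈ Finset.range l,
          BB (Wm m) u (Cc m N ((r : ℤ) + 1 + i)) (Cc m N ((r : ℤ) + 1 + i)) :=
      Finset.sum_lt_sum_of_nonempty (by rw [Finset.nonempty_range_iff]; omega)
        (fun i hi => hcon i hi)
    rw [Finset.sum_const, Finset.card_range, nsmul_eq_mul, mul_div_cancel₀ _ hl0.ne'] at h1
    linarith
  rw [Finset.mem_range] at hi
  set j : ℤ := (r : ℤ) + 1 + i with hj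
  have hj1 : a < j := by omega
  have hj2 : j ≤ R := by omega
  obtain ⟨z₀, hz₀, hz₀K⟩ := hKc j hj1 hj2
  have hz₀' := (mem_Cc hm).1 hz₀
  have hne : ∀ z : ℤ × ℤ, j ≤ z.1 → z ≠ (a, b) := by
    rintro z h rfl
    simp only at h
    omega
  have hu₀ : u z₀ = 0 := hP.zero z₀ hz₀'.1.1 hz₀K (hne z₀ (by omega))
  have hpo := col_poincare (u := u) hm hz₀ hu₀
  have hcol : ∀ z ∈ Cc m N j, u z ^ 2 ≤ 16 * ((8 * ((m : ℝ) + 1)) / R) ^ pe := by
    intro z hz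
    refine (hpo z hz).trans ?_
    have hjR : (j : ℝ) ≤ R := by exact_mod_cast hj2
    have hj0 : (0 : ℝ) ≤ j := by exact_mod_cast (by omega : 0 ≤ j)
    have h1 : 0 ≤ Q / l := by positivity
    have h2 : (R : ℝ) ≤ 2 * l := by exact_mod_cast hl2
    calc (j : ℝ) * BB (Wm m) u (Cc m N j) (Cc m N j) ≤ (j : ℝ) * (Q / l) :=
          mul_le_mul_of_nonneg_left hile hj0
      _ ≤ (2 * l) * (Q / l) := mul_le_mul_of_nonneg_right (hjR.trans h2) h1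
      _ = 2 * Q := by field_simp
      _ ≤ 2 * (8 * ((8 * ((m : ℝ) + 1)) / R) ^ pe) := by linarith
      _ = 16 * ((8 * ((m : ℝ) + 1)) / R) ^ pe := by ring
  have hBn : 0 ≤ 16 * ((8 * ((m : ℝ) + 1)) / R) ^ pe := by positivity
  have hmax := hP.max_principle (Q := {z | j ≤ z.1})
    (M := Real.sqrt (16 * ((8 * ((m : ℝ) + 1)) / R) ^ pe))
    (Real.sqrt_nonneg _) (by
      intro h
      simp only [Set.mem_setOf_eq] at h
      omega) (by
      rintro z hz hzF ⟨w, hw, hwF⟩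
      simp only [Set.mem_setOf_eq] at hzF hwF
      have hb := nbrs_fst_le (mem_nb.1 hw).1
      apply Real.le_sqrt_of_sq_le
      apply hcol
      rw [mem_Cc hm]
      exact ⟨⟨hz, by omega⟩, by omega⟩)
  intro z hz hzR
  have h1 := hmax z hz (by simp only [Set.mem_setOf_eq]; omega)
  have h2 := hP.nonneg z hz
  calc u z ^ 2 ≤ (Real.sqrt (16 * ((8 * ((m : ℝ) + 1)) / R) ^ pe)) ^ 2 :=
        pow_le_pow_left₀ h2 h1 2
    _ = 16 * ((8 * ((m : ℝ) + 1)) / R) ^ pe := Real.sq_sqrt hBn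

/-- Final bound on the potential far away. -/
theorem pot_bound (hm : 1 ≤ m) {a b : ℤ} (hP : Pot m K N (a, b) u) (R : ℕ) (hR : 1 ≤ R)
    (hN : 2 * a + R < N)
    (hKr : ∀ ρ : ℤ, 1 ≤ ρ → ρ ≤ a → a + ρ ≤ N → ∃ z₀ ∈ Cr m N (a, b) ρ, z₀ ∈ K)
    (hKc : ∀ j : ℤ, a < j → j ≤ R → ∃ z₀ ∈ Cc m N j, z₀ ∈ K) :
    ∀ z ∈ Wm m, 2 * a + R ≤ z.1 → u z ^ 2 ≤ 2304 * ((32 * ((m : ℝ) + 1)) / R) ^ pe := by
  intro z hz hzR
  have ha0 : 0 ≤ a := Wm_fst_nonneg hP.memW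
  have hR0 : (0 : ℝ) < R := by exact_mod_cast hR
  have hm' : (1 : ℤ) ≤ m := by exact_mod_cast hm
  have hmr : (1 : ℝ) ≤ m := by exact_mod_cast hm
  have hu1 : u z ^ 2 ≤ 1 := by
    have h1 := hP.nonneg z hz
    have h2 := hP.le_one z hz
    nlinarith
  have htriv : (R : ℝ) ≤ 32 * ((m : ℝ) + 1) → u z ^ 2 ≤ 2304 * ((32 * ((m : ℝ) + 1)) / R) ^ pe := by
    intro h
    have h1 : (1 : ℝ) ≤ (32 * ((m : ℝ) + 1)) / R := by
      rw [le_div_iff₀ hR0]; linarith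
    have h2 : (1 : ℝ) ≤ ((32 * ((m : ℝ) + 1)) / R) ^ pe :=
      Real.one_le_rpow h1 (by unfold pe; norm_num)
    linarith
  by_cases hcase : (R : ℤ) ≤ 4 * a
  · obtain ⟨k, hk⟩ : ∃ k : ℕ, (k : ℤ) = a / (2 * (2 * (m : ℤ) + 1)) :=
      ⟨(a / (2 * (2 * (m : ℤ) + 1))).toNat,
        Int.toNat_of_nonneg (Int.ediv_nonneg ha0 (by positivity))⟩
    have hMpos : (0 : ℤ) < 2 * (2 * (m : ℤ) + 1) := by positivity
    have hk1 : (2 * (m : ℤ) + 1) * (2 * k) ≤ a := by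
      have := Int.ediv_mul_le a hMpos.ne'
      rw [← hk] at this
      linarith
    have hk2 : a < 2 * (2 * (m : ℤ) + 1) * (k + 1) := by
      have := Int.lt_ediv_add_one_mul_self a hMpos
      rw [← hk] at this
      linarith
    by_cases hk0 : k = 0
    · apply htriv
      rw [hk0] at hk2
      have : (R : ℤ) ≤ 32 * ((m : ℤ) + 1) := by push_cast at hk2; linarith
      exact_mod_cast this
    · have hk1' : 1 ≤ k := Nat.one_le_iff_ne_zero.2 hk0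
      have hkr : (1 : ℝ) ≤ k := by exact_mod_cast hk1'
      have hk3 : 3 * (2 * (k : ℤ)) ≤ a := by nlinarith
      have hrb := ring_bound hm hP (by omega) k hk1' hk1 (by omega)
        (fun ρ h1 h2 => hKr ρ h1 (by omega) (by omega)) z hz (by
          unfold Far
          simp only
          omega)
      refine hrb.trans ?_
      rw [div_eq_mul_inv, ← Real.inv_rpow (by positivity)]
      apply mul_le_mul_of_nonneg_left _ (by norm_num)
      apply Real.rpow_le_rpow (by positivity) _ (by unfold pe; norm_num)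
      rw [inv_eq_one_div, div_le_div_iff₀ (by positivity) hR0]
      have hkZ : (1 : ℤ) ≤ k := by exact_mod_cast hk1'
      have : (R : ℤ) ≤ 32 * ((m : ℤ) + 1) * k := by nlinarith
      have h' : (R : ℝ) ≤ 32 * ((m : ℝ) + 1) * k := by exact_mod_cast this
      linarith
  · push Not at hcase
    by_cases hR6 : R < 6
    · apply htriv
      have : (R : ℝ) < 6 := by exact_mod_cast hR6
      linarith
    · have hcb := col_bound hm hP R (by omega) hcase (by omega) hKr hKc z hz (by omega)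
      refine hcb.trans ?_
      have h1 : ((8 * ((m : ℝ) + 1)) / R) ^ pe ≤ ((32 * ((m : ℝ) + 1)) / R) ^ pe := by
        apply Real.rpow_le_rpow (by positivity) _ (by unfold pe; norm_num)
        apply div_le_div_of_nonneg_right _ hR0.le
        linarith
      have h2 : 0 ≤ ((32 * ((m : ℝ) + 1)) / R) ^ pe := by positivity
      linarith

end Pool.Agent.Lib.MP_cfc8f6_pr
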