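import Mathlib
import Pool.Agent.Lib.MP_cfc8f6_pr.Column

/-!
Truncated hitting probabilities are potentials; the bound on the hitting probability of a point
of a connected set, started far away.
-/

open Filter Topology Finset

namespace Pool.Agent.Lib.MP_cfc8f6_pr

variable {m : ℕ} {K T : Set (ℤ × ℤ)}

/-- The set `K ∪ {x ≥ N}`. -/
def trunc (K : Set (ℤ × ℤ)) (N : ℤ) : Set (ℤ × ℤ) := {z | z ∈ K ∨ N ≤ z.1}

lemma mem_trunc {N : ℤ} {z : ℤ × ℤ} : z ∈ trunc K N ↔ z ∈ K ∨ N ≤ z.1 := Iff.rfl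

lemma pot_trunc {N : ℤ} {y : ℤ × ℤ} (hyK : y ∈ K) (hyW : y ∈ Wm m) (hyN : y.1 < N) :
    Pot m K N y (hitProb (Wm m) (trunc K N) {y}) := by
  refine ⟨hyW, ?_, ?_, ?_, ?_, ?_, ?_, ?_⟩
  · exact hitProb_of_mem hyW (Or.inl hyK) rfl
  · intro z _
    exact hitProb_nonneg z
  · intro z hz
    exact hitProb_le_one hz
  · intro z hz hzK hzy
    exact hitProb_of_notMem hz (Or.inl hzK) hzy
  · intro z hz hzN
    refine hitProb_of_notMem hz (Or.inr hzN) ?_
    intro h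
    rw [Set.mem_singleton_iff] at h
    rw [h] at hzN
    omega
  · intro z hz hzK hzN
    apply hitProb_lap hz
    rintro (h | h)
    · exact hzK h
    · omega
  · intro f hf0 hfy hfs
    apply hitProb_le' hf0
    · intro z _ _ hz
      rw [Set.mem_singleton_iff] at hz
      rw [hz]
      exact hfy
    · intro z hz hzB
      apply hfs z hz (fun h => hzB (Or.inl h))
      by_contra h
      exact hzB (Or.inr (not_lt.1 h))

/-- Truncated hitting probabilities increase with the truncation level. -/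
lemma trunc_mono (hTK : T ⊆ K) {N N' : ℤ} (h : N ≤ N') :
    ∀ z ∈ Wm m, hitProb (Wm m) (trunc K N) T z ≤ hitProb (Wm m) (trunc K N') T z := by
  apply hitProb_le'
  · intro z _
    exact hitProb_nonneg z
  · intro z hz _ hzT
    exact le_of_eq (hitProb_of_mem hz (Or.inl (hTK hzT)) hzT).symm
  · intro z hz hzB
    apply le_of_eq
    symm
    apply hitProb_lap hz
    rintro (h1 | h1)
    · exact hzB (Or.inl h1)
    · exact hzB (Or.inr (h.trans h1))

lemma trunc_le (hTK : T ⊆ K) {N : ℤ} :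
    ∀ z ∈ Wm m, hitProb (Wm m) (trunc K N) T z ≤ hitProb (Wm m) K T z := by
  apply hitProb_le'
  · intro z _
    exact hitProb_nonneg z
  · intro z hz _ hzT
    exact le_of_eq (hitProb_of_mem hz (hTK hzT) hzT).symm
  · intro z hz hzB
    apply le_of_eq
    symm
    exact hitProb_lap hz (fun h => hzB (Or.inl h))

/-- The truncated hitting probabilities converge to the hitting probability. -/
lemma trunc_tendsto (hTK : T ⊆ K) {z : ℤ × ℤ} (hz : z ∈ Wm m) :
    Tendsto (fun N : ℕ => hitProb (Wm m) (trunc K N) T z) atTop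
      (𝓝 (hitProb (Wm m) K T z)) := by
  classical
  set f : ℤ × ℤ → ℝ := fun z => ⨆ N : ℕ, hitProb (Wm m) (trunc K N) T z with hf
  have hconv : ∀ z ∈ Wm m, Tendsto (fun N : ℕ => hitProb (Wm m) (trunc K N) T z) atTop
      (𝓝 (f z)) := by
    intro z hz
    apply tendsto_atTop_ciSup
    · intro N N' h
      exact trunc_mono hTK (by exact_mod_cast h) z hz
    · refine ⟨1, ?_⟩
      rintro _ ⟨N, rfl⟩
      exact hitProb_le_one hz
  have hle : ∀ z ∈ Wm m, hitProb (Wm m) K T z ≤ f z := by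
    apply hitProb_le
    · intro z hz
      exact ge_of_tendsto' (hconv z hz) (fun N => hitProb_nonneg z)
    · intro z hz hzK hzT
      apply ge_of_tendsto' (hconv z hz)
      intro N
      exact le_of_eq (hitProb_of_mem hz (Or.inl (hTK hzT)) hzT).symm
    · intro z hz hzK
      have h1 : Tendsto (fun N : ℕ => (∑ w ∈ nb (Wm m) z, hitProb (Wm m) (trunc K N) T w) /
          ((nb (Wm m) z).card : ℝ)) atTop (𝓝 ((∑ w ∈ nb (Wm m) z, f w) /
          ((nb (Wm m) z).card : ℝ))) := by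
        apply Tendsto.div_const
        apply tendsto_finsetSum
        intro w hw
        exact hconv w (mem_nb.1 hw).2
      have h2 : (fun N : ℕ => (∑ w ∈ nb (Wm m) z, hitProb (Wm m) (trunc K N) T w) /
          ((nb (Wm m) z).card : ℝ)) =ᶠ[atTop] fun N : ℕ => hitProb (Wm m) (trunc K N) T z := by
        filter_upwards [eventually_gt_atTop (z.1.toNat)] with N hN
        symm
        apply hitProb_avg hz
        rintro (h | h)
        · exact hzK h
        · omega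
      exact le_of_eq (tendsto_nhds_unique (h1.congr' h2) (hconv z hz))
  have : f z = hitProb (Wm m) K T z := by
    apply le_antisymm _ (hle z hz)
    exact le_of_tendsto' (hconv z hz) (fun N => trunc_le hTK z hz)
  rw [← this]
  exact hconv z hz

/-- Connectedness to the origin. -/
def Conn (K : Set (ℤ × ℤ)) : Prop :=
  ∀ z ∈ K, Relation.ReflTransGen (fun p q : ℤ × ℤ => q ∈ K ∧ q ∈ nbrs p) (0, 0) z

/-- Crossing lemma. -/
lemma crossing (hconn : Conn K) (h0 : ((0 : ℤ), (0 : ℤ)) ∈ K) {p : ℤ × ℤ → Prop}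
    (hp0 : p (0, 0)) {y : ℤ × ℤ} (hy : y ∈ K) (hpy : ¬ p y) :
    ∃ z w : ℤ × ℤ, z ∈ K ∧ w ∈ K ∧ w ∈ nbrs z ∧ p z ∧ ¬ p w := by
  have key : ∀ z, Relation.ReflTransGen (fun p q : ℤ × ℤ => q ∈ K ∧ q ∈ nbrs p) (0, 0) z →
      (z ∈ K ∧ p z) ∨ ∃ z w : ℤ × ℤ, z ∈ K ∧ w ∈ K ∧ w ∈ nbrs z ∧ p z ∧ ¬ p w := by
    intro z hz
    induction hz with
    | refl => exact Or.inl ⟨h0, hp0⟩
    | tail h1 h2 ih =>
      rename_i b c
      rcases ih with ih | ih
      · by_cases hc : p c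
        · exact Or.inl ⟨h2.1, hc⟩
        · exact Or.inr ⟨b, c, ih.1, h2.1, h2.2, ih.2, hc⟩
      · exact Or.inr ih
  rcases key y (hconn y hy) with h | h
  · exact absurd h.2 hpy
  · exact h

lemma cross_ring (hm : 1 ≤ m) (hconn : Conn K) (h0 : ((0 : ℤ), (0 : ℤ)) ∈ K)
    (hKW : K ⊆ Wm m) {a b : ℤ}
    (hy : ((a, b) : ℤ × ℤ) ∈ K) {N ρ : ℤ} (hρ : 1 ≤ ρ) (hρa : ρ ≤ a) (hN : a + ρ ≤ N) :
    ∃ z₀ ∈ Cr m N (a, b) ρ, z₀ ∈ K := by
  obtain ⟨z, w, hz, hw, hwz, hpz, hpw⟩ := crossing hconn h0 (p := Far (a, b) ρ)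
    (by unfold Far; simp only; omega) hy (by unfold Far; simp only; omega)
  refine ⟨z, ?_, hz⟩
  rw [mem_Cr hm]
  have hb := nbrs_fst_le hwz
  refine ⟨⟨hKW hz, ?_⟩, hpz, fun h => hpw (Far_step h hwz)⟩
  unfold Far at hpw
  simp only at hpw
  omega

lemma cross_col (hm : 1 ≤ m) (hconn : Conn K) (h0 : ((0 : ℤ), (0 : ℤ)) ∈ K)
    (hKW : K ⊆ Wm m) {R : ℤ}
    (hR : ∃ z ∈ K, R ≤ z.1) {N j : ℤ} (hj : 0 < j) (hjR : j ≤ R) (hN : R ≤ N) :
    ∃ z₀ ∈ Cc m N j, z₀ ∈ K := by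
  obtain ⟨y, hy, hyR⟩ := hR
  obtain ⟨z, w, hz, hw, hwz, hpz, hpw⟩ := crossing hconn h0 (p := fun z => z.1 < j)
    hj hy (by omega)
  refine ⟨w, ?_, hw⟩
  rw [mem_Cc hm]
  have hb := nbrs_fst_le hwz
  exact ⟨⟨hKW hw, by omega⟩, by omega⟩

/-- Bound on the probability to hit `K` at `y`, from far away. -/
theorem hit_bound (hm : 1 ≤ m) (hconn : Conn K) (h0 : ((0 : ℤ), (0 : ℤ)) ∈ K)
    (hKW : K ⊆ Wm m) {y : ℤ × ℤ} (hy : y ∈ K) (R : ℕ) (hR : 1 ≤ R)
    (hKR : ∃ z ∈ K, (R : ℤ) ≤ z.1) :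
    ∀ z ∈ Wm m, 2 * y.1 + R ≤ z.1 →
      hitProb (Wm m) K {y} z ^ 2 ≤ 2304 * ((32 * ((m : ℝ) + 1)) / R) ^ pe := by
  intro z hz hzR
  obtain ⟨a, b⟩ := y
  have ha0 : 0 ≤ a := Wm_fst_nonneg (hKW hy)
  have ht := trunc_tendsto (m := m) (K := K) (T := {(a, b)}) (by
    intro w hw
    rw [Set.mem_singleton_iff] at hw
    rw [hw]
    exact hy) hz
  have ht2 := ht.pow 2
  apply le_of_tendsto ht2
  filter_upwards [eventually_gt_atTop ((2 * a + R).toNat)] with N hN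
  have hN' : 2 * a + R < (N : ℤ) := by omega
  exact pot_bound hm (pot_trunc hy (hKW hy) (by simp only; omega)) R hR hN'
    (fun ρ h1 h2 h3 => cross_ring hm hconn h0 hKW hy h1 h2 h3)
    (fun j h1 h2 => cross_col hm hconn h0 hKW hKR (by omega) h2 (by omega)) z hz hzR

end Pool.Agent.Lib.MP_cfc8f6_pr
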