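import Mathlib
import Pool.Agent.Lib.MP_cfc8f6_pr.Point

/-!
Recurrence of the walk on the wedge and existence of the harmonic measure from infinity.
-/

open Filter Topology Finset

namespace Pool.Agent.Lib.MP_cfc8f6_pr

variable {m : ℕ} {K T : Set (ℤ × ℤ)}

/-- Maximum principle for hitting probabilities. -/
lemma hit_max_principle {W B T Q : Set (ℤ × ℤ)} {M : ℝ} (hM : 0 ≤ M)
    (hTQ : ∀ z ∈ W, z ∈ B → z ∈ T → z ∉ Q)
    (hQ : ∀ z ∈ W, z ∈ Q → (∃ w ∈ nb W z, w ∉ Q) → hitProb W B T z ≤ M) :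
    ∀ z ∈ W, z ∈ Q → hitProb W B T z ≤ M := by
  classical
  set u := hitProb W B T with hu
  set f : ℤ × ℤ → ℝ := fun z => if z ∈ Q then min (u z) M else u z with hf
  have hfu : ∀ z, f z ≤ u z := by
    intro z
    rw [hf]
    simp only
    split_ifs
    · exact min_le_left _ _
    · exact le_refl _
  have key := hitProb_le' (W := W) (B := B) (T := T) (f := f) (by
    intro z hz
    rw [hf]
    simp only
    split_ifs
    · exact le_min (hitProb_nonneg z) hM
    · exact hitProb_nonneg z) (by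
    intro z hz hzB hzT
    rw [hf]
    simp only
    rw [if_neg (hTQ z hz hzB hzT), hu, hitProb_of_mem hz hzB hzT]) (by
    intro z hz hzB
    by_cases hfz : f z = u z
    · rw [hfz, ← hitProb_lap (T := T) hz hzB]
      exact Finset.sum_le_sum fun w _ => by
        have := hfu w
        rw [← hu]
        linarith
    · have hzQ : z ∈ Q := by
        by_contra h
        apply hfz
        rw [hf]
        simp only
        rw [if_neg h]
      have hzM : M < u z := by
        by_contra h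
        apply hfz
        rw [hf]
        simp only
        rw [if_pos hzQ, min_eq_left (not_lt.1 h)]
      have hfz' : f z = M := by
        rw [hf]
        simp only
        rw [if_pos hzQ, min_eq_right hzM.le]
      apply Finset.sum_nonneg
      intro w hw
      have hwQ : w ∈ Q := by
        by_contra h
        exact absurd (hQ z hz hzQ ⟨w, hw, h⟩) (not_le.2 hzM)
      have : f w ≤ M := by
        rw [hf]
        simp only
        rw [if_pos hwQ]
        exact min_le_right _ _
      linarith)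
  intro z hz hzQ
  have := key z hz
  rw [hf] at this
  simp only at this
  rw [if_pos hzQ] at this
  exact this.trans (min_le_right _ _)

open Classical in
/-- Bilinear Green identity. -/
lemma green_bilin {W : Set (ℤ × ℤ)} {S : Finset (ℤ × ℤ)} (hSW : ∀ z ∈ S, z ∈ W)
    (g ψ : ℤ × ℤ → ℝ) :
    ∑ z ∈ S, ∑ w ∈ S, (if w ∈ nb W z then (g z - g w) * (ψ z - ψ w) else 0) =
      2 * ∑ z ∈ S, ψ z * ∑ w ∈ S, (if w ∈ nb W z then (g z - g w) else 0) := by
  have h5 : ∑ z ∈ S, ∑ w ∈ S, (if w ∈ nb W z then ψ w * (g w - g z) else 0) =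
      ∑ z ∈ S, ∑ w ∈ S, (if w ∈ nb W z then ψ z * (g z - g w) else 0) := by
    rw [Finset.sum_comm]
    apply Finset.sum_congr rfl
    intro z hz
    apply Finset.sum_congr rfl
    intro w hw
    have : (z ∈ nb W w) ↔ (w ∈ nb W z) :=
      ⟨fun h => mem_nb_symm (hSW w hw) h, fun h => mem_nb_symm (hSW z hz) h⟩
    simp only [this]
  have h6 : ∑ z ∈ S, ψ z * ∑ w ∈ S, (if w ∈ nb W z then (g z - g w) else 0) =
      ∑ z ∈ S, ∑ w ∈ S, (if w ∈ nb W z then ψ z * (g z - g w) else 0) := by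
    apply Finset.sum_congr rfl
    intro z _
    rw [Finset.mul_sum]
    apply Finset.sum_congr rfl
    intro w _
    split_ifs
    · rfl
    · rw [mul_zero]
  rw [h6, two_mul]
  nth_rw 2 [← h5]
  rw [← Finset.sum_add_distrib]
  apply Finset.sum_congr rfl
  intro z _
  rw [← Finset.sum_add_distrib]
  apply Finset.sum_congr rfl
  intro w _
  split_ifs
  · ring
  · ring

/-- Dirichlet principle. -/
lemma dirichlet {W : Set (ℤ × ℤ)} {S : Finset (ℤ × ℤ)} (hSW : ∀ z ∈ S, z ∈ W)
    (g φ : ℤ × ℤ → ℝ)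
    (h : ∀ z ∈ S, φ z = g z ∨ (nb W z ⊆ S ∧ ∑ w ∈ nb W z, (g z - g w) = 0)) :
    BB W g S S ≤ BB W φ S S := by
  classical
  set ψ : ℤ × ℤ → ℝ := fun z => φ z - g z with hψ
  have h0 : ∑ z ∈ S, ψ z * ∑ w ∈ S, (if w ∈ nb W z then (g z - g w) else 0) = 0 := by
    apply Finset.sum_eq_zero
    intro z hz
    rcases h z hz with h1 | ⟨h1, h2⟩
    · rw [hψ]
      simp only
      rw [h1, sub_self, zero_mul]
    · have : ∑ w ∈ S, (if w ∈ nb W z then (g z - g w) else 0) = ∑ w ∈ nb W z, (g z - g w) := by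
        rw [← Finset.sum_filter]
        apply Finset.sum_congr _ (fun _ _ => rfl)
        ext w
        simp only [Finset.mem_filter]
        exact ⟨fun h => h.2, fun h => ⟨h1 h, h⟩⟩
      rw [this, h2, mul_zero]
  have hg := green_bilin hSW g ψ
  rw [h0, mul_zero] at hg
  have key : BB W φ S S = BB W g S S + BB W ψ S S +
      2 * ∑ z ∈ S, ∑ w ∈ S, (if w ∈ nb W z then (g z - g w) * (ψ z - ψ w) else 0) := by
    unfold BB
    rw [Finset.mul_sum, ← Finset.sum_add_distrib, ← Finset.sum_add_distrib]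
    apply Finset.sum_congr rfl
    intro z hz
    rw [Finset.mul_sum, ← Finset.sum_add_distrib, ← Finset.sum_add_distrib]
    apply Finset.sum_congr rfl
    intro w _
    unfold ksq
    by_cases hwz : w ∈ nb W z
    · rw [if_pos ⟨hSW z hz, hwz⟩, if_pos ⟨hSW z hz, hwz⟩, if_pos ⟨hSW z hz, hwz⟩, if_pos hwz, hψ]
      ring
    · rw [if_neg (fun h => hwz h.2), if_neg (fun h => hwz h.2), if_neg (fun h => hwz h.2),
        if_neg hwz]
      ring
  rw [hg, mul_zero, add_zero] at key
  rw [key]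
  linarith [BB_nonneg (W := W) (u := ψ) S S]

/-- Harmonic numbers as a function on `ℤ`. -/
noncomputable def Hm (n : ℤ) : ℝ := ∑ i ∈ Finset.range n.toNat, 1 / ((i : ℝ) + 1)

lemma Hm_succ {n : ℤ} (hn : 0 ≤ n) : Hm (n + 1) = Hm n + 1 / ((n : ℝ) + 1) := by
  obtain ⟨k, rfl⟩ := Int.eq_ofNat_of_zero_le hn
  unfold Hm
  have e1 : ((k : ℤ) + 1).toNat = k + 1 := by omega
  have e2 : ((k : ℤ)).toNat = k := by omega
  rw [e1, e2, Finset.sum_range_succ]
  push_cast
  rfl

lemma Hm_mono {a b : ℤ} (h : a ≤ b) : Hm a ≤ Hm b := by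
  unfold Hm
  apply Finset.sum_le_sum_of_subset_of_nonneg
  · intro i hi
    rw [Finset.mem_range] at hi ⊢
    omega
  · intro i _ _
    positivity

lemma Hm_diff {a b : ℤ} (ha : 0 ≤ a) (hb : 0 ≤ b) (h1 : b ≤ a + 1) (h2 : a - 1 ≤ b) :
    |Hm a - Hm b| ≤ 2 / ((a : ℝ) + 1) := by
  have ha' : (0 : ℝ) ≤ (a : ℝ) := by exact_mod_cast ha
  rcases (by omega : b = a ∨ b = a + 1 ∨ b = a - 1) with h | h | h
  · rw [h, sub_self, abs_zero]
    positivity
  · rw [h, Hm_succ ha]
    have : Hm a - (Hm a + 1 / ((a : ℝ) + 1)) = -(1 / ((a : ℝ) + 1)) := by ring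
    rw [this, abs_neg, abs_of_nonneg (by positivity)]
    apply div_le_div_of_nonneg_right _ (by positivity)
    norm_num
  · have hb' : a = b + 1 := by omega
    have hb0 : (0 : ℝ) ≤ (b : ℝ) := by exact_mod_cast hb
    rw [hb', Hm_succ hb]
    have : Hm b + 1 / ((b : ℝ) + 1) - Hm b = 1 / ((b : ℝ) + 1) := by ring
    rw [this, abs_of_nonneg (by positivity)]
    push_cast
    rw [div_le_div_iff₀ (by positivity) (by positivity)]
    linarith

/-- Summation over columns. -/
lemma sum_col (hm : 1 ≤ m) {N : ℤ} (G : ℤ → ℝ) (hG : ∀ i, 0 ≤ G i) :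
    ∑ z ∈ VN m N, G z.1 ≤ ∑ i ∈ Finset.range (N.toNat + 1), ((i : ℝ) + 1) * G i := by
  classical
  have hmap : ∀ z ∈ VN m N, z.1.toNat ∈ Finset.range (N.toNat + 1) := by
    intro z hz
    have hz' := (mem_VN hm).1 hz
    have hz0 := Wm_fst_nonneg hz'.1
    rw [Finset.mem_range]
    omega
  rw [← Finset.sum_fiberwise_of_maps_to hmap]
  apply Finset.sum_le_sum
  intro i hi
  have h1 : ∀ z ∈ (VN m N).filter (fun z => z.1.toNat = i), G z.1 = G i := by
    intro z hz
    rw [Finset.mem_filter] at hz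
    have hz0 := Wm_fst_nonneg ((mem_VN hm).1 hz.1).1
    congr 1
    omega
  rw [Finset.sum_congr rfl h1, Finset.sum_const, nsmul_eq_mul]
  apply mul_le_mul_of_nonneg_right _ (hG i)
  have h2 : (VN m N).filter (fun z => z.1.toNat = i) ⊆ Cc m N i := by
    intro z hz
    rw [Finset.mem_filter] at hz
    have hz0 := Wm_fst_nonneg ((mem_VN hm).1 hz.1).1
    rw [mem_Cc hm]
    exact ⟨(mem_VN hm).1 hz.1, by omega⟩
  have h3 := card_Cc_le (N := N) hm (j := i) (by omega)
  have h4 : (((VN m N).filter (fun z => z.1.toNat = i)).card : ℝ) ≤ ((Cc m N i).card : ℝ) := by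
    exact_mod_cast Finset.card_le_card h2
  push_cast at h3
  linarith

/-- The energy of a Lipschitz function of `Hm x`. -/
lemma energy_test (hm : 1 ≤ m) {N : ℤ} (hN : 0 ≤ N) {S : ℝ} (hS : 0 < S) (F : ℤ → ℝ)
    (hF : ∀ a b : ℤ, |F a - F b| ≤ |Hm a - Hm b| / S) :
    BB (Wm m) (fun z => F z.1) (VN m N) (VN m N) ≤ 16 * Hm (N + 1) / S ^ 2 := by
  classical
  have hin : ∀ z ∈ VN m N, ∑ w ∈ VN m N, ksq (Wm m) (fun z => F z.1) z w ≤
      (16 / S ^ 2) * (1 / ((z.1 : ℝ) + 1) ^ 2) := by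
    intro z hz
    have hz' := (mem_VN hm).1 hz
    have hz0 := Wm_fst_nonneg hz'.1
    have hz0' : (0 : ℝ) ≤ (z.1 : ℝ) := by exact_mod_cast hz0
    have hc : 0 ≤ (4 / S ^ 2) * (1 / ((z.1 : ℝ) + 1) ^ 2) := by positivity
    have hpt : ∀ w ∈ VN m N, ksq (Wm m) (fun z => F z.1) z w ≤
        if w ∈ nb (Wm m) z then (4 / S ^ 2) * (1 / ((z.1 : ℝ) + 1) ^ 2) else 0 := by
      intro w hw
      have hw' := (mem_VN hm).1 hw
      have hw0 := Wm_fst_nonneg hw'.1
      unfold ksq
      by_cases hwz : w ∈ nb (Wm m) z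
      · rw [if_pos ⟨hz'.1, hwz⟩, if_pos hwz]
        have hb := nbrs_fst_le (mem_nb.1 hwz).1
        have h1 := hF z.1 w.1
        have h2 := Hm_diff hz0 hw0 hb.1 hb.2.1
        have h3 : |F z.1 - F w.1| ≤ (2 / ((z.1 : ℝ) + 1)) / S :=
          h1.trans (div_le_div_of_nonneg_right h2 hS.le)
        calc (F z.1 - F w.1) ^ 2 = |F z.1 - F w.1| ^ 2 := (sq_abs _).symm
          _ ≤ ((2 / ((z.1 : ℝ) + 1)) / S) ^ 2 := pow_le_pow_left₀ (abs_nonneg _) h3 2
          _ = (4 / S ^ 2) * (1 / ((z.1 : ℝ) + 1) ^ 2) := by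
              field_simp
              ring
      · rw [if_neg (fun h => hwz h.2), if_neg hwz]
    refine (Finset.sum_le_sum hpt).trans ?_
    rw [← Finset.sum_filter, Finset.sum_const, nsmul_eq_mul]
    have hcard : (((VN m N).filter (fun w => w ∈ nb (Wm m) z)).card : ℝ) ≤ 4 := by
      have h1 : (VN m N).filter (fun w => w ∈ nb (Wm m) z) ⊆ nb (Wm m) z := by
        intro w hw
        exact (Finset.mem_filter.1 hw).2
      exact_mod_cast (Finset.card_le_card h1).trans (card_nb_le _ z)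
    calc (((VN m N).filter (fun w => w ∈ nb (Wm m) z)).card : ℝ) *
          ((4 / S ^ 2) * (1 / ((z.1 : ℝ) + 1) ^ 2))
        ≤ 4 * ((4 / S ^ 2) * (1 / ((z.1 : ℝ) + 1) ^ 2)) := mul_le_mul_of_nonneg_right hcard hc
      _ = (16 / S ^ 2) * (1 / ((z.1 : ℝ) + 1) ^ 2) := by ring
  have h1 : BB (Wm m) (fun z => F z.1) (VN m N) (VN m N) ≤
      (16 / S ^ 2) * ∑ z ∈ VN m N, (1 / ((z.1 : ℝ) + 1) ^ 2) := by
    rw [Finset.mul_sum]
    exact Finset.sum_le_sum hin
  have h2 := sum_col (N := N) hm (fun i => 1 / ((i : ℝ) + 1) ^ 2) (fun i => by positivity)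
  have h3 : ∑ i ∈ Finset.range (N.toNat + 1), ((i : ℝ) + 1) * (1 / (((i : ℤ) : ℝ) + 1) ^ 2) =
      Hm (N + 1) := by
    unfold Hm
    have e1 : (N + 1).toNat = N.toNat + 1 := by omega
    rw [e1]
    apply Finset.sum_congr rfl
    intro i _
    have : (0 : ℝ) < (i : ℝ) + 1 := by positivity
    push_cast
    field_simp
  rw [h3] at h2
  calc BB (Wm m) (fun z => F z.1) (VN m N) (VN m N)
      ≤ (16 / S ^ 2) * ∑ z ∈ VN m N, (1 / ((z.1 : ℝ) + 1) ^ 2) := h1
    _ ≤ (16 / S ^ 2) * Hm (N + 1) := mul_le_mul_of_nonneg_left h2 (by positivity)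
    _ = 16 * Hm (N + 1) / S ^ 2 := by ring

lemma Hm_tendsto : Tendsto (fun n : ℕ => Hm n) atTop atTop := by
  have h := Real.tendsto_sum_range_one_div_nat_succ_atTop
  refine h.congr (fun n => ?_)
  unfold Hm
  have e : ((n : ℤ)).toNat = n := by omega
  rw [e]

/-- The sup norm estimate along straight lines to the origin. -/
lemma diff_origin (hm : 1 ≤ m) {N : ℤ} {g : ℤ × ℤ → ℝ} {z : ℤ × ℤ} (hz : z ∈ Wm m)
    (hzN : z.1 ≤ N) :
    (g z - g (0, 0)) ^ 2 ≤ 9 * ((z.1 : ℝ) * BB (Wm m) g (VN m N) (VN m N)) := by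
  have hCW : ∀ w ∈ VN m N, w ∈ Wm m := fun w hw => ((mem_VN hm).1 hw).1
  have h0 := Wm_fst_nonneg hz
  have h1 := Wm_snd_le_fst hm hz
  have h2 := mem_Wm.1 hz
  have hq := BB_nonneg (W := Wm m) (u := g) (VN m N) (VN m N)
  have hz0 : (0 : ℝ) ≤ (z.1 : ℝ) := by exact_mod_cast h0
  obtain ⟨x, t⟩ := z
  simp only at h0 h1 h2 hzN hz0 ⊢
  refine three_step (b := g (x, 0)) (c := g (0, 0)) ?_ ?_ ?_
  · have := seg_v (u := g) (x := x) h2.1 hCW (by
      intro s hs1 hs2
      rw [mem_VN hm]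
      exact ⟨memWm_of_le hs1 hs2 h2.2 (le_refl _), hzN⟩)
    rw [← neg_sub, neg_sq]
    refine this.trans ?_
    apply mul_le_mul_of_nonneg_right _ hq
    push_cast
    have : (t : ℝ) ≤ x := by exact_mod_cast h1
    linarith
  · have := seg_h (u := g) (t := 0) h0 hCW (by
      intro s hs1 hs2
      rw [mem_VN hm]
      exact ⟨memWm_of_le (t₀ := 0) (x₀ := 0) (le_refl _) (le_refl _) (by simp) hs1, by
        simp only; omega⟩)
    rw [← neg_sub, neg_sq]
    refine this.trans ?_
    apply mul_le_mul_of_nonneg_right _ hq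
    push_cast
    linarith
  · have e : (g (0, 0) - g (0, 0)) ^ 2 = 0 := by ring
    rw [e]
    exact mul_nonneg hz0 hq

/-- Recurrence: the walk hits a finite set containing the origin almost surely. -/
theorem recurrence (hm : 1 ≤ m) (h0 : ((0 : ℤ), (0 : ℤ)) ∈ K) {R₀ : ℤ} (hR₀ : 0 ≤ R₀)
    (hK : ∀ z ∈ K, z.1 ≤ R₀) {z : ℤ × ℤ} (hz : z ∈ Wm m) :
    hitProb (Wm m) K K z = 1 := by
  classical
  have hlim := trunc_tendsto (m := m) (K := K) (T := K) (le_refl _) hz
  have hz0 := Wm_fst_nonneg hz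
  have h00 : ((0 : ℤ), (0 : ℤ)) ∈ Wm m := by rw [mem_Wm]; simp
  -- lower bound for the truncated probabilities
  have hkey : ∀ᶠ N : ℕ in atTop, (1 - hitProb (Wm m) (trunc K N) K z) ^ 2 ≤
      9 * ((z.1 : ℝ) * (16 * (Hm N + 1) / (Hm N - Hm R₀) ^ 2)) := by
    have hbig : ∀ᶠ N : ℕ in atTop, Hm R₀ < Hm N := Hm_tendsto.eventually_gt_atTop _
    filter_upwards [eventually_gt_atTop (z.1.toNat), eventually_gt_atTop R₀.toNat, hbig]
      with N hN1 hN2 hN3
    have hNz : z.1 < N := by omega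
    have hNR : R₀ < N := by omega
    set g : ℤ × ℤ → ℝ := fun z => 1 - hitProb (Wm m) (trunc K N) K z with hg
    set S : ℝ := Hm N - Hm R₀ with hS
    have hSpos : 0 < S := by rw [hS]; linarith
    set F : ℤ → ℝ := fun x => max 0 (min 1 ((Hm x - Hm R₀) / S)) with hFdef
    have hFlip : ∀ a b : ℤ, |F a - F b| ≤ |Hm a - Hm b| / S := by
      intro a b
      have h1 : |F a - F b| ≤ |(Hm a - Hm R₀) / S - (Hm b - Hm R₀) / S| := by
        rw [hFdef]
        simp only
        refine (abs_max_sub_max_le_max _ _ _ _).trans ?_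
        rw [sub_self, abs_zero]
        apply max_le (abs_nonneg _)
        refine (abs_min_sub_min_le_max _ _ _ _).trans ?_
        rw [sub_self, abs_zero]
        exact max_le (abs_nonneg _) (le_refl _)
      have h2 : (Hm a - Hm R₀) / S - (Hm b - Hm R₀) / S = (Hm a - Hm b) / S := by ring
      rw [h2, abs_div, abs_of_pos hSpos] at h1
      exact h1
    have htest := energy_test (N := (N : ℤ)) hm (by omega) hSpos F hFlip
    have hdir := dirichlet (W := Wm m) (S := VN m N) (fun z hz => ((mem_VN hm).1 hz).1)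
      g (fun z => F z.1) (by
      intro w hw
      have hw' := (mem_VN hm).1 hw
      by_cases hwK : w ∈ K
      · left
        rw [hg, hFdef]
        simp only
        rw [hitProb_of_mem hw'.1 (Or.inl hwK) hwK]
        have : (Hm w.1 - Hm R₀) / S ≤ 0 := by
          apply div_nonpos_of_nonpos_of_nonneg _ hSpos.le
          have := Hm_mono (hK w hwK)
          linarith
        rw [max_eq_left]
        · norm_num
        · exact (min_le_right _ _).trans this
      · by_cases hwN : (N : ℤ) ≤ w.1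
        · left
          have hwN' : w.1 = N := le_antisymm hw'.2 hwN
          rw [hg, hFdef]
          simp only
          rw [hitProb_of_notMem hw'.1 (Or.inr hwN) hwK, hwN', ← hS, div_self hSpos.ne', min_self]
          norm_num
        · right
          refine ⟨?_, ?_⟩
          · intro v hv
            have hv' := mem_nb.1 hv
            have hb := nbrs_fst_le hv'.1
            rw [mem_VN hm]
            exact ⟨hv'.2, by omega⟩
          · have := hitProb_lap (W := Wm m) (B := trunc K N) (T := K) hw'.1 (by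
              rintro (h | h)
              · exact hwK h
              · exact hwN h)
            rw [hg]
            simp only
            have e : ∑ v ∈ nb (Wm m) w, (1 - hitProb (Wm m) (trunc K N) K w -
                (1 - hitProb (Wm m) (trunc K N) K v)) =
                - ∑ v ∈ nb (Wm m) w, (hitProb (Wm m) (trunc K N) K w -
                  hitProb (Wm m) (trunc K N) K v) := by
              rw [← Finset.sum_neg_distrib]
              exact Finset.sum_congr rfl fun v _ => by ring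
            rw [e, this, neg_zero])
    have hd := diff_origin (N := (N : ℤ)) (g := g) hm hz hNz.le
    have hg0 : g (0, 0) = 0 := by
      rw [hg]
      simp only
      rw [hitProb_of_mem h00 (Or.inl h0) h0, sub_self]
    rw [hg0, sub_zero] at hd
    have hHN : Hm ((N : ℤ) + 1) ≤ Hm N + 1 := by
      rw [Hm_succ (by omega)]
      have : (1 : ℝ) / (((N : ℤ) : ℝ) + 1) ≤ 1 := by
        rw [div_le_one (by positivity)]
        have : (0 : ℝ) ≤ ((N : ℤ) : ℝ) := by positivity
        linarith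
      linarith
    have hz0' : (0 : ℝ) ≤ (z.1 : ℝ) := by exact_mod_cast hz0
    refine hd.trans ?_
    apply mul_le_mul_of_nonneg_left _ (by norm_num)
    apply mul_le_mul_of_nonneg_left _ hz0'
    refine (hdir.trans htest).trans ?_
    apply div_le_div_of_nonneg_right _ (by positivity)
    linarith
  -- the bound tends to zero
  have hzero : Tendsto (fun N : ℕ => 9 * ((z.1 : ℝ) * (16 * (Hm N + 1) / (Hm N - Hm R₀) ^ 2)))
      atTop (𝓝 0) := by
    have h1 : Tendsto (fun t : ℝ => 9 * ((z.1 : ℝ) * (16 * (t + 1) / (t - Hm R₀) ^ 2)))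
        atTop (𝓝 0) := by
      have h2 : Tendsto (fun t : ℝ => (t + 1) / (t - Hm R₀) ^ 2) atTop (𝓝 0) := by
        have h3 : Tendsto (fun t : ℝ => t - Hm R₀) atTop atTop := tendsto_atTop_add_const_right _ _ tendsto_id
        have h4 : Tendsto (fun s : ℝ => s⁻¹ + (1 + Hm R₀) * (s⁻¹ * s⁻¹)) atTop (𝓝 (0 + (1 + Hm R₀) * (0 * 0))) :=
          tendsto_inv_atTop_zero.add
            ((tendsto_inv_atTop_zero.mul tendsto_inv_atTop_zero).const_mul _)
        have h5 := h4.comp h3
        simp only [mul_zero, add_zero] at h5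
        refine h5.congr' ?_
        filter_upwards [eventually_gt_atTop (Hm R₀)] with t ht
        have hs : t - Hm R₀ ≠ 0 := by linarith
        simp only [Function.comp]
        field_simp
        ring
      have h6 := (h2.const_mul (16 * (9 * (z.1 : ℝ))))
      rw [mul_zero] at h6
      refine h6.congr (fun t => ?_)
      ring
    exact h1.comp Hm_tendsto
  have hsq : Tendsto (fun N : ℕ => (1 - hitProb (Wm m) (trunc K N) K z) ^ 2) atTop
      (𝓝 ((1 - hitProb (Wm m) K K z) ^ 2)) := (hlim.const_sub 1).pow 2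
  have hle : (1 - hitProb (Wm m) K K z) ^ 2 ≤ 0 := le_of_tendsto_of_tendsto hsq hzero hkey
  have : 1 - hitProb (Wm m) K K z = 0 := by
    have := le_antisymm hle (sq_nonneg _)
    exact pow_eq_zero_iff (two_ne_zero) |>.1 this
  linarith

end Pool.Agent.Lib.MP_cfc8f6_pr
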