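import Mathlib
import Pool.Agent.Lib.MP_cfc8f6_pr.Recur

/-!
Existence of the harmonic measure from infinity on the wedge, and its properties.
-/

open Filter Topology Finset

namespace Pool.Agent.Lib.MP_cfc8f6_pr

variable {m : ℕ} {K T : Set (ℤ × ℤ)}

lemma norm_toPlane_le (z : ℤ × ℤ) : ‖toPlane z‖ ≤ |(z.1 : ℝ)| + |(z.2 : ℝ)| := by
  have := Complex.norm_le_abs_re_add_abs_im (toPlane z)
  simpa [toPlane] using this

lemma le_norm_toPlane (z : ℤ × ℤ) : |(z.1 : ℝ)| ≤ ‖toPlane z‖ := by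
  have := Complex.abs_re_le_norm (toPlane z)
  simpa [toPlane] using this

lemma eventually_far (hm : 1 ≤ m) (j : ℤ) : ∀ᶠ z in atInfinity (Wm m), z ∈ Wm m ∧ j ≤ z.1 := by
  unfold atInfinity
  have h1 : ∀ᶠ z in Filter.comap (fun z : ℤ × ℤ => ‖toPlane z‖) atTop, 2 * (j : ℝ) < ‖toPlane z‖ :=
    (eventually_gt_atTop (2 * (j : ℝ))).comap _
  have h2 : ∀ᶠ z in (𝓟 (Wm m) : Filter (ℤ × ℤ)), z ∈ Wm m := by simp
  filter_upwards [h1.filter_mono inf_le_left, h2.filter_mono inf_le_right] with z hz hzW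
  refine ⟨hzW, ?_⟩
  have h0 := Wm_fst_nonneg hzW
  have h3 := Wm_snd_le_fst hm hzW
  have h4 := (mem_Wm.1 hzW).1
  have h0' : (0 : ℝ) ≤ z.1 := by exact_mod_cast h0
  have h3' : (z.2 : ℝ) ≤ z.1 := by exact_mod_cast h3
  have h4' : (0 : ℝ) ≤ z.2 := by exact_mod_cast h4
  have h5 := norm_toPlane_le z
  rw [abs_of_nonneg h0', abs_of_nonneg h4'] at h5
  have : (j : ℝ) ≤ z.1 := by linarith
  exact_mod_cast this

instance neBot_atInfinity : NeBot (atInfinity (Wm m)) := by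
  unfold atInfinity
  have h1 : Tendsto (fun n : ℕ => (((n : ℤ), (0 : ℤ)) : ℤ × ℤ)) atTop
      (Filter.comap (fun z : ℤ × ℤ => ‖toPlane z‖) atTop ⊓ 𝓟 (Wm m)) := by
    rw [tendsto_inf]
    constructor
    · rw [tendsto_comap_iff]
      apply tendsto_atTop_mono _ tendsto_natCast_atTop_atTop
      intro n
      have := le_norm_toPlane (((n : ℤ), (0 : ℤ)) : ℤ × ℤ)
      simp only [Int.cast_natCast, Nat.abs_cast] at this
      exact this
    · rw [tendsto_principal]
      filter_upwards with n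
      rw [mem_Wm]
      simp
  exact h1.neBot

lemma Cc_eq (hm : 1 ≤ m) {N j : ℤ} (h : j ≤ N) : Cc m N j = Cc m j j := by
  ext z
  rw [mem_Cc hm, mem_Cc hm]
  constructor
  · rintro ⟨⟨h1, _⟩, h3⟩
    exact ⟨⟨h1, h3.le⟩, h3⟩
  · rintro ⟨⟨h1, _⟩, h3⟩
    exact ⟨⟨h1, by omega⟩, h3⟩

lemma BB_tendsto {W : Set (ℤ × ℤ)} {f : ℕ → ℤ × ℤ → ℝ} {g : ℤ × ℤ → ℝ} {S T : Finset (ℤ × ℤ)}
    (hf : ∀ z ∈ W, Tendsto (fun n => f n z) atTop (𝓝 (g z))) :
    Tendsto (fun n => BB W (f n) S T) atTop (𝓝 (BB W g S T)) := by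
  unfold BB
  apply tendsto_finsetSum
  intro z _
  apply tendsto_finsetSum
  intro w _
  unfold ksq
  by_cases h : z ∈ W ∧ w ∈ nb W z
  · simp only [if_pos h]
    exact ((hf z h.1).sub (hf w (mem_nb.1 h.2).2)).pow 2
  · simp only [if_neg h]
    exact tendsto_const_nhds

/-- The energy of `hitProb K {y}` beyond the column of `y` is bounded. -/
lemma energy_col (hm : 1 ≤ m) {y : ℤ × ℤ} (hyK : y ∈ K) (hyW : y ∈ Wm m) {j : ℤ} (hj : y.1 < j)
    (n : ℕ) :
    ∑ i ∈ Finset.range n, BB (Wm m) (hitProb (Wm m) K {y}) (Cc m (j + i) (j + i))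
      (Cc m (j + i) (j + i)) ≤ 8 := by
  have hconv : ∀ z ∈ Wm m, Tendsto (fun N : ℕ => hitProb (Wm m) (trunc K N) {y} z) atTop
      (𝓝 (hitProb (Wm m) K {y} z)) := fun z hz => trunc_tendsto (by
        intro w hw
        rw [Set.mem_singleton_iff] at hw
        rw [hw]; exact hyK) hz
  have hlim : Tendsto (fun N : ℕ => ∑ i ∈ Finset.range n,
      BB (Wm m) (hitProb (Wm m) (trunc K N) {y}) (Cc m (j + i) (j + i)) (Cc m (j + i) (j + i)))
      atTop (𝓝 (∑ i ∈ Finset.range n,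
      BB (Wm m) (hitProb (Wm m) K {y}) (Cc m (j + i) (j + i)) (Cc m (j + i) (j + i)))) :=
    tendsto_finsetSum _ fun i _ => BB_tendsto hconv
  apply le_of_tendsto hlim
  filter_upwards [eventually_gt_atTop (j + n).toNat] with N hN
  have hNj : j + n < N := by omega
  have hP := pot_trunc (N := (N : ℤ)) hyK hyW (by omega)
  have h1 := col_sum (u := hitProb (Wm m) (trunc K N) {y}) (N := (N : ℤ)) hm (j := j) n
  have h2 := energy_one hm hP (by omega)
  have h3 : BB (Wm m) (hitProb (Wm m) (trunc K N) {y}) (Sc m N j) (Sc m N j) ≤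
      BB (Wm m) (hitProb (Wm m) (trunc K N) {y}) (Sr m N y 1) (Sr m N y 1) := by
    have hsub : Sc m N j ⊆ Sr m N y 1 := by
      intro z hz
      rw [mem_Sc hm] at hz
      rw [mem_Sr hm]
      refine ⟨hz.1, ?_⟩
      unfold Far
      omega
    exact BB_mono hsub hsub
  have h4 : 0 ≤ BB (Wm m) (hitProb (Wm m) (trunc K N) {y}) (Sc m N (j + n)) (Sc m N (j + n)) :=
    BB_nonneg _ _
  have h5 : ∑ i ∈ Finset.range n, BB (Wm m) (hitProb (Wm m) (trunc K N) {y}) (Cc m N (j + i))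
      (Cc m N (j + i)) = ∑ i ∈ Finset.range n,
      BB (Wm m) (hitProb (Wm m) (trunc K N) {y}) (Cc m (j + i) (j + i))
        (Cc m (j + i) (j + i)) := by
    apply Finset.sum_congr rfl
    intro i hi
    rw [Finset.mem_range] at hi
    rw [Cc_eq hm (by omega)]
  rw [← h5]
  linarith

lemma col_osc (hm : 1 ≤ m) {u : ℤ × ℤ → ℝ} {N j : ℤ} {z z₀ : ℤ × ℤ} (hz₀ : z₀ ∈ Cc m N j)
    (hz : z ∈ Cc m N j) :
    (u z - u z₀) ^ 2 ≤ (j : ℝ) * BB (Wm m) u (Cc m N j) (Cc m N j) := by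
  have h := col_poincare (u := fun w => u w - u z₀) hm hz₀ (by simp) z hz
  have e : BB (Wm m) (fun w => u w - u z₀) (Cc m N j) (Cc m N j) =
      BB (Wm m) u (Cc m N j) (Cc m N j) := by
    unfold BB ksq
    apply Finset.sum_congr rfl
    intro a _
    apply Finset.sum_congr rfl
    intro b _
    split_ifs
    · ring
    · rfl
  rw [e] at h
  exact h

lemma Hm_shift {j : ℤ} (hj : 1 ≤ j) (n : ℕ) :
    Hm (j - 1 + n) = Hm (j - 1) + ∑ i ∈ Finset.range n, 1 / ((j : ℝ) + i) := by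
  induction n with
  | zero => simp
  | succ n ih =>
    rw [Finset.sum_range_succ, ← add_assoc, ← ih]
    have e : j - 1 + ((n + 1 : ℕ) : ℤ) = (j - 1 + n) + 1 := by push_cast; ring
    rw [e, Hm_succ (by omega)]
    congr 2
    push_cast
    ring

/-- There are columns on which the oscillation is small. -/
lemma small_osc (hm : 1 ≤ m) {y : ℤ × ℤ} (hyK : y ∈ K) (hyW : y ∈ Wm m) {j₀ : ℤ} (hj : y.1 < j₀)
    {ε : ℝ} (hε : 0 < ε) :
    ∃ j : ℤ, j₀ ≤ j ∧ ∀ z ∈ Cc m j j, ∀ z' ∈ Cc m j j,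
      |hitProb (Wm m) K {y} z - hitProb (Wm m) K {y} z'| ≤ ε := by
  have hy0 := Wm_fst_nonneg hyW
  have hj1 : 1 ≤ j₀ := by omega
  set u := hitProb (Wm m) K {y} with hu
  by_contra hcon
  push Not at hcon
  have hlow : ∀ i : ℕ, ε ^ 2 * (1 / ((j₀ : ℝ) + i)) ≤
      BB (Wm m) u (Cc m (j₀ + i) (j₀ + i)) (Cc m (j₀ + i) (j₀ + i)) := by
    intro i
    obtain ⟨z, hz, z', hz', hlt⟩ := hcon (j₀ + i) (by omega)
    have h1 := col_osc (u := u) hm hz' hz
    have h2 : ε ^ 2 ≤ (u z - u z') ^ 2 := by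
      rw [← sq_abs (u z - u z')]
      exact pow_le_pow_left₀ hε.le hlt.le 2
    have hpos : (0 : ℝ) < (j₀ : ℝ) + i := by
      have h3 : (1 : ℝ) ≤ j₀ := by exact_mod_cast hj1
      have h4 : (0 : ℝ) ≤ i := Nat.cast_nonneg i
      linarith
    have h5 := h2.trans h1
    push_cast at h5
    rw [mul_one_div, div_le_iff₀ hpos]
    linarith
  have hsum : ∀ n : ℕ, ε ^ 2 * (Hm (j₀ - 1 + n) - Hm (j₀ - 1)) ≤ 8 := by
    intro n
    rw [Hm_shift hj1, add_sub_cancel_left, Finset.mul_sum]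
    exact (Finset.sum_le_sum fun i _ => hlow i).trans (energy_col hm hyK hyW hj n)
  obtain ⟨n, hn⟩ := (Hm_tendsto.eventually_gt_atTop (8 / ε ^ 2 + Hm (j₀ - 1))).exists
  have h1 := hsum n
  have h2 : Hm (n : ℤ) ≤ Hm (j₀ - 1 + n) := Hm_mono (by omega)
  have h3 : 8 / ε ^ 2 < Hm (j₀ - 1 + n) - Hm (j₀ - 1) := by linarith
  rw [div_lt_iff₀ (by positivity)] at h3
  linarith

/-- Existence of the harmonic measure from infinity. -/
theorem exists_limit (hm : 1 ≤ m) (h0 : ((0 : ℤ), (0 : ℤ)) ∈ K) (hKW : K ⊆ Wm m) {R₀ : ℤ}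
    (hK : ∀ z ∈ K, z.1 ≤ R₀) {y : ℤ × ℤ} (hyK : y ∈ K) :
    ∃ L : ℝ, Tendsto (hitProb (Wm m) K {y}) (atInfinity (Wm m)) (𝓝 L) := by
  classical
  have hR₀ : 0 ≤ R₀ := by
    have := hK _ h0
    simpa using this
  set u := hitProb (Wm m) K {y} with hu
  set v := hitProb (Wm m) K (K \ {y}) with hv
  have huv : ∀ z ∈ Wm m, u z + v z = 1 := by
    intro z hz
    rw [hu, hv, ← hitProb_union Set.disjoint_sdiff_right hz, Set.union_diff_cancel (by
      intro w hw
      rw [Set.mem_singleton_iff] at hw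
      rw [hw]; exact hyK)]
    exact recurrence hm h0 hR₀ hK hz
  -- Cauchy property
  have hcauchy : ∀ ε : ℝ, 0 < ε → ∃ j : ℤ, ∀ z ∈ Wm m, ∀ z' ∈ Wm m, j ≤ z.1 → j ≤ z'.1 →
      |u z - u z'| ≤ ε := by
    intro ε hε
    obtain ⟨j, hj, hosc⟩ := small_osc hm hyK (hKW hyK) (j₀ := R₀ + 1) (by
      have := hK y hyK
      omega) hε
    have hj0 : 0 ≤ j := by omega
    have hne : (Cc m j j).Nonempty := by
      refine ⟨(j, 0), ?_⟩
      rw [mem_Cc hm, mem_Wm]
      simp [hj0]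
    obtain ⟨zM, hzM, hM⟩ := Finset.exists_max_image (Cc m j j) u hne
    obtain ⟨zm, hzm, hmn⟩ := Finset.exists_min_image (Cc m j j) u hne
    have hzmW := ((mem_Cc hm).1 hzm).1.1
    have hout : ∀ z ∈ Wm m, z ∈ K → z ∉ {w : ℤ × ℤ | j ≤ w.1} := by
      intro z _ hzK hzj
      have h1 := hK z hzK
      have h2 : j ≤ z.1 := hzj
      omega
    have hupper : ∀ z ∈ Wm m, j ≤ z.1 → u z ≤ u zM := by
      intro z hz hzj
      refine hit_max_principle (W := Wm m) (B := K) (T := {y}) (Q := {w : ℤ × ℤ | j ≤ w.1})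
        (M := u zM) (hitProb_nonneg _) (fun z hz hzK _ => hout z hz hzK) ?_ z hz hzj
      rintro w hw hwj ⟨x, hx, hxj⟩
      apply hM
      rw [mem_Cc hm]
      have hb := nbrs_fst_le (mem_nb.1 hx).1
      have h1 : j ≤ w.1 := hwj
      have h2 : ¬ j ≤ x.1 := hxj
      exact ⟨⟨hw, by omega⟩, by omega⟩
    have hlower : ∀ z ∈ Wm m, j ≤ z.1 → u zm ≤ u z := by
      intro z hz hzj
      have h1 : v z ≤ 1 - u zm := by
        refine hit_max_principle (W := Wm m) (B := K) (T := K \ {y}) (Q := {w : ℤ × ℤ | j ≤ w.1})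
          (M := 1 - u zm) (by
            have := hitProb_le_one (B := K) (T := {y}) hzmW
            rw [← hu] at this
            linarith) (fun z hz hzK _ => hout z hz hzK) ?_ z hz hzj
        rintro w hw hwj ⟨x, hx, hxj⟩
        have hb := nbrs_fst_le (mem_nb.1 hx).1
        have h1 : j ≤ w.1 := hwj
        have h2 : ¬ j ≤ x.1 := hxj
        have h3 := hmn w (by
          rw [mem_Cc hm]
          exact ⟨⟨hw, by omega⟩, by omega⟩)
        have h4 := huv w hw
        rw [hv] at h4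
        linarith
      have h2 := huv z hz
      linarith
    refine ⟨j, fun z hz z' hz' hzj hzj' => ?_⟩
    have h1 := hosc zM hzM zm hzm
    have h2 := hupper z hz hzj
    have h3 := hupper z' hz' hzj'
    have h4 := hlower z hz hzj
    have h5 := hlower z' hz' hzj'
    rw [abs_le] at h1 ⊢
    constructor <;> linarith [h1.1, h1.2]
  have hC : Cauchy (Filter.map u (atInfinity (Wm m))) := by
    rw [Metric.cauchy_iff]
    refine ⟨inferInstance, fun ε hε => ?_⟩
    obtain ⟨j, hj⟩ := hcauchy (ε / 2) (by positivity)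
    refine ⟨u '' {z | z ∈ Wm m ∧ j ≤ z.1}, ?_, ?_⟩
    · rw [Filter.mem_map]
      filter_upwards [eventually_far hm j] with z hz
      exact ⟨z, hz, rfl⟩
    · rintro _ ⟨z, hz, rfl⟩ _ ⟨z', hz', rfl⟩
      rw [Real.dist_eq]
      have := hj z hz.1 z' hz'.1 hz.2 hz'.2
      linarith
  exact cauchy_iff_exists_le_nhds.1 hC

/-- The defining limit of the harmonic measure. -/
lemma harmonicMeasure_tendsto (hm : 1 ≤ m) (h0 : ((0 : ℤ), (0 : ℤ)) ∈ K) (hKW : K ⊆ Wm m)
    {R₀ : ℤ} (hK : ∀ z ∈ K, z.1 ≤ R₀) {y : ℤ × ℤ} (hyK : y ∈ K) :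
    Tendsto (hitProb (Wm m) K {y}) (atInfinity (Wm m)) (𝓝 (harmonicMeasure (Wm m) K y)) := by
  obtain ⟨L, hL⟩ := exists_limit hm h0 hKW hK hyK
  have : harmonicMeasure (Wm m) K y = L := hL.limUnder_eq
  rw [this]
  exact hL

/-- A finite connected subset of the wedge containing the origin. -/
structure Good (m : ℕ) (A : Finset (ℤ × ℤ)) : Prop where
  zero : ((0 : ℤ), (0 : ℤ)) ∈ A
  sub : ∀ z ∈ A, z ∈ Wm m
  conn : Conn (A : Set (ℤ × ℤ))

lemma mem_outerBdry {W : Set (ℤ × ℤ)} {A : Finset (ℤ × ℤ)} {y : ℤ × ℤ} :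
    y ∈ outerBdry W A ↔ (∃ x ∈ A, y ∈ nbrs x) ∧ y ∈ W ∧ y ∉ A := by
  classical
  unfold outerBdry
  rw [Finset.mem_filter, Finset.mem_biUnion]

/-- The set `A ∪ ∂A`. -/
def hull (m : ℕ) (A : Finset (ℤ × ℤ)) : Set (ℤ × ℤ) := {z | z ∈ A ∨ z ∈ outerBdry (Wm m) A}

lemma hull_conn {A : Finset (ℤ × ℤ)} (hA : Good m A) : Conn (hull m A) := by
  have hmono : ∀ z, Relation.ReflTransGen
      (fun p q : ℤ × ℤ => q ∈ (A : Set (ℤ × ℤ)) ∧ q ∈ nbrs p) (0, 0) z →
      Relation.ReflTransGen (fun p q : ℤ × ℤ => q ∈ hull m A ∧ q ∈ nbrs p) (0, 0) z := by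
    intro z hz
    exact Relation.ReflTransGen.mono (r := fun p q : ℤ × ℤ => q ∈ (A : Set (ℤ × ℤ)) ∧ q ∈ nbrs p)
      (fun p q h => ⟨Or.inl (Finset.mem_coe.1 h.1), h.2⟩) _ _ hz
  rintro z (hz | hz)
  · exact hmono z (hA.conn z (by exact_mod_cast hz))
  · obtain ⟨⟨x, hx, hxz⟩, _, _⟩ := mem_outerBdry.1 hz
    exact (hmono x (hA.conn x (by exact_mod_cast hx))).tail ⟨Or.inr hz, hxz⟩

lemma hull_sub {A : Finset (ℤ × ℤ)} (hA : Good m A) : hull m A ⊆ Wm m := by
  rintro z (hz | hz)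
  · exact hA.sub z hz
  · exact (mem_outerBdry.1 hz).2.1

lemma hull_zero {A : Finset (ℤ × ℤ)} (hA : Good m A) : ((0 : ℤ), (0 : ℤ)) ∈ hull m A :=
  Or.inl hA.zero

lemma hull_finite (A : Finset (ℤ × ℤ)) : ∃ R₀ : ℤ, ∀ z ∈ hull m A, z.1 ≤ R₀ := by
  classical
  have hfin : (hull m A).Finite := by
    apply Set.Finite.subset (A ∪ outerBdry (Wm m) A).finite_toSet
    rintro z (hz | hz)
    · simp [hz]
    · simp [hz]
  obtain ⟨R₀, hR₀⟩ := (hfin.image Prod.fst).bddAbove
  exact ⟨R₀, fun z hz => hR₀ ⟨z, hz, rfl⟩⟩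

/-- Outside `A`, hitting `∂A` at `y` is the same as hitting `A ∪ ∂A` at `y`. -/
lemma hit_hull {A : Finset (ℤ × ℤ)} {y : ℤ × ℤ} (hy : y ∈ outerBdry (Wm m) A)
    {z : ℤ × ℤ} (hz : z ∈ Wm m) (hzA : z ∉ A) :
    hitProb (Wm m) (outerBdry (Wm m) A) {y} z = hitProb (Wm m) (hull m A) {y} z := by
  classical
  have hyW : y ∈ Wm m := (mem_outerBdry.1 hy).2.1
  have hyA : y ∉ A := (mem_outerBdry.1 hy).2.2
  set u := hitProb (Wm m) (outerBdry (Wm m) A) {y} with hu
  set v := hitProb (Wm m) (hull m A) {y} with hv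
  have hvu : ∀ z ∈ Wm m, v z ≤ u z := by
    apply hitProb_le'
    · intro z _
      exact hitProb_nonneg z
    · intro z hz _ hzy
      rw [Set.mem_singleton_iff] at hzy
      rw [hzy]
      exact le_of_eq (hitProb_of_mem (B := (outerBdry (Wm m) A : Set (ℤ × ℤ))) (T := {y}) hyW
        (Finset.mem_coe.2 hy) (Set.mem_singleton y)).symm
    · intro z hz hzB
      apply le_of_eq
      symm
      exact hitProb_lap hz (fun h => hzB (Or.inr (by exact_mod_cast h)))
  apply le_antisymm _ (hvu z hz)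
  have hle := hitProb_le' (W := Wm m) (B := (outerBdry (Wm m) A : Set (ℤ × ℤ))) (T := {y})
    (f := fun w => if w ∈ A then u w else v w) (by
      intro w _
      split_ifs
      · exact hitProb_nonneg w
      · exact hitProb_nonneg w) (by
      intro w hw _ hwy
      rw [Set.mem_singleton_iff] at hwy
      have e1 : (if w ∈ A then u w else v w) = v w := by
        rw [hwy]
        exact if_neg hyA
      rw [e1, hwy, hv, hitProb_of_mem (T := {y}) hyW (Or.inr hy) (Set.mem_singleton y)]) (by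
      intro w hw hwB
      have hwB' : w ∉ outerBdry (Wm m) A := by exact_mod_cast hwB
      by_cases hwA : w ∈ A
      · have e1 : (if w ∈ A then u w else v w) = u w := if_pos hwA
        rw [← hitProb_lap (T := {y}) hw hwB]
        apply Finset.sum_le_sum
        intro x hx
        rw [e1]
        by_cases hxA : x ∈ A
        · have e2 : (if x ∈ A then u x else v x) = u x := if_pos hxA
          rw [e2]
        · have e2 : (if x ∈ A then u x else v x) = v x := if_neg hxA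
          rw [e2]
          have := hvu x (mem_nb.1 hx).2
          rw [← hu]
          linarith
      · have e1 : (if w ∈ A then u w else v w) = v w := if_neg hwA
        rw [← hitProb_lap (T := {y}) (B := hull m A) hw (by
          rintro (h | h)
          · exact hwA h
          · exact hwB' h)]
        apply Finset.sum_le_sum
        intro x hx
        have hxA : x ∉ A := by
          intro hxA
          apply hwB'
          rw [mem_outerBdry]
          exact ⟨⟨x, hxA, nbrs_symm.1 (mem_nb.1 hx).1⟩, hw, hwA⟩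
        have e2 : (if x ∈ A then u x else v x) = v x := if_neg hxA
        rw [e1, e2])
  have h1 := hle z hz
  have e3 : (if z ∈ A then u z else v z) = v z := if_neg hzA
  rw [e3] at h1
  exact h1

/-- From outside `A`, the walk never hits `A ∪ ∂A` first in `A`. -/
lemma hit_hull_zero {A : Finset (ℤ × ℤ)} {y : ℤ × ℤ} (hy : y ∈ A)
    {z : ℤ × ℤ} (hz : z ∈ Wm m) (hzA : z ∉ A) :
    hitProb (Wm m) (hull m A) {y} z = 0 := by
  classical
  apply le_antisymm _ (hitProb_nonneg z)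
  have hle := hitProb_le' (W := Wm m) (B := hull m A) (T := {y})
    (f := fun w => if w ∈ A then 1 else 0) (by
      intro w _
      by_cases hwA : w ∈ A
      · have e1 : (if w ∈ A then (1 : ℝ) else 0) = 1 := if_pos hwA
        rw [e1]
        norm_num
      · have e1 : (if w ∈ A then (1 : ℝ) else 0) = 0 := if_neg hwA
        rw [e1]) (by
      intro w hw _ hwy
      rw [Set.mem_singleton_iff] at hwy
      have e1 : (if w ∈ A then (1 : ℝ) else 0) = 1 := by
        rw [hwy]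
        exact if_pos hy
      rw [e1]) (by
      intro w hw hwB
      have hwA : w ∉ A := fun h => hwB (Or.inl h)
      have e1 : (if w ∈ A then (1 : ℝ) else 0) = 0 := if_neg hwA
      rw [e1]
      apply Finset.sum_nonneg
      intro x hx
      have hxA : x ∉ A := by
        intro hxA
        apply hwB
        right
        rw [mem_outerBdry]
        exact ⟨⟨x, hxA, nbrs_symm.1 (mem_nb.1 hx).1⟩, hw, hwA⟩
      have e2 : (if x ∈ A then (1 : ℝ) else 0) = 0 := if_neg hxA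
      rw [e2]
      norm_num)
  have h1 := hle z hz
  have e3 : (if z ∈ A then (1 : ℝ) else 0) = 0 := if_neg hzA
  rw [e3] at h1
  exact h1

lemma eventually_notMem (hm : 1 ≤ m) (A : Finset (ℤ × ℤ)) :
    ∀ᶠ z in atInfinity (Wm m), z ∈ Wm m ∧ z ∉ A := by
  obtain ⟨R₀, hR₀⟩ := hull_finite (m := m) A
  filter_upwards [eventually_far hm (R₀ + 1)] with z hz
  refine ⟨hz.1, fun h => ?_⟩
  have := hR₀ z (Or.inl h)
  omega

/-- The harmonic measure of the outer boundary is the limit in its definition and it equals the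
harmonic measure of the hull. -/
lemma outer_tendsto (hm : 1 ≤ m) {A : Finset (ℤ × ℤ)} (hA : Good m A) {y : ℤ × ℤ}
    (hy : y ∈ outerBdry (Wm m) A) :
    Tendsto (hitProb (Wm m) (hull m A) {y}) (atInfinity (Wm m))
      (𝓝 (harmonicMeasure (Wm m) (outerBdry (Wm m) A) y)) := by
  obtain ⟨R₀, hR₀⟩ := hull_finite (m := m) A
  have h1 := harmonicMeasure_tendsto hm (hull_zero hA) (hull_sub hA) hR₀
    (show y ∈ hull m A from Or.inr hy)
  have h2 : Tendsto (hitProb (Wm m) (outerBdry (Wm m) A) {y}) (atInfinity (Wm m))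
      (𝓝 (harmonicMeasure (Wm m) (hull m A) y)) := by
    refine h1.congr' ?_
    filter_upwards [eventually_notMem hm A] with z hz
    exact (hit_hull hy hz.1 hz.2).symm
  have h3 : harmonicMeasure (Wm m) (outerBdry (Wm m) A) y = harmonicMeasure (Wm m) (hull m A) y :=
    h2.limUnder_eq
  rw [h3]
  exact h1

/-- The defining limit exists. -/
theorem outer_limit (hm : 1 ≤ m) {A : Finset (ℤ × ℤ)} (hA : Good m A) {y : ℤ × ℤ}
    (hy : y ∈ outerBdry (Wm m) A) :
    Tendsto (fun x => hitProb (Wm m) (outerBdry (Wm m) A) {y} x) (atInfinity (Wm m))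
      (𝓝 (harmonicMeasure (Wm m) (outerBdry (Wm m) A) y)) := by
  refine (outer_tendsto hm hA hy).congr' ?_
  filter_upwards [eventually_notMem hm A] with z hz
  exact (hit_hull hy hz.1 hz.2).symm

lemma outer_nonneg (hm : 1 ≤ m) {A : Finset (ℤ × ℤ)} (hA : Good m A) {y : ℤ × ℤ}
    (hy : y ∈ outerBdry (Wm m) A) : 0 ≤ harmonicMeasure (Wm m) (outerBdry (Wm m) A) y :=
  ge_of_tendsto' (outer_limit hm hA hy) fun _ => hitProb_nonneg _

/-- The harmonic measure of the outer boundary has total mass one. -/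
theorem outer_sum (hm : 1 ≤ m) {A : Finset (ℤ × ℤ)} (hA : Good m A) :
    ∑ y ∈ outerBdry (Wm m) A, harmonicMeasure (Wm m) (outerBdry (Wm m) A) y = 1 := by
  classical
  obtain ⟨R₀, hR₀⟩ := hull_finite (m := m) A
  have hR₀0 : 0 ≤ R₀ := by
    have := hR₀ _ (hull_zero hA)
    simpa using this
  have h1 : Tendsto (fun z => ∑ y ∈ outerBdry (Wm m) A, hitProb (Wm m) (hull m A) {y} z)
      (atInfinity (Wm m))
      (𝓝 (∑ y ∈ outerBdry (Wm m) A, harmonicMeasure (Wm m) (outerBdry (Wm m) A) y)) :=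
    tendsto_finsetSum _ fun y hy => outer_tendsto hm hA hy
  have h2 : (fun z => ∑ y ∈ outerBdry (Wm m) A, hitProb (Wm m) (hull m A) {y} z)
      =ᶠ[atInfinity (Wm m)] fun _ => 1 := by
    filter_upwards [eventually_notMem hm A] with z hz
    have hrec := recurrence hm (hull_zero hA) hR₀0 hR₀ hz.1
    have hcoe : hull m A = ((A ∪ outerBdry (Wm m) A : Finset (ℤ × ℤ)) : Set (ℤ × ℤ)) := by
      ext w
      simp [hull]
    have hset : hitProb (Wm m) (hull m A) (hull m A) z =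
        ∑ y ∈ A ∪ outerBdry (Wm m) A, hitProb (Wm m) (hull m A) {y} z := by
      rw [← hitProb_finset (B := hull m A) _ hz.1]
      congr 1
    have hdisj : Disjoint A (outerBdry (Wm m) A) := by
      rw [Finset.disjoint_left]
      intro w h1 h2
      exact (mem_outerBdry.1 h2).2.2 h1
    rw [hset, Finset.sum_union hdisj] at hrec
    have hz0 : ∑ y ∈ A, hitProb (Wm m) (hull m A) {y} z = 0 :=
      Finset.sum_eq_zero fun y hy => hit_hull_zero hy hz.1 hz.2
    rw [hz0, zero_add] at hrec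
    exact hrec
  exact tendsto_nhds_unique h1 (tendsto_const_nhds.congr' h2.symm)

/-- Bound on the harmonic measure of a point. -/
theorem outer_bound (hm : 1 ≤ m) {A : Finset (ℤ × ℤ)} (hA : Good m A) {y : ℤ × ℤ}
    (hy : y ∈ outerBdry (Wm m) A) (R : ℕ) (hR : 1 ≤ R) (hAR : ∃ z ∈ A, (R : ℤ) ≤ z.1) :
    harmonicMeasure (Wm m) (outerBdry (Wm m) A) y ^ 2 ≤
      2304 * ((32 * ((m : ℝ) + 1)) / R) ^ pe := by
  obtain ⟨z₁, hz₁, hz₁R⟩ := hAR
  apply le_of_tendsto ((outer_tendsto hm hA hy).pow 2)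
  filter_upwards [eventually_far hm (2 * y.1 + R)] with z hz
  exact hit_bound hm (hull_conn hA) (hull_zero hA) (hull_sub hA) (Or.inr hy) R hR
    ⟨z₁, Or.inl hz₁, hz₁R⟩ z hz.1 hz.2

end Pool.Agent.Lib.MP_cfc8f6_pr
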