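import Mathlib
import Pool.Agent.Lib.MP_cfc8f6_pr.Limit

/-!
Basic structure of a DLA process on the wedge: almost surely the sets are good and each one is
obtained from the previous one by adding a point of the outer boundary; one-step inequality for
expectations of functionals of the history.
-/

open Filter Topology Finset MeasureTheory
open scoped ENNReal

namespace Pool.Agent.Lib.MP_cfc8f6_pr

variable {m : ℕ}

lemma Good.insert {A : Finset (ℤ × ℤ)} (hA : Good m A) {y : ℤ × ℤ}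
    (hy : y ∈ outerBdry (Wm m) A) : Good m (insert y A) := by
  classical
  obtain ⟨⟨x, hx, hxy⟩, hyW, _⟩ := mem_outerBdry.1 hy
  refine ⟨Finset.mem_insert_of_mem hA.zero, ?_, ?_⟩
  · intro z hz
    rcases Finset.mem_insert.1 hz with rfl | hz
    · exact hyW
    · exact hA.sub z hz
  · have hmono : ∀ z, Relation.ReflTransGen
        (fun p q : ℤ × ℤ => q ∈ (A : Set (ℤ × ℤ)) ∧ q ∈ nbrs p) (0, 0) z →
        Relation.ReflTransGen (fun p q : ℤ × ℤ =>
          q ∈ ((Insert.insert y A : Finset (ℤ × ℤ)) : Set (ℤ × ℤ)) ∧ q ∈ nbrs p) (0, 0) z := by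
      intro z hz
      refine Relation.ReflTransGen.mono
        (r := fun p q : ℤ × ℤ => q ∈ (A : Set (ℤ × ℤ)) ∧ q ∈ nbrs p) ?_ _ _ hz
      intro p q h
      exact ⟨Finset.mem_coe.2 (Finset.mem_insert_of_mem (Finset.mem_coe.1 h.1)), h.2⟩
    intro z hz
    rcases Finset.mem_insert.1 (Finset.mem_coe.1 hz) with rfl | hz
    · exact (hmono x (hA.conn x (Finset.mem_coe.2 hx))).tail ⟨by simp, hxy⟩
    · exact hmono z (hA.conn z (Finset.mem_coe.2 hz))

lemma good_singleton : Good m {((0 : ℤ), (0 : ℤ))} := by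
  refine ⟨by simp, ?_, ?_⟩
  · intro z hz
    rw [Finset.mem_singleton] at hz
    rw [hz, mem_Wm]
    simp
  · intro z hz
    rw [Finset.mem_coe, Finset.mem_singleton] at hz
    rw [hz]

variable {Ω : Type*} [MeasurableSpace Ω] {P : Measure Ω} {A : ℕ → Ω → Finset (ℤ × ℤ)}

/-- The event that the history up to time `n` is `s`. -/
def Hist (A : ℕ → Ω → Finset (ℤ × ℤ)) (n : ℕ) (s : ℕ → Finset (ℤ × ℤ)) : Set Ω :=
  {ω | ∀ i ≤ n, A i ω = s i}

lemma measurableSet_hist {W : Set (ℤ × ℤ)} (hA : IsDLA W P A) (n : ℕ)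
    (s : ℕ → Finset (ℤ × ℤ)) : MeasurableSet (Hist A n s) := by
  have : Hist A n s = ⋂ i ∈ Finset.range (n + 1), {ω | A i ω = s i} := by
    ext ω
    simp only [Hist, Set.mem_setOf_eq, Set.mem_iInter, Finset.mem_range]
    constructor
    · intro h i hi
      exact h i (by omega)
    · intro h i hi
      exact h i (by omega)
  rw [this]
  exact Finset.measurableSet_biInter _ fun i _ => hA.meas i (s i)

/-- Extension of a finite history. -/
def extH (n : ℕ) (h : Fin (n + 1) → Finset (ℤ × ℤ)) : ℕ → Finset (ℤ × ℤ) :=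
  fun i => if hi : i < n + 1 then h ⟨i, hi⟩ else ∅

lemma extH_of_le {n i : ℕ} (hi : i ≤ n) (h : Fin (n + 1) → Finset (ℤ × ℤ)) :
    extH n h i = h ⟨i, by omega⟩ := by
  unfold extH
  rw [dif_pos (by omega)]

lemma mem_hist_self (n : ℕ) (ω : Ω) : ω ∈ Hist A n (extH n fun i => A i ω) := by
  intro i hi
  rw [extH_of_le hi]

lemma iUnion_hist (n : ℕ) : ⋃ h : Fin (n + 1) → Finset (ℤ × ℤ), Hist A n (extH n h) =
    Set.univ := by
  rw [Set.eq_univ_iff_forall]
  intro ω
  exact Set.mem_iUnion.2 ⟨_, mem_hist_self n ω⟩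

lemma disjoint_hist (n : ℕ) : Pairwise (Function.onFun Disjoint
    fun h : Fin (n + 1) → Finset (ℤ × ℤ) => Hist A n (extH n h)) := by
  intro h h' hne
  rw [Function.onFun, Set.disjoint_left]
  intro ω h1 h2
  apply hne
  funext i
  have e1 := h1 i (by omega)
  have e2 := h2 i (by omega)
  rw [extH_of_le (by omega)] at e1 e2
  rw [← e1, ← e2]

lemma insert_inj {s : Finset (ℤ × ℤ)} {y y' : ℤ × ℤ} (hy : y ∉ s)
    (h : insert y s = insert y' s) : y = y' := by
  have : y ∈ insert y' s := by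
    rw [← h]
    exact Finset.mem_insert_self _ _
  rcases Finset.mem_insert.1 this with h | h
  · exact h
  · exact absurd h hy

/-- The event that the history is `s` and the next point is `y`. -/
def HistStep (A : ℕ → Ω → Finset (ℤ × ℤ)) (n : ℕ) (s : ℕ → Finset (ℤ × ℤ)) (y : ℤ × ℤ) : Set Ω :=
  {ω | (∀ i ≤ n, A i ω = s i) ∧ A (n + 1) ω = insert y (s n)}

lemma measurableSet_histStep {W : Set (ℤ × ℤ)} (hA : IsDLA W P A) (n : ℕ)
    (s : ℕ → Finset (ℤ × ℤ)) (y : ℤ × ℤ) : MeasurableSet (HistStep A n s y) :=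
  (measurableSet_hist hA n s).inter (hA.meas (n + 1) (insert y (s n)))

lemma pairwiseDisjoint_histStep {W : Set (ℤ × ℤ)} (n : ℕ) (s : ℕ → Finset (ℤ × ℤ)) :
    Set.PairwiseDisjoint (outerBdry W (s n) : Set (ℤ × ℤ)) (HistStep A n s) := by
  intro y hy y' _ hne
  rw [Function.onFun, Set.disjoint_left]
  intro ω h1 h2
  apply hne
  have hy' : y ∉ s n := (mem_outerBdry.1 (Finset.mem_coe.1 hy)).2.2
  exact insert_inj hy' (h1.2.symm.trans h2.2)

lemma sum_ofReal (hm : 1 ≤ m) {B : Finset (ℤ × ℤ)} (hB : Good m B) :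
    ∑ y ∈ outerBdry (Wm m) B, ENNReal.ofReal (harmonicMeasure (Wm m) (outerBdry (Wm m) B) y)
      = 1 := by
  rw [← ENNReal.ofReal_sum_of_nonneg fun y hy => outer_nonneg hm hB hy, outer_sum hm hB,
    ENNReal.ofReal_one]

variable [IsProbabilityMeasure P]

lemma hist_ae_eq (hm : 1 ≤ m) (hA : IsDLA (Wm m) P A) {n : ℕ} {s : ℕ → Finset (ℤ × ℤ)}
    (hs : Good m (s n)) :
    (⋃ y ∈ outerBdry (Wm m) (s n), HistStep A n s y : Set Ω) =ᵐ[P] Hist A n s := by
  have hmeas : MeasurableSet (⋃ y ∈ outerBdry (Wm m) (s n), HistStep A n s y : Set Ω) :=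
    Finset.measurableSet_biUnion _ fun y _ => measurableSet_histStep hA n s y
  apply ae_eq_of_subset_of_measure_ge _ _ hmeas.nullMeasurableSet (measure_ne_top P _)
  · intro ω hω
    simp only [Set.mem_iUnion] at hω
    obtain ⟨y, _, h⟩ := hω
    exact h.1
  · rw [measure_biUnion_finset (pairwiseDisjoint_histStep n s)
      fun y _ => measurableSet_histStep hA n s y]
    have : ∀ y ∈ outerBdry (Wm m) (s n), P (HistStep A n s y) = P (Hist A n s) *
        ENNReal.ofReal (harmonicMeasure (Wm m) (outerBdry (Wm m) (s n)) y) :=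
      fun y hy => hA.step n s y hy
    rw [Finset.sum_congr rfl this, ← Finset.mul_sum, sum_ofReal hm hs, mul_one]

lemma step_ae (hm : 1 ≤ m) (hA : IsDLA (Wm m) P A) {n : ℕ} {s : ℕ → Finset (ℤ × ℤ)}
    (hs : Good m (s n)) :
    ∀ᵐ ω ∂P, ω ∈ Hist A n s → ∃ y ∈ outerBdry (Wm m) (s n), A (n + 1) ω = insert y (s n) := by
  filter_upwards [hist_ae_eq hm hA hs] with ω hω hmem
  have h1 : ω ∈ (⋃ y ∈ outerBdry (Wm m) (s n), HistStep A n s y : Set Ω) := by
    have h2 : (⋃ y ∈ outerBdry (Wm m) (s n), HistStep A n s y : Set Ω) ω = Hist A n s ω := hω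
    have h3 : Hist A n s ω := hmem
    rw [← h2] at h3
    exact h3
  simp only [Set.mem_iUnion] at h1
  obtain ⟨y, hy, h⟩ := h1
  exact ⟨y, hy, h.2⟩

lemma step_ae' (hm : 1 ≤ m) (hA : IsDLA (Wm m) P A) (n : ℕ) :
    ∀ᵐ ω ∂P, Good m (A n ω) →
      ∃ y ∈ outerBdry (Wm m) (A n ω), A (n + 1) ω = insert y (A n ω) := by
  have h : ∀ᵐ ω ∂P, ∀ h : Fin (n + 1) → Finset (ℤ × ℤ), Good m (extH n h n) →
      ω ∈ Hist A n (extH n h) →
        ∃ y ∈ outerBdry (Wm m) (extH n h n), A (n + 1) ω = insert y (extH n h n) := by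
    rw [ae_all_iff]
    intro h
    by_cases hg : Good m (extH n h n)
    · filter_upwards [step_ae hm hA hg] with ω hω _ hmem
      exact hω hmem
    · filter_upwards with ω hg'
      exact absurd hg' hg
  filter_upwards [h] with ω hω hg
  have e : extH n (fun i => A i ω) n = A n ω := extH_of_le le_rfl _
  have h1 := hω (fun i => A i ω) (by rw [e]; exact hg) (mem_hist_self n ω)
  rw [e] at h1
  exact h1

/-- Almost surely, the process starts at the origin, all its sets are good, and each set is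
obtained from the previous one by adding a point of its outer boundary. -/
theorem path_ae (hm : 1 ≤ m) (hA : IsDLA (Wm m) P A) :
    ∀ᵐ ω ∂P, A 0 ω = {((0 : ℤ), (0 : ℤ))} ∧ ∀ n, Good m (A n ω) ∧
      ∃ y ∈ outerBdry (Wm m) (A n ω), A (n + 1) ω = insert y (A n ω) := by
  have h0 : ∀ᵐ ω ∂P, A 0 ω = {((0 : ℤ), (0 : ℤ))} := by
    rw [ae_iff_measure_eq (hA.meas 0 _).nullMeasurableSet, hA.zero, measure_univ]
  have h1 : ∀ᵐ ω ∂P, ∀ n, Good m (A n ω) →
      ∃ y ∈ outerBdry (Wm m) (A n ω), A (n + 1) ω = insert y (A n ω) :=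
    ae_all_iff.2 fun n => step_ae' hm hA n
  filter_upwards [h0, h1] with ω hω0 hω1
  have hg : ∀ n, Good m (A n ω) := by
    intro n
    induction n with
    | zero =>
      rw [hω0]
      exact good_singleton
    | succ n ih =>
      obtain ⟨y, hy, hy'⟩ := hω1 n ih
      rw [hy']
      exact ih.insert hy
  exact ⟨hω0, fun n => ⟨hg n, hω1 n (hg n)⟩⟩

/-- `F` depends only on the coordinates up to `n`. -/
def DepLE (F : (ℕ → Finset (ℤ × ℤ)) → ℝ≥0∞) (n : ℕ) : Prop :=
  ∀ s s' : ℕ → Finset (ℤ × ℤ), (∀ i ≤ n, s i = s' i) → F s = F s'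

omit [IsProbabilityMeasure P] in
lemma setLIntegral_hist {W : Set (ℤ × ℤ)} (hA : IsDLA W P A)
    {F : (ℕ → Finset (ℤ × ℤ)) → ℝ≥0∞} {n : ℕ} (hF : DepLE F n) (s : ℕ → Finset (ℤ × ℤ)) :
    ∫⁻ ω in Hist A n s, F (fun i => A i ω) ∂P = F s * P (Hist A n s) := by
  rw [setLIntegral_congr_fun (g := fun _ => F s) (measurableSet_hist hA n s), setLIntegral_const]
  intro ω hω
  exact hF _ _ fun i hi => hω i hi

omit [IsProbabilityMeasure P] in
lemma setLIntegral_histStep {W : Set (ℤ × ℤ)} (hA : IsDLA W P A)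
    {F : (ℕ → Finset (ℤ × ℤ)) → ℝ≥0∞} {n : ℕ} (hF : DepLE F (n + 1)) (s : ℕ → Finset (ℤ × ℤ))
    (y : ℤ × ℤ) :
    ∫⁻ ω in HistStep A n s y, F (fun i => A i ω) ∂P =
      F (Function.update s (n + 1) (insert y (s n))) * P (HistStep A n s y) := by
  rw [setLIntegral_congr_fun (g := fun _ => F (Function.update s (n + 1) (insert y (s n))))
    (measurableSet_histStep hA n s y), setLIntegral_const]
  intro ω hω
  apply hF
  intro i hi
  rcases Nat.lt_or_ge n i with h | h
  · have : i = n + 1 := by omega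
    subst this
    rw [Function.update_self]
    exact hω.2
  · rw [Function.update_of_ne (by omega)]
    exact hω.1 i h

/-- The one-step inequality. -/
theorem one_step (hm : 1 ≤ m) (hA : IsDLA (Wm m) P A) {F G : (ℕ → Finset (ℤ × ℤ)) → ℝ≥0∞} {n : ℕ}
    (hF : DepLE F (n + 1)) (hG : DepLE G n)
    (hFG : ∀ s : ℕ → Finset (ℤ × ℤ), Good m (s n) →
      ∑ y ∈ outerBdry (Wm m) (s n),
        ENNReal.ofReal (harmonicMeasure (Wm m) (outerBdry (Wm m) (s n)) y) *
          F (Function.update s (n + 1) (insert y (s n))) ≤ G s) :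
    ∫⁻ ω, F (fun i => A i ω) ∂P ≤ ∫⁻ ω, G (fun i => A i ω) ∂P := by
  have hsplit : ∀ f : Ω → ℝ≥0∞, ∫⁻ ω, f ω ∂P =
      ∑' h : Fin (n + 1) → Finset (ℤ × ℤ), ∫⁻ ω in Hist A n (extH n h), f ω ∂P := by
    intro f
    rw [← lintegral_iUnion (fun h => measurableSet_hist hA n _) (disjoint_hist n), iUnion_hist,
      setLIntegral_univ]
  rw [hsplit, hsplit]
  apply ENNReal.tsum_le_tsum
  intro h
  rw [setLIntegral_hist hA hG]
  by_cases hg : Good m (extH n h n)
  · rw [setLIntegral_congr (hist_ae_eq hm hA hg).symm,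
      lintegral_biUnion_finset (pairwiseDisjoint_histStep n _)
        fun y _ => measurableSet_histStep hA n _ y]
    have e : ∀ y ∈ outerBdry (Wm m) (extH n h n),
        ∫⁻ ω in HistStep A n (extH n h) y, F (fun i => A i ω) ∂P =
        (ENNReal.ofReal (harmonicMeasure (Wm m) (outerBdry (Wm m) (extH n h n)) y) *
          F (Function.update (extH n h) (n + 1) (insert y (extH n h n)))) *
            P (Hist A n (extH n h)) := by
      intro y hy
      rw [setLIntegral_histStep hA hF]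
      have e1 : P (HistStep A n (extH n h) y) = P (Hist A n (extH n h)) *
        ENNReal.ofReal (harmonicMeasure (Wm m) (outerBdry (Wm m) (extH n h n)) y) :=
        hA.step n _ y hy
      rw [e1]
      ring
    rw [Finset.sum_congr rfl e, ← Finset.sum_mul]
    gcongr
    exact hFG _ hg
  · have hzero : P (Hist A n (extH n h)) = 0 := by
      have h1 : ∀ᵐ ω ∂P, ω ∉ Hist A n (extH n h) := by
        filter_upwards [path_ae hm hA] with ω hω hmem
        apply hg
        have := hmem n le_rfl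
        rw [← this]
        exact (hω.2 n).1
      rw [ae_iff] at h1
      simpa using h1
    rw [Measure.restrict_eq_zero.2 hzero]
    simp

end Pool.Agent.Lib.MP_cfc8f6_pr
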