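import Mathlib
import Pool.Agent.Lib.MP_cfc8f6_pr.Process

/-!
Path-counting weights and the bound for the probability that the aggregate grows fast.
-/

open Filter Topology Finset MeasureTheory
open scoped ENNReal

namespace Pool.Agent.Lib.MP_cfc8f6_pr

variable {m : ℕ}

open Classical in
/-- Weighted number of chains of points added after the aggregate reached column `R`. -/
noncomputable def cw (R : ℤ) (x : ℝ≥0∞) (s : ℕ → Finset (ℤ × ℤ)) : ℕ → (ℤ × ℤ) → ℝ≥0∞
  | 0, _ => 0
  | n + 1, z =>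
    if z ∈ s n then cw R x s n z
    else if z ∈ s (n + 1) ∧ ∃ w ∈ s n, R ≤ w.1 then
      x * (1 + ∑ w ∈ (nbrs z).filter (fun w => w ∈ s n), cw R x s n w)
    else 0

variable {R : ℤ} {x : ℝ≥0∞}

lemma cw_congr {s s' : ℕ → Finset (ℤ × ℤ)} {n : ℕ} (h : ∀ i ≤ n, s i = s' i) :
    ∀ z, cw R x s n z = cw R x s' n z := by
  induction n with
  | zero => intro z; rfl
  | succ n ih =>
    intro z
    have ih' := ih fun i hi => h i (by omega)
    simp only [cw]
    rw [h n (by omega), h (n + 1) le_rfl, ih' z]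
    simp only [ih']

/-- Total weight. -/
noncomputable def TW (R : ℤ) (x : ℝ≥0∞) (n : ℕ) (s : ℕ → Finset (ℤ × ℤ)) : ℝ≥0∞ :=
  ∑ z ∈ s n, cw R x s n z

lemma depLE_TW (n : ℕ) : DepLE (TW R x n) n := by
  intro s s' h
  unfold TW
  rw [h n le_rfl]
  exact Finset.sum_congr rfl fun z _ => cw_congr h z

lemma double_count {B S : Finset (ℤ × ℤ)} (c : ℤ × ℤ → ℝ≥0∞) :
    ∑ y ∈ S, ∑ w ∈ (nbrs y).filter (fun w => w ∈ B), c w ≤ 4 * ∑ w ∈ B, c w := by
  classical
  have h1 : ∀ y ∈ S, ∑ w ∈ (nbrs y).filter (fun w => w ∈ B), c w =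
      ∑ w ∈ B, if y ∈ nbrs w then c w else 0 := by
    intro y _
    rw [← Finset.sum_filter]
    apply Finset.sum_congr _ fun _ _ => rfl
    ext w
    simp only [Finset.mem_filter]
    constructor
    · rintro ⟨h1, h2⟩
      exact ⟨h2, nbrs_symm.1 h1⟩
    · rintro ⟨h1, h2⟩
      exact ⟨nbrs_symm.1 h2, h1⟩
  rw [Finset.sum_congr rfl h1, Finset.sum_comm, Finset.mul_sum]
  apply Finset.sum_le_sum
  intro w _
  rw [← Finset.sum_filter, Finset.sum_const, nsmul_eq_mul]
  gcongr
  have h2 : (S.filter (fun y => y ∈ nbrs w)).card ≤ (nbrs w).card := by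
    apply Finset.card_le_card
    intro y hy
    exact (Finset.mem_filter.1 hy).2
  have h3 : (S.filter (fun y => y ∈ nbrs w)).card ≤ 4 := h2.trans (card_nbrs_le w)
  exact_mod_cast h3

/-- The one-step computation for the total weight. -/
lemma TW_step (hm : 1 ≤ m) {p : ℝ≥0∞}
    (hp : ∀ B : Finset (ℤ × ℤ), Good m B → (∃ w ∈ B, R ≤ w.1) → ∀ y ∈ outerBdry (Wm m) B,
      ENNReal.ofReal (harmonicMeasure (Wm m) (outerBdry (Wm m) B) y) ≤ p)
    (n : ℕ) (s : ℕ → Finset (ℤ × ℤ)) (hs : Good m (s n)) :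
    ∑ y ∈ outerBdry (Wm m) (s n),
        ENNReal.ofReal (harmonicMeasure (Wm m) (outerBdry (Wm m) (s n)) y) *
          TW R x (n + 1) (Function.update s (n + 1) (insert y (s n))) ≤
      (1 + 4 * x * p) * TW R x n s + x := by
  classical
  set H : ℤ × ℤ → ℝ≥0∞ := fun y =>
    ENNReal.ofReal (harmonicMeasure (Wm m) (outerBdry (Wm m) (s n)) y) with hH
  have hsum : ∑ y ∈ outerBdry (Wm m) (s n), H y = 1 := sum_ofReal hm hs
  have hT : ∀ y ∈ outerBdry (Wm m) (s n),
      TW R x (n + 1) (Function.update s (n + 1) (insert y (s n))) =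
        (if ∃ w ∈ s n, R ≤ w.1 then
          x * (1 + ∑ w ∈ (nbrs y).filter (fun w => w ∈ s n), cw R x s n w) else 0) +
          TW R x n s := by
    intro y hy
    have hyn : y ∉ s n := (mem_outerBdry.1 hy).2.2
    set s' := Function.update s (n + 1) (insert y (s n)) with hs'
    have e0 : ∀ i ≤ n, s' i = s i := by
      intro i hi
      rw [hs', Function.update_of_ne (by omega)]
    have e1 : s' (n + 1) = insert y (s n) := by rw [hs', Function.update_self]
    have e2 : s' n = s n := e0 n le_rfl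
    unfold TW
    rw [e1, Finset.sum_insert hyn]
    congr 1
    · simp only [cw]
      rw [e2, if_neg hyn]
      have e3 : (y ∈ s' (n + 1) ∧ ∃ w ∈ s n, R ≤ w.1) ↔ ∃ w ∈ s n, R ≤ w.1 := by
        rw [e1]
        simp
      simp only [e3]
      have e4 : ∀ w, cw R x s' n w = cw R x s n w := cw_congr e0
      simp only [e4]
    · apply Finset.sum_congr rfl
      intro z hz
      simp only [cw]
      rw [e2, if_pos hz]
      exact cw_congr e0 z
  have hT' : ∀ y ∈ outerBdry (Wm m) (s n),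
      H y * TW R x (n + 1) (Function.update s (n + 1) (insert y (s n))) =
        H y * (if ∃ w ∈ s n, R ≤ w.1 then
          x * (1 + ∑ w ∈ (nbrs y).filter (fun w => w ∈ s n), cw R x s n w) else 0) +
          H y * TW R x n s := by
    intro y hy
    rw [hT y hy, mul_add]
  rw [Finset.sum_congr rfl hT', Finset.sum_add_distrib, ← Finset.sum_mul, hsum, one_mul, add_mul,
    one_mul, add_comm, add_assoc]
  gcongr
  by_cases hR : ∃ w ∈ s n, R ≤ w.1
  · simp only [if_pos hR]
    have h1 : ∀ y ∈ outerBdry (Wm m) (s n),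
        H y * (x * (1 + ∑ w ∈ (nbrs y).filter (fun w => w ∈ s n), cw R x s n w)) ≤
        x * H y + x * p * ∑ w ∈ (nbrs y).filter (fun w => w ∈ s n), cw R x s n w := by
      intro y hy
      have h2 : H y ≤ p := hp (s n) hs hR y hy
      calc H y * (x * (1 + ∑ w ∈ (nbrs y).filter (fun w => w ∈ s n), cw R x s n w))
          = x * H y + x * H y * ∑ w ∈ (nbrs y).filter (fun w => w ∈ s n), cw R x s n w := by ring
        _ ≤ _ := by gcongr
    refine (Finset.sum_le_sum h1).trans ?_
    rw [Finset.sum_add_distrib, ← Finset.mul_sum, ← Finset.mul_sum, hsum, mul_one, add_comm]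
    refine add_le_add ?_ le_rfl
    calc x * p * ∑ y ∈ outerBdry (Wm m) (s n),
          ∑ w ∈ (nbrs y).filter (fun w => w ∈ s n), cw R x s n w
        ≤ x * p * (4 * ∑ w ∈ s n, cw R x s n w) := by
          gcongr
          exact double_count _
      _ = 4 * x * p * TW R x n s := by
          unfold TW
          ring
  · simp only [if_neg hR, mul_zero, Finset.sum_const_zero]
    exact zero_le

/-- Lower bound of the weights along an admissible path. -/
lemma cw_lower {s : ℕ → Finset (ℤ × ℤ)} (h0 : s 0 = {((0 : ℤ), (0 : ℤ))})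
    (hstep : ∀ n, ∃ y ∈ outerBdry (Wm m) (s n), s (n + 1) = insert y (s n)) (hR : 0 ≤ R)
    (hx : 1 ≤ x) (n : ℕ) :
    ∀ z ∈ s n, ∀ j : ℕ, 1 ≤ j → z.1 = R + j → x ^ j ≤ cw R x s n z := by
  classical
  induction n with
  | zero =>
    intro z hz j hj hzj
    rw [h0, Finset.mem_singleton] at hz
    rw [hz] at hzj
    simp only at hzj
    omega
  | succ n ih =>
    intro z hz j hj hzj
    simp only [cw]
    by_cases hzn : z ∈ s n
    · rw [if_pos hzn]
      exact ih z hzn j hj hzj
    · rw [if_neg hzn]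
      obtain ⟨y, hy, hy'⟩ := hstep n
      have hzy : z = y := by
        rw [hy'] at hz
        rcases Finset.mem_insert.1 hz with h | h
        · exact h
        · exact absurd h hzn
      obtain ⟨⟨w, hw, hwy⟩, _, _⟩ := mem_outerBdry.1 hy
      rw [← hzy] at hwy
      have hb := nbrs_fst_le hwy
      have hwR : R ≤ w.1 := by omega
      rw [if_pos ⟨hz, w, hw, hwR⟩]
      have hwmem : w ∈ (nbrs z).filter (fun w => w ∈ s n) :=
        Finset.mem_filter.2 ⟨nbrs_symm.1 hwy, hw⟩
      by_cases hj1 : j = 1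
      · subst hj1
        rw [pow_one]
        calc x = x * 1 := (mul_one x).symm
          _ ≤ _ := by
            gcongr
            exact le_self_add
      · obtain ⟨j', rfl⟩ : ∃ j', j = j' + 1 := ⟨j - 1, by omega⟩
        have hj' : 1 ≤ j' := by omega
        obtain ⟨k, hk⟩ : ∃ k : ℕ, w.1 = R + k := ⟨(w.1 - R).toNat, by omega⟩
        have hkj : j' ≤ k := by
          push_cast at hzj
          omega
        have h1 : x ^ k ≤ cw R x s n w := ih w hw k (by omega) hk
        have h2 : x ^ j' ≤ x ^ k := pow_le_pow_right₀ hx hkj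
        have h3 : cw R x s n w ≤ ∑ w ∈ (nbrs z).filter (fun w => w ∈ s n), cw R x s n w :=
          Finset.single_le_sum (f := fun w => cw R x s n w) (fun _ _ => zero_le) hwmem
        calc x ^ (j' + 1) = x * x ^ j' := by ring
          _ ≤ x * (1 + ∑ w ∈ (nbrs z).filter (fun w => w ∈ s n), cw R x s n w) := by
            gcongr
            exact (h2.trans (h1.trans h3)).trans le_add_self

variable {Ω : Type*} [MeasurableSpace Ω] {P : Measure Ω} {A : ℕ → Ω → Finset (ℤ × ℤ)}
  [IsProbabilityMeasure P]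

omit [IsProbabilityMeasure P] in
lemma measurable_of_depLE {W : Set (ℤ × ℤ)} (hA : IsDLA W P A)
    {F : (ℕ → Finset (ℤ × ℤ)) → ℝ≥0∞} {n : ℕ} (hF : DepLE F n) :
    Measurable fun ω => F (fun i => A i ω) := by
  intro t _
  have : (fun ω => F (fun i => A i ω)) ⁻¹' t =
      ⋃ h ∈ {h : Fin (n + 1) → Finset (ℤ × ℤ) | F (extH n h) ∈ t}, Hist A n (extH n h) := by
    ext ω
    simp only [Set.mem_preimage, Set.mem_iUnion, exists_prop]
    constructor
    · intro hω
      refine ⟨fun i => A i ω, ?_, mem_hist_self n ω⟩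
      have e : F (extH n fun i => A i ω) = F (fun i => A i ω) := by
        apply hF
        intro i hi
        exact extH_of_le hi _
      show F (extH n fun i => A i ω) ∈ t
      rw [e]
      exact hω
    · rintro ⟨h, ht, hmem⟩
      have e : F (fun i => A i ω) = F (extH n h) := hF _ _ fun i hi => hmem i hi
      rw [e]
      exact ht
  rw [this]
  exact MeasurableSet.biUnion (Set.to_countable _) fun h _ => measurableSet_hist hA n _

lemma expect_TW (hm : 1 ≤ m) (hA : IsDLA (Wm m) P A) {p : ℝ≥0∞}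
    (hp : ∀ B : Finset (ℤ × ℤ), Good m B → (∃ w ∈ B, R ≤ w.1) → ∀ y ∈ outerBdry (Wm m) B,
      ENNReal.ofReal (harmonicMeasure (Wm m) (outerBdry (Wm m) B) y) ≤ p) (n : ℕ) :
    ∫⁻ ω, TW R x n (fun i => A i ω) ∂P ≤ n * x * (1 + 4 * x * p) ^ n := by
  induction n with
  | zero =>
    have : ∀ ω, TW R x 0 (fun i => A i ω) = 0 := by
      intro ω
      unfold TW
      exact Finset.sum_eq_zero fun _ _ => rfl
    simp [this]
  | succ n ih =>
    have h1 := one_step hm hA (F := TW R x (n + 1))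
      (G := fun s => (1 + 4 * x * p) * TW R x n s + x) (n := n) (depLE_TW (n + 1)) (by
        intro s s' h
        simp only
        rw [depLE_TW n s s' h]) (fun s hs => TW_step hm hp n s hs)
    have hmeas : Measurable fun ω => TW R x n (fun i => A i ω) :=
      measurable_of_depLE hA (depLE_TW n)
    rw [lintegral_add_right _ measurable_const, lintegral_const_mul _ hmeas, lintegral_const,
      measure_univ, mul_one] at h1
    refine h1.trans ?_
    have h2 : (1 : ℝ≥0∞) ≤ (1 + 4 * x * p) ^ (n + 1) := one_le_pow₀ le_self_add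
    calc (1 + 4 * x * p) * ∫⁻ ω, TW R x n (fun i => A i ω) ∂P + x
        ≤ (1 + 4 * x * p) * (n * x * (1 + 4 * x * p) ^ n) + x * (1 + 4 * x * p) ^ (n + 1) := by
          gcongr
          calc x = x * 1 := (mul_one x).symm
            _ ≤ _ := by gcongr
      _ = ((n + 1 : ℕ) : ℝ≥0∞) * x * (1 + 4 * x * p) ^ (n + 1) := by
          push_cast
          ring

/-- The probability that the aggregate reaches column `2 R` before time `n`. -/
theorem prob_reach (hm : 1 ≤ m) (hA : IsDLA (Wm m) P A) {p : ℝ≥0∞} {R : ℕ} (hR : 1 ≤ R)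
    (hp : ∀ B : Finset (ℤ × ℤ), Good m B → (∃ w ∈ B, (R : ℤ) ≤ w.1) → ∀ y ∈ outerBdry (Wm m) B,
      ENNReal.ofReal (harmonicMeasure (Wm m) (outerBdry (Wm m) B) y) ≤ p) (hx : 1 ≤ x) (n : ℕ) :
    x ^ R * P {ω | ∃ z ∈ A n ω, 2 * (R : ℤ) ≤ z.1} ≤ n * x * (1 + 4 * x * p) ^ n := by
  classical
  have hmeas : MeasurableSet {ω | ∃ z ∈ A n ω, 2 * (R : ℤ) ≤ z.1} := by
    have : {ω | ∃ z ∈ A n ω, 2 * (R : ℤ) ≤ z.1} =
        ⋃ s ∈ {s : Finset (ℤ × ℤ) | ∃ z ∈ s, 2 * (R : ℤ) ≤ z.1}, {ω | A n ω = s} := by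
      ext ω
      simp
    rw [this]
    exact MeasurableSet.biUnion (Set.to_countable _) fun s _ => hA.meas n s
  refine le_trans ?_ (expect_TW (R := (R : ℤ)) hm hA hp n)
  rw [← setLIntegral_const]
  refine le_trans ?_ (setLIntegral_le_lintegral {ω | ∃ z ∈ A n ω, 2 * (R : ℤ) ≤ z.1} _)
  apply setLIntegral_mono_ae' hmeas
  filter_upwards [path_ae hm hA] with ω hω hmem
  obtain ⟨z, hz, hzR⟩ := hmem
  obtain ⟨k, hk⟩ : ∃ k : ℕ, z.1 = (R : ℤ) + k := ⟨(z.1 - R).toNat, by omega⟩
  have h1 := cw_lower (R := (R : ℤ)) (m := m) (s := fun i => A i ω) hω.1 (fun n => (hω.2 n).2)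
    (by omega) hx n z hz k (by omega) hk
  have h2 : x ^ R ≤ x ^ k := pow_le_pow_right₀ hx (by omega)
  refine (h2.trans h1).trans ?_
  unfold TW
  exact Finset.single_le_sum (f := fun z => cw (R : ℤ) x (fun i => A i ω) n z)
    (fun _ _ => zero_le) hz

end Pool.Agent.Lib.MP_cfc8f6_pr
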