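import Mathlib
import Pool.Agent.Lib.MP_cfc8f6_pr.Weights

/-!
Almost sure upper bound for the growth rate of DLA on the wedge.
-/

open Filter Topology Finset MeasureTheory
open scoped ENNReal

namespace Pool.Agent.Lib.MP_cfc8f6_pr

variable {m : ℕ}

/-- The column scale at time `N`. -/
noncomputable def RN (m N : ℕ) : ℕ := ⌈3072 * ((m : ℝ) + 1) * (N : ℝ) ^ (168 / 169 : ℝ)⌉₊

lemma le_RN (m N : ℕ) : 3072 * ((m : ℝ) + 1) * (N : ℝ) ^ (168 / 169 : ℝ) ≤ RN m N :=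
  Nat.le_ceil _

lemma rpow_pos_of_one_le {N : ℕ} (hN : 1 ≤ N) (a : ℝ) : 0 < (N : ℝ) ^ a :=
  Real.rpow_pos_of_pos (by exact_mod_cast hN) a

lemma one_le_RN {N : ℕ} (hN : 1 ≤ N) : 1 ≤ RN m N := by
  unfold RN
  rw [Nat.one_le_ceil_iff]
  have := rpow_pos_of_one_le hN (168 / 169)
  positivity

lemma outer_bound_le (hm : 1 ≤ m) {N : ℕ} (hN : 1 ≤ N) {B : Finset (ℤ × ℤ)} (hB : Good m B)
    (hBR : ∃ w ∈ B, (RN m N : ℤ) ≤ w.1) {y : ℤ × ℤ} (hy : y ∈ outerBdry (Wm m) B) :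
    harmonicMeasure (Wm m) (outerBdry (Wm m) B) y ≤ 48 * (N : ℝ) ^ (-(1 / 169) : ℝ) := by
  have h1 := outer_bound hm hB hy (RN m N) (one_le_RN hN) hBR
  have hNpos : (0 : ℝ) < N := by exact_mod_cast hN
  have hNa := rpow_pos_of_one_le hN (168 / 169)
  have hm0 : (0 : ℝ) ≤ m := Nat.cast_nonneg m
  have hRpos : (0 : ℝ) < RN m N := by exact_mod_cast one_le_RN (m := m) hN
  have h2 : 32 * ((m : ℝ) + 1) / RN m N ≤ (N : ℝ) ^ (-(168 / 169) : ℝ) := by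
    rw [Real.rpow_neg hNpos.le, div_le_iff₀ hRpos]
    have h3 := le_RN m N
    calc 32 * ((m : ℝ) + 1) ≤ 3072 * ((m : ℝ) + 1) := by nlinarith
      _ = ((N : ℝ) ^ (168 / 169 : ℝ))⁻¹ * (3072 * ((m : ℝ) + 1) * (N : ℝ) ^ (168 / 169 : ℝ)) := by
        field_simp
      _ ≤ _ := by gcongr
  have h4 : (32 * ((m : ℝ) + 1) / RN m N) ^ pe ≤ (N : ℝ) ^ (-(2 / 169) : ℝ) := by
    calc (32 * ((m : ℝ) + 1) / RN m N) ^ pe ≤ ((N : ℝ) ^ (-(168 / 169) : ℝ)) ^ pe := by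
          apply Real.rpow_le_rpow (by positivity) h2
          unfold pe
          norm_num
      _ = (N : ℝ) ^ (-(2 / 169) : ℝ) := by
        rw [← Real.rpow_mul hNpos.le]
        congr 1
        unfold pe
        norm_num
  have h5 : (48 * (N : ℝ) ^ (-(1 / 169) : ℝ)) ^ 2 = 2304 * (N : ℝ) ^ (-(2 / 169) : ℝ) := by
    rw [mul_pow, ← Real.rpow_natCast ((N : ℝ) ^ (-(1 / 169) : ℝ)) 2, ← Real.rpow_mul hNpos.le]
    norm_num
  have h6 : harmonicMeasure (Wm m) (outerBdry (Wm m) B) y ^ 2 ≤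
      (48 * (N : ℝ) ^ (-(1 / 169) : ℝ)) ^ 2 := by
    rw [h5]
    refine h1.trans ?_
    gcongr
  exact (abs_le_of_sq_le_sq' h6 (by positivity)).2

lemma exp_half_le : Real.exp (1 / 2) ≤ 2 := by
  have h1 := Real.exp_one_lt_d9
  have h2 : Real.exp (1 / 2) ^ 2 = Real.exp 1 := by
    rw [← Real.exp_nat_mul]
    norm_num
  have h3 := Real.exp_pos (1 / 2)
  nlinarith

lemma growth_pow {N : ℕ} (hN : 1 ≤ N) :
    (1 + 1536 * (N : ℝ) ^ (-(1 / 169) : ℝ)) ^ N ≤ 2 ^ RN m N := by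
  have hNpos : (0 : ℝ) < N := by exact_mod_cast hN
  have hm0 : (0 : ℝ) ≤ m := Nat.cast_nonneg m
  set q := 1536 * (N : ℝ) ^ (-(1 / 169) : ℝ) with hq
  have hq0 : 0 ≤ q := by positivity
  have h1 : 1 + q ≤ Real.exp q := by
    have := Real.add_one_le_exp q
    linarith
  have h2 : q * N = 1536 * (N : ℝ) ^ (168 / 169 : ℝ) := by
    rw [hq, mul_assoc]
    congr 1
    nth_rw 2 [← Real.rpow_one (N : ℝ)]
    rw [← Real.rpow_add hNpos]
    norm_num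
  have h3 : q * N ≤ RN m N * (1 / 2) := by
    rw [h2]
    have h4 := le_RN m N
    have h5 := rpow_pos_of_one_le hN (168 / 169)
    nlinarith [mul_nonneg hm0 h5.le]
  calc (1 + q) ^ N ≤ (Real.exp q) ^ N := by gcongr
    _ = Real.exp (q * N) := by
      rw [← Real.exp_nat_mul]
      congr 1
      ring
    _ ≤ Real.exp (RN m N * (1 / 2)) := Real.exp_le_exp.2 h3
    _ = Real.exp (1 / 2) ^ RN m N := by rw [Real.exp_nat_mul]
    _ ≤ 2 ^ RN m N := by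
      gcongr
      exact exp_half_le

lemma decay_bound {N : ℕ} (hN : 1 ≤ N) :
    8 * (N : ℝ) / 4 ^ RN m N ≤ 5760 / (N : ℝ) ^ 2 := by
  have hNpos : (0 : ℝ) < N := by exact_mod_cast hN
  have hN1 : (1 : ℝ) ≤ N := by exact_mod_cast hN
  have hm0 : (0 : ℝ) ≤ m := Nat.cast_nonneg m
  have h1 : (N : ℝ) ≤ (RN m N : ℝ) ^ 2 := by
    have h2 := le_RN m N
    have h3 : (N : ℝ) ^ (1 / 2 : ℝ) ≤ (N : ℝ) ^ (168 / 169 : ℝ) :=
      Real.rpow_le_rpow_of_exponent_le hN1 (by norm_num)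
    have h4 : (N : ℝ) ^ (168 / 169 : ℝ) ≤ 3072 * ((m : ℝ) + 1) * (N : ℝ) ^ (168 / 169 : ℝ) := by
      have := rpow_pos_of_one_le hN (168 / 169)
      nlinarith [mul_nonneg hm0 this.le]
    have h5 : (N : ℝ) ^ (1 / 2 : ℝ) ≤ RN m N := h3.trans (h4.trans h2)
    calc (N : ℝ) = ((N : ℝ) ^ (1 / 2 : ℝ)) ^ 2 := by
          rw [← Real.rpow_natCast ((N : ℝ) ^ (1 / 2 : ℝ)) 2, ← Real.rpow_mul hNpos.le]
          norm_num
      _ ≤ _ := by gcongr
  have h6 : (RN m N : ℝ) ^ 6 / 720 ≤ 4 ^ RN m N := by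
    have h7 := Real.pow_div_factorial_le_exp (RN m N : ℝ) (Nat.cast_nonneg _) 6
    have h8 : Real.exp (RN m N) ≤ 4 ^ RN m N := by
      calc Real.exp (RN m N) = Real.exp 1 ^ RN m N := by
            rw [← Real.exp_nat_mul, mul_one]
        _ ≤ 4 ^ RN m N := by
          gcongr
          linarith [Real.exp_one_lt_d9]
    have h9 : ((Nat.factorial 6 : ℕ) : ℝ) = 720 := by norm_num [Nat.factorial]
    rw [h9] at h7
    exact h7.trans h8
  have h10 : (N : ℝ) ^ 3 / 720 ≤ 4 ^ RN m N := by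
    refine le_trans ?_ h6
    have : (N : ℝ) ^ 3 ≤ ((RN m N : ℝ) ^ 2) ^ 3 := by gcongr
    rw [← pow_mul] at this
    norm_num at this
    linarith
  rw [div_le_div_iff₀ (by positivity) (by positivity)]
  nlinarith

variable {Ω : Type*} [MeasurableSpace Ω] {P : Measure Ω} {A : ℕ → Ω → Finset (ℤ × ℤ)}
  [IsProbabilityMeasure P]

lemma prob_bound (hm : 1 ≤ m) (hA : IsDLA (Wm m) P A) {N : ℕ} (hN : 1 ≤ N) :
    P {ω | ∃ z ∈ A N ω, 2 * (RN m N : ℤ) ≤ z.1} ≤ ENNReal.ofReal (5760 / (N : ℝ) ^ 2) := by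
  have hNpos : (0 : ℝ) < N := by exact_mod_cast hN
  obtain ⟨r, hr⟩ : ∃ r : ℝ, r = 48 * (N : ℝ) ^ (-(1 / 169) : ℝ) := ⟨_, rfl⟩
  have hr0 : 0 ≤ r := by
    rw [hr]
    positivity
  have h1 := prob_reach (x := 8) (p := ENNReal.ofReal r) hm hA (one_le_RN (m := m) hN)
    (fun B hB hBR y hy => ENNReal.ofReal_le_ofReal (by
      rw [hr]
      exact outer_bound_le hm hN hB hBR hy))
    (by norm_num) N
  have e1 : (1 : ℝ≥0∞) + 4 * 8 * ENNReal.ofReal r = ENNReal.ofReal (1 + 32 * r) := by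
    rw [ENNReal.ofReal_add (by norm_num) (by positivity), ENNReal.ofReal_one,
      ENNReal.ofReal_mul (by norm_num)]
    norm_num
  have e2 : (1 + 32 * r) ^ N ≤ 2 ^ RN m N := by
    have := growth_pow (m := m) hN
    have e : 1 + 32 * r = 1 + 1536 * (N : ℝ) ^ (-(1 / 169) : ℝ) := by
      rw [hr]; ring
    rw [e]
    exact this
  have h2 : (8 : ℝ≥0∞) ^ RN m N * P {ω | ∃ z ∈ A N ω, 2 * (RN m N : ℤ) ≤ z.1} ≤
      ENNReal.ofReal (8 * N * 2 ^ RN m N) := by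
    refine h1.trans ?_
    rw [e1, ← ENNReal.ofReal_pow (by positivity), ENNReal.ofReal_mul (by positivity),
      ENNReal.ofReal_mul (by norm_num)]
    have e3 : ENNReal.ofReal (8 : ℝ) = 8 := by norm_num
    rw [e3, ENNReal.ofReal_natCast, mul_comm (8 : ℝ≥0∞) (N : ℝ≥0∞)]
    gcongr
  have h3 : P {ω | ∃ z ∈ A N ω, 2 * (RN m N : ℤ) ≤ z.1} ≤
      ENNReal.ofReal (8 * N * 2 ^ RN m N) / 8 ^ RN m N := by
    rw [ENNReal.le_div_iff_mul_le (Or.inl (by positivity)) (Or.inl (by finiteness)), mul_comm]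
    exact h2
  refine h3.trans ?_
  have e4 : (8 : ℝ≥0∞) ^ RN m N = ENNReal.ofReal (8 ^ RN m N) := by
    rw [ENNReal.ofReal_pow (by norm_num)]
    norm_num
  rw [e4, ← ENNReal.ofReal_div_of_pos (by positivity)]
  apply ENNReal.ofReal_le_ofReal
  have e5 : 8 * (N : ℝ) * 2 ^ RN m N / 8 ^ RN m N = 8 * (N : ℝ) / 4 ^ RN m N := by
    have : (8 : ℝ) ^ RN m N = 2 ^ RN m N * 4 ^ RN m N := by
      rw [← mul_pow]
      norm_num
    rw [this]
    field_simp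
  rw [e5]
  exact decay_bound hN

/-- Almost surely, for large times the aggregate stays in the first `2 RN` columns. -/
theorem eventually_bound (hm : 1 ≤ m) (hA : IsDLA (Wm m) P A) :
    ∀ᵐ ω ∂P, ∀ᶠ N : ℕ in atTop, ∀ z ∈ A N ω, z.1 < 2 * (RN m N : ℤ) := by
  have hsum : ∑' N : ℕ, P {ω | ∃ z ∈ A (N + 1) ω, 2 * (RN m (N + 1) : ℤ) ≤ z.1} ≠ ∞ := by
    have hs : Summable fun N : ℕ => 5760 / (((N + 1 : ℕ) : ℝ)) ^ 2 := by
      have h1 : Summable fun N : ℕ => 1 / ((N : ℝ)) ^ 2 :=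
        Real.summable_one_div_nat_pow.2 (by norm_num)
      have h2 := ((summable_nat_add_iff 1).2 h1).mul_left 5760
      refine h2.congr fun N => ?_
      ring
    refine ne_top_of_le_ne_top hs.tsum_ofReal_ne_top ?_
    exact ENNReal.tsum_le_tsum fun N => prob_bound hm hA (by omega)
  filter_upwards [ae_eventually_notMem hsum] with ω hω
  rw [Filter.eventually_atTop] at hω ⊢
  obtain ⟨N₀, hN₀⟩ := hω
  refine ⟨N₀ + 1, fun N hN z hz => ?_⟩
  obtain ⟨N', rfl⟩ : ∃ N', N = N' + 1 := ⟨N - 1, by omega⟩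
  have h1 := hN₀ N' (by omega)
  by_contra hcon
  exact h1 ⟨z, hz, by omega⟩

lemma diam_le {B : Finset (ℤ × ℤ)} (hm : 1 ≤ m) (hB : Good m B) {R : ℕ}
    (h : ∀ z ∈ B, z.1 < 2 * (R : ℤ)) : diam B ≤ 4 * R := by
  unfold diam
  apply Metric.diam_le_of_forall_dist_le (by positivity)
  rintro _ ⟨z, hz, rfl⟩ _ ⟨w, hw, rfl⟩
  have hz' := Finset.mem_coe.1 hz
  have hw' := Finset.mem_coe.1 hw
  have hbnd : ∀ z ∈ B, (0 : ℝ) ≤ z.1 ∧ (z.1 : ℝ) ≤ 2 * R ∧ (0 : ℝ) ≤ z.2 ∧ (z.2 : ℝ) ≤ 2 * R := by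
    intro z hz
    have h1 := hB.sub z hz
    have h2 := Wm_fst_nonneg h1
    have h3 := Wm_snd_le_fst hm h1
    have h4 := (mem_Wm.1 h1).1
    have h5 := h z hz
    refine ⟨by exact_mod_cast h2, by exact_mod_cast h5.le, by exact_mod_cast h4, ?_⟩
    exact_mod_cast (h3.trans h5.le)
  obtain ⟨a1, a2, a3, a4⟩ := hbnd z hz'
  obtain ⟨b1, b2, b3, b4⟩ := hbnd w hw'
  rw [dist_eq_norm]
  have h6 : toPlane z - toPlane w = ⟨(z.1 : ℝ) - w.1, (z.2 : ℝ) - w.2⟩ := by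
    unfold toPlane
    apply Complex.ext <;> simp
  rw [h6]
  refine (Complex.norm_le_abs_re_add_abs_im _).trans ?_
  simp only
  have h7 : |(z.1 : ℝ) - w.1| ≤ 2 * R := by
    rw [abs_le]
    constructor <;> linarith
  have h8 : |(z.2 : ℝ) - w.2| ≤ 2 * R := by
    rw [abs_le]
    constructor <;> linarith
  linarith

/-- The growth rate is at most `168/169` when the diameters are `O (n ^ (168/169))`. -/
lemma growthRate_le {A : ℕ → Finset (ℤ × ℤ)} {C : ℝ}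
    (h : ∀ᶠ N : ℕ in atTop, diam (A N) ≤ C * (N : ℝ) ^ (168 / 169 : ℝ)) :
    growthRate A ≤ 168 / 169 := by
  unfold growthRate
  apply Real.sSup_le _ (by norm_num)
  rintro β ⟨_, hβ⟩
  by_contra hcon
  push Not at hcon
  have hlim : Tendsto (fun N : ℕ => ENNReal.ofReal (C * (N : ℝ) ^ (-(β - 168 / 169)))) atTop
      (𝓝 0) := by
    have h1 : Tendsto (fun N : ℕ => (N : ℝ) ^ (-(β - 168 / 169))) atTop (𝓝 0) :=
      (tendsto_rpow_neg_atTop (by linarith)).comp tendsto_natCast_atTop_atTop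
    have h2 := ENNReal.tendsto_ofReal (h1.const_mul C)
    rw [mul_zero, ENNReal.ofReal_zero] at h2
    exact h2
  have hle : (fun N : ℕ => ENNReal.ofReal (diam (A N) / (N : ℝ) ^ β)) ≤ᶠ[atTop]
      fun N : ℕ => ENNReal.ofReal (C * (N : ℝ) ^ (-(β - 168 / 169))) := by
    filter_upwards [h, eventually_ge_atTop 1] with N hN hN1
    have hNpos : (0 : ℝ) < N := by exact_mod_cast hN1
    apply ENNReal.ofReal_le_ofReal
    rw [div_le_iff₀ (Real.rpow_pos_of_pos hNpos β), mul_assoc, ← Real.rpow_add hNpos]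
    have e : -(β - 168 / 169) + β = 168 / 169 := by ring
    rw [e]
    exact hN
  have h3 := limsup_le_limsup hle
  rw [hlim.limsup_eq] at h3
  exact absurd hβ (not_lt.2 h3)

/-- **Main bound.** The growth rate of DLA on the wedge is almost surely at most `168/169`. -/
theorem growth_bound (hm : 1 ≤ m) (hA : IsDLA (Wm m) P A) :
    ∀ᵐ ω ∂P, growthRate (fun n => A n ω) ≤ 168 / 169 := by
  filter_upwards [eventually_bound hm hA, path_ae hm hA] with ω hω hpath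
  have hm0 : (0 : ℝ) ≤ m := Nat.cast_nonneg m
  apply growthRate_le (C := 4 * (3072 * ((m : ℝ) + 1) + 1))
  filter_upwards [hω, eventually_ge_atTop 1] with N hN hN1
  have hN1' : (1 : ℝ) ≤ N := by exact_mod_cast hN1
  have h1 := diam_le hm (hpath.2 N).1 hN
  have h2 : (RN m N : ℝ) ≤ 3072 * ((m : ℝ) + 1) * (N : ℝ) ^ (168 / 169 : ℝ) + 1 := by
    have hpos := rpow_pos_of_one_le hN1 (168 / 169)
    exact (Nat.ceil_lt_add_one (by positivity)).le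
  have h3 : (1 : ℝ) ≤ (N : ℝ) ^ (168 / 169 : ℝ) := Real.one_le_rpow hN1' (by norm_num)
  calc diam (A N ω) ≤ 4 * (RN m N : ℝ) := h1
    _ ≤ 4 * (3072 * ((m : ℝ) + 1) * (N : ℝ) ^ (168 / 169 : ℝ) + 1) := by gcongr
    _ ≤ 4 * (3072 * ((m : ℝ) + 1) * (N : ℝ) ^ (168 / 169 : ℝ) + (N : ℝ) ^ (168 / 169 : ℝ)) := by
      gcongr
    _ = 4 * (3072 * ((m : ℝ) + 1) + 1) * (N : ℝ) ^ (168 / 169 : ℝ) := by ring

end Pool.Agent.Lib.MP_cfc8f6_pr
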