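import Mathlib
import Pool.Agent.Lib.MP_cfc8f6_pr.Growth

/-!
The wedges `Wm m` are wedges in the sense of the problem, and DLA exists on them.
-/

open Filter Topology Finset MeasureTheory ProbabilityTheory
open scoped ENNReal

namespace Pool.Agent.Lib.MP_cfc8f6_pr

variable {m : ℕ}

lemma wedge_eq (hm : 1 ≤ m) : wedge 0 (Real.arctan (1 / (m : ℝ))) = Wm m := by
  have hmpos : (0 : ℝ) < m := by exact_mod_cast hm
  ext z
  obtain ⟨a, b⟩ := z
  simp only [wedge, angle, Wm]
  show (0 ≤ a ∧ _ ∧ _) ↔ (0 ≤ b ∧ (m : ℤ) * b ≤ a)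
  by_cases ha : a = 0
  · subst ha
    simp only [if_true, le_refl, true_and]
    rcases lt_trichotomy b 0 with hb | hb | hb
    · rw [if_neg (by omega), if_pos hb]
      have := Real.pi_pos
      constructor
      · rintro ⟨h, _⟩
        linarith
      · rintro ⟨h, _⟩
        omega
    · subst hb
      simp only [lt_irrefl, if_false, le_refl, true_and, mul_zero, iff_true]
      rw [Real.arctan_nonneg]
      positivity
    · rw [if_pos hb]
      constructor
      · rintro ⟨_, h⟩
        exact absurd h (not_le.2 (Real.arctan_lt_pi_div_two _))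
      · rintro ⟨_, h⟩
        exfalso
        have h1 : (0 : ℤ) < (m : ℤ) * b := by positivity
        omega
  · rw [if_neg ha]
    rcases lt_or_gt_of_ne ha with ha' | ha'
    · constructor
      · rintro ⟨h, _⟩
        omega
      · rintro ⟨h1, h2⟩
        exfalso
        have h3 : (0 : ℤ) ≤ (m : ℤ) * b := by positivity
        omega
    · have haR : (0 : ℝ) < a := by exact_mod_cast ha'
      rw [Real.arctan_nonneg, Real.arctan_le_arctan_iff]
      constructor
      · rintro ⟨_, h1, h2⟩
        have hb : (0 : ℝ) ≤ b := by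
          by_contra hcon
          push Not at hcon
          have := div_neg_of_neg_of_pos hcon haR
          linarith
        refine ⟨by exact_mod_cast hb, ?_⟩
        rw [div_le_div_iff₀ haR hmpos] at h2
        have h3 : (m : ℝ) * b ≤ a := by linarith
        exact_mod_cast h3
      · rintro ⟨h1, h2⟩
        have hb : (0 : ℝ) ≤ b := by exact_mod_cast h1
        refine ⟨ha'.le, by positivity, ?_⟩
        rw [div_le_div_iff₀ haR hmpos]
        have h3 : (m : ℝ) * b ≤ a := by exact_mod_cast h2
        linarith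

lemma admissible (hm : 1 ≤ m) : Admissible 0 (Real.arctan (1 / (m : ℝ))) := by
  have hmpos : (0 : ℝ) < m := by exact_mod_cast hm
  have hpi := Real.pi_pos
  have h1 : 0 < Real.arctan (1 / (m : ℝ)) := by
    rw [Real.arctan_pos]
    positivity
  exact ⟨by linarith, le_refl _, h1.le, (Real.arctan_lt_pi_div_two _).le, h1⟩

/-- The state space: good sets. -/
structure GoodSet (m : ℕ) where
  /-- The underlying finite set. -/
  set : Finset (ℤ × ℤ)
  good : Good m set

lemma GoodSet.set_injective : Function.Injective (GoodSet.set (m := m)) := by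
  intro A B h
  cases A
  cases B
  simp only at h
  subst h
  rfl

instance : MeasurableSpace (GoodSet m) := ⊤

instance : DiscreteMeasurableSpace (GoodSet m) := ⟨fun _ => trivial⟩

instance : Countable (GoodSet m) := GoodSet.set_injective.countable

/-- The next set. -/
def GoodSet.next (A : GoodSet m) (y : {y // y ∈ outerBdry (Wm m) A.set}) : GoodSet m :=
  ⟨insert y.1 A.set, A.good.insert y.2⟩

/-- The law of the next set. -/
noncomputable def stepLaw (A : GoodSet m) : Measure (GoodSet m) :=
  ∑ y : {y // y ∈ outerBdry (Wm m) A.set},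
    ENNReal.ofReal (harmonicMeasure (Wm m) (outerBdry (Wm m) A.set) y.1) •
      Measure.dirac (A.next y)

lemma stepLaw_univ (hm : 1 ≤ m) (A : GoodSet m) : stepLaw A Set.univ = 1 := by
  unfold stepLaw
  rw [Measure.finsetSum_apply]
  simp only [Measure.smul_apply, measure_univ, smul_eq_mul, mul_one]
  rw [← sum_ofReal hm A.good]
  exact Finset.sum_coe_sort (outerBdry (Wm m) A.set)
    (fun y => ENNReal.ofReal (harmonicMeasure (Wm m) (outerBdry (Wm m) A.set) y))

lemma stepLaw_apply (A : GoodSet m) {y : ℤ × ℤ} (hy : y ∈ outerBdry (Wm m) A.set) :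
    stepLaw A {B : GoodSet m | B.set = insert y A.set} =
      ENNReal.ofReal (harmonicMeasure (Wm m) (outerBdry (Wm m) A.set) y) := by
  unfold stepLaw
  rw [Measure.finsetSum_apply, Finset.sum_eq_single (⟨y, hy⟩ : {y // y ∈ outerBdry (Wm m) A.set})]
  · rw [Measure.smul_apply, Measure.dirac_apply' _ (MeasurableSet.of_discrete),
      Set.indicator_of_mem]
    · simp
    · show (A.next ⟨y, hy⟩).set = insert y A.set
      rfl
  · intro y' _ hne
    rw [Measure.smul_apply, Measure.dirac_apply' _ (MeasurableSet.of_discrete),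
      Set.indicator_of_notMem]
    · simp
    · intro hmem
      apply hne
      have h1 : insert y'.1 A.set = insert y A.set := hmem
      have h2 : y'.1 = y := insert_inj (mem_outerBdry.1 y'.2).2.2 h1
      exact Subtype.ext h2
  · intro h
    exact absurd (Finset.mem_univ _) h

/-- The transition kernel. -/
noncomputable def stepKer (m : ℕ) : Kernel (GoodSet m) (GoodSet m) :=
  Kernel.ofFunOfCountable stepLaw

/-- The transition kernels as functions of the whole past. -/
noncomputable def pastKer (m : ℕ) (n : ℕ) :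
    Kernel (∀ _ : Finset.Iic n, GoodSet m) (GoodSet m) :=
  (stepKer m).comap (fun h => h ⟨n, Finset.mem_Iic.2 le_rfl⟩) (measurable_pi_apply _)

lemma pastKer_apply (n : ℕ) (h : ∀ _ : Finset.Iic n, GoodSet m) :
    pastKer m n h = stepLaw (h ⟨n, Finset.mem_Iic.2 le_rfl⟩) := rfl

lemma pastKer_markov (hm : 1 ≤ m) (n : ℕ) : IsMarkovKernel (pastKer m n) := by
  constructor
  intro h
  constructor
  exact stepLaw_univ hm _

/-- The initial state. -/
def zeroSet (m : ℕ) : GoodSet m := ⟨{((0 : ℤ), (0 : ℤ))}, good_singleton⟩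

/-- DLA exists on the wedge. -/
theorem exists_dla (hm : 1 ≤ m) :
    ∃ (Ω : Type) (_ : MeasurableSpace Ω) (P : Measure Ω) (_ : IsProbabilityMeasure P)
      (A : ℕ → Ω → Finset (ℤ × ℤ)), IsDLA (Wm m) P A := by
  classical
  have : ∀ n, IsMarkovKernel (pastKer m n) := pastKer_markov hm
  let x₀ : ∀ _ : Finset.Iic 0, GoodSet m := fun _ => zeroSet m
  let μ : Measure (∀ _ : ℕ, GoodSet m) :=
    Kernel.traj (X := fun _ => GoodSet m) (pastKer m) 0 x₀
  have : IsProbabilityMeasure μ := inferInstanceAs (IsProbabilityMeasure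
    (Kernel.traj (X := fun _ => GoodSet m) (pastKer m) 0 x₀))
  have hmeas : ∀ (n : ℕ) (s : Finset (ℤ × ℤ)),
      MeasurableSet {ω : ∀ _ : ℕ, GoodSet m | (ω n).set = s} := by
    intro n s
    have h1 : MeasurableSet {B : GoodSet m | B.set = s} := MeasurableSet.of_discrete
    exact h1.preimage (measurable_pi_apply n)
  have hmap : ∀ n, μ.map (Preorder.frestrictLe n) =
      Kernel.partialTraj (X := fun _ => GoodSet m) (pastKer m) 0 n x₀ := fun n =>
    Kernel.traj_map_frestrictLe_apply (X := fun _ => GoodSet m) (κ := pastKer m) 0 n x₀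
  refine ⟨∀ _ : ℕ, GoodSet m, inferInstance, μ, inferInstance, fun n ω => (ω n).set, hmeas,
    ?_, ?_⟩
  · have h1 : MeasurableSet {h : ∀ _ : Finset.Iic 0, GoodSet m |
        (h ⟨0, Finset.mem_Iic.2 le_rfl⟩).set = {((0 : ℤ), (0 : ℤ))}} := MeasurableSet.of_discrete
    have h2 : μ {ω | (ω 0).set = {((0 : ℤ), (0 : ℤ))}} =
        (μ.map (Preorder.frestrictLe 0)) {h : ∀ _ : Finset.Iic 0, GoodSet m |
          (h ⟨0, Finset.mem_Iic.2 le_rfl⟩).set = {((0 : ℤ), (0 : ℤ))}} := by
      rw [Measure.map_apply (by fun_prop) h1]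
      rfl
    rw [h2, hmap 0, Kernel.partialTraj_self, Kernel.id_apply, Measure.dirac_apply' _ h1,
      Set.indicator_of_mem]
    · rfl
    · rfl
  · intro n s y hy
    have key := Kernel.partialTraj_compProd_eq_map_traj
      (X := fun _ => GoodSet m) (κ := pastKer m) (a := 0) (b := n) (Nat.zero_le n) (x₀ := x₀)
    set E : Set (∀ _ : Finset.Iic n, GoodSet m) := {h | ∀ i : Finset.Iic n, (h i).set = s i}
      with hE
    set B : Set (GoodSet m) := {G | G.set = insert y (s n)} with hB
    have hEm : MeasurableSet E := MeasurableSet.of_discrete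
    have hBm : MeasurableSet B := MeasurableSet.of_discrete
    have e1 : μ {ω | (∀ i ≤ n, (ω i).set = s i) ∧ (ω (n + 1)).set = insert y (s n)} =
        (μ.map (fun x => (Preorder.frestrictLe n x, x (n + 1)))) (E ×ˢ B) := by
      rw [Measure.map_apply (by fun_prop) (hEm.prod hBm)]
      congr 1
      ext ω
      simp only [Set.mem_preimage, Set.mem_prod]
      show ((∀ i ≤ n, (ω i).set = s i) ∧ (ω (n + 1)).set = insert y (s n)) ↔
        ((∀ i : Finset.Iic n, (ω i).set = s i) ∧ (ω (n + 1)).set = insert y (s n))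
      constructor
      · rintro ⟨h1, h2⟩
        exact ⟨fun i => h1 i (Finset.mem_Iic.1 i.2), h2⟩
      · rintro ⟨h1, h2⟩
        exact ⟨fun i hi => h1 ⟨i, Finset.mem_Iic.2 hi⟩, h2⟩
    have e2 : μ {ω | ∀ i ≤ n, (ω i).set = s i} = (μ.map (Preorder.frestrictLe n)) E := by
      rw [Measure.map_apply (by fun_prop) hEm]
      congr 1
      ext ω
      show (∀ i ≤ n, (ω i).set = s i) ↔ (∀ i : Finset.Iic n, (ω i).set = s i)
      constructor
      · intro h1 i
        exact h1 i (Finset.mem_Iic.1 i.2)
      · intro h1 i hi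
        exact h1 ⟨i, Finset.mem_Iic.2 hi⟩
    have e3 : (μ.map (fun x => (Preorder.frestrictLe n x, x (n + 1)))) (E ×ˢ B) =
        ∫⁻ h in E, pastKer m n h B
          ∂(Kernel.partialTraj (X := fun _ => GoodSet m) (pastKer m) 0 n x₀) := by
      rw [← Measure.compProd_apply_prod hEm hBm]
      exact congrFun (congrArg (fun ν : Measure _ => (ν : Set _ → ℝ≥0∞)) key.symm) _
    rw [e1, e2, e3, hmap n]
    rw [setLIntegral_congr_fun (g := fun _ =>
      ENNReal.ofReal (harmonicMeasure (Wm m) (outerBdry (Wm m) (s n)) y)) hEm,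
      setLIntegral_const, mul_comm]
    intro h hh
    have h1 : (h ⟨n, Finset.mem_Iic.2 le_rfl⟩).set = s n := hh ⟨n, Finset.mem_Iic.2 le_rfl⟩
    have h2 := stepLaw_apply (h ⟨n, Finset.mem_Iic.2 le_rfl⟩) (y := y) (by rw [h1]; exact hy)
    rw [h1] at h2
    exact h2

end Pool.Agent.Lib.MP_cfc8f6_pr
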